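import Pool.Agent.Helper84.Dbl.Hole
set_option autoImplicit false
namespace Pool.Agent.Helper84.Dbl
open MeasureTheory

/-- The gauge of the tetrahedron. -/
def gT (x : Fin 3 → ℝ) : ℝ :=
  max (max (-x 0 - x 1 - x 2) (-x 0 + x 1 + x 2)) (max (x 0 - x 1 + x 2) (x 0 + x 1 - x 2))

theorem gT_le {x : Fin 3 → ℝ} {c : ℝ} : gT x ≤ c ↔ -x 0 - x 1 - x 2 ≤ c ∧ -x 0 + x 1 + x 2 ≤ c ∧
    x 0 - x 1 + x 2 ≤ c ∧ x 0 + x 1 - x 2 ≤ c := by
  unfold gT
  rw [max_le_iff, max_le_iff, max_le_iff, and_assoc]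

theorem le_gT {x : Fin 3 → ℝ} {c : ℝ} : c ≤ gT x ↔ OutT c (x 0) (x 1) (x 2) := by
  unfold gT OutT
  rw [le_max_iff, le_max_iff, le_max_iff, or_assoc]

/-- A representative of smallest gauge in a coset of a lattice. -/
theorem exists_minrep (L : Submodule ℤ (Fin 3 → ℝ)) [DiscreteTopology L] (p : Fin 3 → ℝ) :
    ∃ u ∈ L, ∀ v ∈ L, gT (p + u) ≤ gT (p + v) := by
  have hcl : IsClosed (L : Set (Fin 3 → ℝ)) := by
    have : DiscreteTopology L.toAddSubgroup := inferInstanceAs (DiscreteTopology L)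
    exact AddSubgroup.isClosed_of_discrete (H := L.toAddSubgroup)
  have hdisc : IsDiscrete (L : Set (Fin 3 → ℝ)) := ⟨inferInstanceAs (DiscreteTopology L)⟩
  have hfin : (Metric.closedBall (-p) (gT p) ∩ (L : Set (Fin 3 → ℝ))).Finite :=
    Metric.finite_isBounded_inter_isClosed hdisc Metric.isBounded_closedBall hcl
  have hg0 : 0 ≤ gT p := by
    by_contra h
    push Not at h
    have h2 := gT_le.1 h.le
    have h3 := gT_le.1 (le_refl (gT p))
    linarith [h3.1, h3.2.1, h3.2.2.1, h3.2.2.2]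
  have hball : ∀ v : Fin 3 → ℝ, gT (p + v) ≤ gT p → v ∈ Metric.closedBall (-p) (gT p) := by
    intro v hv
    obtain ⟨h1, h2, h3, h4⟩ := gT_le.1 hv
    simp only [Pi.add_apply] at h1 h2 h3 h4
    rw [mem_closedBall_iff_norm, pi_norm_le_iff_of_nonneg hg0]
    intro i
    rw [Real.norm_eq_abs, abs_le]
    simp only [Pi.sub_apply, Pi.neg_apply]
    fin_cases i
    · constructor
      · show -gT p ≤ v 0 - -p 0; linarith
      · show v 0 - -p 0 ≤ gT p; linarith
    · constructor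
      · show -gT p ≤ v 1 - -p 1; linarith
      · show v 1 - -p 1 ≤ gT p; linarith
    · constructor
      · show -gT p ≤ v 2 - -p 2; linarith
      · show v 2 - -p 2 ≤ gT p; linarith
  obtain ⟨u, hu, hmin⟩ := Set.exists_min_image _ (fun v => gT (p + v)) hfin
    ⟨0, hball 0 (by rw [add_zero]), L.zero_mem⟩
  refine ⟨u, hu.2, fun v hv => ?_⟩
  by_cases h : gT (p + v) ≤ gT p
  · exact hmin v ⟨hball v h, hv⟩
  · push Not at h
    have h0 := hmin 0 ⟨hball 0 (by rw [add_zero]), L.zero_mem⟩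
    simp only [add_zero] at h0
    linarith

end Pool.Agent.Helper84.Dbl
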