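import Pool.Agent.Helper84.Tet.Lattice2
set_option autoImplicit false
namespace Pool.Agent.Helper84.Dbl
open MeasureTheory
open Pool.Agent.Helper84.Tet (OutD Adm det3 Out exists_coord)

theorem out_scale {e x y z : ℝ} (he : 0 < e) (h : OutD x y z) :
    Out e ((1 + e) * x) ((1 + e) * y) ((1 + e) * z) := by
  have h1 : (0 : ℝ) < 1 + e := by linarith
  have ax : ∀ t : ℝ, |(1 + e) * t| = (1 + e) * |t| := fun t => by rw [abs_mul, abs_of_pos h1]
  have key : ∀ s t : ℝ, |s + t| ≤ 84 / 125 → |s - t| ≤ 84 / 125 → |s| + |t| ≤ 84 / 125 := by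
    intro s t hs ht
    rw [abs_le] at hs ht
    rcases abs_cases s with ⟨e1, _⟩ | ⟨e1, _⟩ <;> rcases abs_cases t with ⟨e2, _⟩ | ⟨e2, _⟩ <;>
      rw [e1, e2] <;> linarith
  have px := abs_nonneg x
  have py := abs_nonneg y
  have pz := abs_nonneg z
  have qx : |x| ≤ (1 + e) * |x| := by nlinarith
  have qy : |y| ≤ (1 + e) * |y| := by nlinarith
  have qz : |z| ≤ (1 + e) * |z| := by nlinarith
  refine ⟨?_, ?_, ?_, ?_, ?_⟩
  · unfold OutD at h ⊢
    rw [ax, ax, ax]
    rcases h with h | h | h | h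
    · left; linarith
    · right; left; linarith
    · right; right; left; linarith
    · right; right; right; linarith
  · rintro ⟨h2, h3, h4⟩
    have k := key _ _ h3 h4
    rw [ax] at h2
    rw [ax, ax] at k
    unfold OutD at h
    rcases h with h | h | h | h
    · nlinarith
    · nlinarith
    · nlinarith
    · nlinarith
  · rintro ⟨h2, h3, h4⟩
    have k := key _ _ h3 h4
    rw [ax] at h2
    rw [ax, ax] at k
    unfold OutD at h
    rcases h with h | h | h | h
    · nlinarith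
    · nlinarith
    · nlinarith
    · nlinarith
  · rintro ⟨h2, h3, h4⟩
    have k := key _ _ h3 h4
    rw [ax] at h2
    rw [ax, ax] at k
    unfold OutD at h
    rcases h with h | h | h | h
    · nlinarith
    · nlinarith
    · nlinarith
    · nlinarith
  · rintro ⟨h2, h3, h4, h5⟩
    rw [ax, ax, ax] at h5
    rw [ax] at h2 h3 h4
    unfold OutD at h
    rcases h with h | h | h | h
    · nlinarith
    · nlinarith
    · nlinarith
    · nlinarith

theorem covolume_low (L : Submodule ℤ (Fin 3 → ℝ)) [DiscreteTopology L] [IsZLattice ℝ L]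
    (hL : ∀ v ∈ L, v ≠ 0 → OutD (v 0) (v 1) (v 2)) : 29 / 4 ≤ ZLattice.covolume L := by
  set e : ℝ := 1 / 10 ^ 9 with he
  have he0 : 0 < e := by rw [he]; norm_num
  have h1 : (1 + e : ℝ) ≠ 0 := by linarith
  have h1' : (1 + e : ℝ)⁻¹ ≠ 0 := inv_ne_zero h1
  let f : (Fin 3 → ℝ) ≃L[ℝ] (Fin 3 → ℝ) := ContinuousLinearEquiv.smulLeft (Units.mk0 _ h1')
  let L' : Submodule ℤ (Fin 3 → ℝ) := ZLattice.comap ℝ L (f : (Fin 3 → ℝ) →ₗ[ℝ] (Fin 3 → ℝ))
  have : DiscreteTopology L' :=
    inferInstanceAs (DiscreteTopology (ZLattice.comap ℝ L (f : (Fin 3 → ℝ) →ₗ[ℝ] (Fin 3 → ℝ))))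
  have : IsZLattice ℝ L' :=
    inferInstanceAs (IsZLattice ℝ (ZLattice.comap ℝ L (f : (Fin 3 → ℝ) →ₗ[ℝ] (Fin 3 → ℝ))))
  have hmem : ∀ x : Fin 3 → ℝ, x ∈ L' ↔ (1 + e)⁻¹ • x ∈ L := fun x => Iff.rfl
  have hlow : 196 / 27 + 97 / 5 * e ≤ ZLattice.covolume L' := by
    apply Pool.Agent.Helper84.Tet.covolume_ge L' he0 (le_of_eq he)
    intro v hv hv0
    rw [hmem] at hv
    have hne : (1 + e)⁻¹ • v ≠ 0 := by
      intro h
      rw [smul_eq_zero] at h
      rcases h with h | h
      · exact h1' h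
      · exact hv0 h
    have := out_scale he0 (hL _ hv hne)
    simp only [Pi.smul_apply, smul_eq_mul] at this
    rw [mul_inv_cancel_left₀ h1, mul_inv_cancel_left₀ h1, mul_inv_cancel_left₀ h1] at this
    exact this
  -- compare the covolumes
  let B := IsZLattice.basis L
  let b : Fin 3 → (Fin 3 → ℝ) := fun i => ((B i : L) : Fin 3 → ℝ)
  have hdetL : ZLattice.covolume L = |(Matrix.of b).det| := ZLattice.covolume_eq_det L B
  let b' : Fin 3 → (Fin 3 → ℝ) := fun i => (1 + e) • b i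
  have hb' : ∀ i, b' i ∈ L' := by
    intro i
    rw [hmem]
    show (1 + e)⁻¹ • ((1 + e) • b i) ∈ L
    rw [smul_smul, inv_mul_cancel₀ h1, one_smul]
    exact (B i).2
  obtain ⟨C, hC, -⟩ := exists_coord L' b' hb'
  have hdet' : (Matrix.of b').det = (1 + e) ^ 3 * (Matrix.of b).det := by
    rw [Matrix.det_fin_three, Matrix.det_fin_three]
    simp only [Matrix.of_apply, b', Pi.smul_apply, smul_eq_mul]
    ring
  have hpos : 0 < ZLattice.covolume L := ZLattice.covolume_pos L volume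
  have hpos' : 0 < ZLattice.covolume L' := ZLattice.covolume_pos L' volume
  have h3 : |(Matrix.of b').det| = (1 + e) ^ 3 * ZLattice.covolume L := by
    rw [hdet', abs_mul, ← hdetL, abs_of_pos (by positivity)]
  rw [h3] at hC
  have hC1 : (1 : ℝ) ≤ |(C.det : ℝ)| := by
    have : C.det ≠ 0 := by
      intro h
      rw [h] at hC
      simp only [Int.cast_zero, abs_zero, zero_mul] at hC
      have : 0 < (1 + e) ^ 3 * ZLattice.covolume L := by positivity
      linarith
    have h4 : (1 : ℤ) ≤ |C.det| := Int.one_le_abs this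
    exact_mod_cast h4
  have h5 : ZLattice.covolume L' ≤ (1 + e) ^ 3 * ZLattice.covolume L := by
    rw [hC]
    nlinarith
  have h6 : (1 + e) ^ 3 ≤ 1001 / 1000 := by rw [he]; norm_num
  have h7 : (1 + e) ^ 3 * ZLattice.covolume L ≤ 1001 / 1000 * ZLattice.covolume L :=
    mul_le_mul_of_nonneg_right h6 hpos.le
  have h8 : 196 / 27 + 97 / 5 * e ≤ 1001 / 1000 * ZLattice.covolume L :=
    hlow.trans (h5.trans h7)
  have h9 : 0 ≤ 97 / 5 * e := by positivity
  clear_value e
  norm_num at h8 ⊢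
  linarith

end Pool.Agent.Helper84.Dbl
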