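import Mathlib
set_option autoImplicit false
set_option linter.unusedVariables false
namespace Pool.Agent.Helper84.Dbl

/-- bounds on an integer vector from diagonal dominance -/
theorem int_bounds1 {s i j k P1 P2 P3 : ℝ} (hs1 : 3.16227 < s) (hs2 : s < 3.16228)
    (h1 : P1 = 2 * i - (2 * s - 6) * j - (8 - 2 * s) / 3 * k)
    (h2 : P2 = -((26 - 8 * s) / 3) * i + 2 * j - (2 * s - 6) * k)
    (h3 : P3 = -((8 - 2 * s) / 3) * j + 2 * k)
    (g1 : |P1| < 2) (g2 : |P2| < 2) (g3 : |P3| < 2) : |i| < 2 ∧ |j| < 2 ∧ |k| < 2 := by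
  have a1 := abs_nonneg i
  have a2 := abs_nonneg j
  have a3 := abs_nonneg k
  have t : ∀ c d x : ℝ, 0 ≤ c → c ≤ d → |c * x| ≤ d * |x| := by
    intro c d x hc hd
    rw [abs_mul, abs_of_nonneg hc]
    exact mul_le_mul_of_nonneg_right hd (abs_nonneg x)
  have e1 : 2 * |i| ≤ |P1| + |(2 * s - 6) * j| + |(8 - 2 * s) / 3 * k| := by
    have : 2 * i = P1 + (2 * s - 6) * j + (8 - 2 * s) / 3 * k := by rw [h1]; ring
    calc 2 * |i| = |2 * i| := by rw [abs_mul, abs_two]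
      _ = |P1 + (2 * s - 6) * j + (8 - 2 * s) / 3 * k| := by rw [this]
      _ ≤ _ := abs_add_three _ _ _
  have e2 : 2 * |j| ≤ |P2| + |(26 - 8 * s) / 3 * i| + |(2 * s - 6) * k| := by
    have : 2 * j = P2 + (26 - 8 * s) / 3 * i + (2 * s - 6) * k := by rw [h2]; ring
    calc 2 * |j| = |2 * j| := by rw [abs_mul, abs_two]
      _ = |P2 + (26 - 8 * s) / 3 * i + (2 * s - 6) * k| := by rw [this]
      _ ≤ _ := abs_add_three _ _ _
  have e3 : 2 * |k| ≤ |P3| + |(8 - 2 * s) / 3 * j| := by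
    have : 2 * k = P3 + (8 - 2 * s) / 3 * j := by rw [h3]; ring
    calc 2 * |k| = |2 * k| := by rw [abs_mul, abs_two]
      _ = |P3 + (8 - 2 * s) / 3 * j| := by rw [this]
      _ ≤ _ := abs_add_le _ _
  have u1 := t (2 * s - 6) (325 / 1000) j (by linarith) (by linarith)
  have u2 := t ((8 - 2 * s) / 3) (559 / 1000) k (by linarith) (by linarith)
  have u3 := t ((26 - 8 * s) / 3) (234 / 1000) i (by linarith) (by linarith)
  have u4 := t (2 * s - 6) (325 / 1000) k (by linarith) (by linarith)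
  have u5 := t ((8 - 2 * s) / 3) (559 / 1000) j (by linarith) (by linarith)
  refine ⟨?_, ?_, ?_⟩ <;> linarith

theorem int_bounds2 {s i j k P1 P2 P3 : ℝ} (hs1 : 3.16227 < s) (hs2 : s < 3.16228)
    (h1 : P1 = 2 * i - (2 * s - 6) * j - (8 - 2 * s) / 3 * k)
    (h2 : P2 = -((26 - 8 * s) / 3) * i + 2 * j - (2 * s - 6) * k)
    (h3 : P3 = -((8 - 2 * s) / 3) * j + 2 * k)
    (g1 : |P1| < 2) (g2 : |P2 + (8 - 2 * s) / 3| < 2) (g3 : |P3 + (2 - (8 - 2 * s) / 3)| < 2) :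
    |i| < 2 ∧ |j| < 2 ∧ |k| < 3 := by
  have a1 := abs_nonneg i
  have a2 := abs_nonneg j
  have a3 := abs_nonneg k
  have t : ∀ c d x : ℝ, 0 ≤ c → c ≤ d → |c * x| ≤ d * |x| := by
    intro c d x hc hd
    rw [abs_mul, abs_of_nonneg hc]
    exact mul_le_mul_of_nonneg_right hd (abs_nonneg x)
  have g2' : |P2| < 2 + 559 / 1000 := by
    rw [abs_lt] at g2 ⊢
    constructor <;> linarith
  have g3' : |P3| < 2 + 1442 / 1000 := by
    rw [abs_lt] at g3 ⊢
    constructor <;> linarith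
  have e1 : 2 * |i| ≤ |P1| + |(2 * s - 6) * j| + |(8 - 2 * s) / 3 * k| := by
    have : 2 * i = P1 + (2 * s - 6) * j + (8 - 2 * s) / 3 * k := by rw [h1]; ring
    calc 2 * |i| = |2 * i| := by rw [abs_mul, abs_two]
      _ = |P1 + (2 * s - 6) * j + (8 - 2 * s) / 3 * k| := by rw [this]
      _ ≤ _ := abs_add_three _ _ _
  have e2 : 2 * |j| ≤ |P2| + |(26 - 8 * s) / 3 * i| + |(2 * s - 6) * k| := by
    have : 2 * j = P2 + (26 - 8 * s) / 3 * i + (2 * s - 6) * k := by rw [h2]; ring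
    calc 2 * |j| = |2 * j| := by rw [abs_mul, abs_two]
      _ = |P2 + (26 - 8 * s) / 3 * i + (2 * s - 6) * k| := by rw [this]
      _ ≤ _ := abs_add_three _ _ _
  have e3 : 2 * |k| ≤ |P3| + |(8 - 2 * s) / 3 * j| := by
    have : 2 * k = P3 + (8 - 2 * s) / 3 * j := by rw [h3]; ring
    calc 2 * |k| = |2 * k| := by rw [abs_mul, abs_two]
      _ = |P3 + (8 - 2 * s) / 3 * j| := by rw [this]
      _ ≤ _ := abs_add_le _ _
  have u1 := t (2 * s - 6) (325 / 1000) j (by linarith) (by linarith)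
  have u2 := t ((8 - 2 * s) / 3) (559 / 1000) k (by linarith) (by linarith)
  have u3 := t ((26 - 8 * s) / 3) (234 / 1000) i (by linarith) (by linarith)
  have u4 := t (2 * s - 6) (325 / 1000) k (by linarith) (by linarith)
  have u5 := t ((8 - 2 * s) / 3) (559 / 1000) j (by linarith) (by linarith)
  refine ⟨?_, ?_, ?_⟩ <;> linarith

/-- The strict inequalities of the tetrahedron. -/
def TS (x y z : ℝ) : Prop := -x - y - z < 1 ∧ -x + y + z < 1 ∧ x - y + z < 1 ∧ x + y - z < 1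

theorem abs_lt_of_int {i : ℤ} {n : ℕ} (h : |(i : ℝ)| < n) : |i| < n := by
  exact_mod_cast h

/-- No nonzero lattice vector is a difference of two interior points of the tetrahedron. -/
theorem opt_same {s : ℝ} (hs1 : 3.16227 < s) (hs2 : s < 3.16228) (i j k : ℤ)
    (hne : ¬ (i = 0 ∧ j = 0 ∧ k = 0)) {p1 p2 p3 q1 q2 q3 : ℝ} (hp : TS p1 p2 p3)
    (hq : TS q1 q2 q3)
    (h1 : p1 - q1 = 2 * i - (2 * s - 6) * j - (8 - 2 * s) / 3 * k)
    (h2 : p2 - q2 = -((26 - 8 * s) / 3) * i + 2 * j - (2 * s - 6) * k)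
    (h3 : p3 - q3 = -((8 - 2 * s) / 3) * j + 2 * k) : False := by
  obtain ⟨c1, c2, c3, c4⟩ := hp
  obtain ⟨d1, d2, d3, d4⟩ := hq
  obtain ⟨b1, b2, b3⟩ := int_bounds1 hs1 hs2 h1 h2 h3
    (by rw [abs_lt]; constructor <;> linarith) (by rw [abs_lt]; constructor <;> linarith)
    (by rw [abs_lt]; constructor <;> linarith)
  have b1' : |i| < 2 := by exact_mod_cast b1
  have b2' : |j| < 2 := by exact_mod_cast b2
  have b3' : |k| < 2 := by exact_mod_cast b3
  rw [abs_lt] at b1' b2' b3'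
  obtain ⟨l1, r1⟩ := b1'
  obtain ⟨l2, r2⟩ := b2'
  obtain ⟨l3, r3⟩ := b3'
  clear b1 b2 b3
  interval_cases i <;> interval_cases j <;> interval_cases k <;>
    first
      | exact hne ⟨rfl, rfl, rfl⟩
      | (push_cast at h1 h2 h3; linarith)

/-- No vector of the second coset is a sum of two interior points of the tetrahedron. -/
theorem opt_opp {s : ℝ} (hs1 : 3.16227 < s) (hs2 : s < 3.16228) (i j k : ℤ)
    {p1 p2 p3 q1 q2 q3 : ℝ} (hp : TS p1 p2 p3)
    (hq : TS q1 q2 q3)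
    (h1 : p1 + q1 = 2 * i - (2 * s - 6) * j - (8 - 2 * s) / 3 * k)
    (h2 : p2 + q2 - (8 - 2 * s) / 3 = -((26 - 8 * s) / 3) * i + 2 * j - (2 * s - 6) * k)
    (h3 : p3 + q3 - (2 - (8 - 2 * s) / 3) = -((8 - 2 * s) / 3) * j + 2 * k) : False := by
  obtain ⟨c1, c2, c3, c4⟩ := hp
  obtain ⟨d1, d2, d3, d4⟩ := hq
  obtain ⟨b1, b2, b3⟩ := int_bounds2 hs1 hs2 h1 h2 h3
    (by rw [abs_lt]; constructor <;> linarith) (by rw [abs_lt]; constructor <;> linarith)
    (by rw [abs_lt]; constructor <;> linarith)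
  have b1' : |i| < 2 := by exact_mod_cast b1
  have b2' : |j| < 2 := by exact_mod_cast b2
  have b3' : |k| < 3 := by exact_mod_cast b3
  rw [abs_lt] at b1' b2' b3'
  obtain ⟨l1, r1⟩ := b1'
  obtain ⟨l2, r2⟩ := b2'
  obtain ⟨l3, r3⟩ := b3'
  clear b1 b2 b3
  interval_cases i <;> interval_cases j <;> interval_cases k <;>
    (push_cast at h1 h2 h3; linarith)

end Pool.Agent.Helper84.Dbl
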