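import Pool.Agent.Helper84.Dbl.Fam
import Pool.Agent.Helper84.Dbl.OptAlg
import Pool.Agent.Helper84.Dbl.Lattice
import Pool.Agent.Helper84.Tet.Final
set_option autoImplicit false
namespace Pool.Agent.Helper84.Dbl
open MeasureTheory Filter Topology
open scoped Pointwise ENNReal
open Pool.Agent.Helper84.Tet (E3 IsConvexBody OutD tetrahedron mem_tetrahedron TT vol_TT_le)

/-- Differences of interior points of the tetrahedron. -/
theorem T_diff' {x y z : ℝ} (hx : |x| < 2) (hy : |y| < 2) (hz : |z| < 2)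
    (hs : |x| + |y| + |z| < 4) :
    ∃ p q r : ℝ, TS p q r ∧ TS (p + x) (q + y) (r + z) := by
  have x1 := le_abs_self x
  have x2 := neg_abs_le x
  have y1 := le_abs_self y
  have y2 := neg_abs_le y
  have z1 := le_abs_self z
  have z2 := neg_abs_le z
  obtain ⟨s1, a1, b1, c1⟩ : ∃ s : ℝ, 0 ≤ s ∧ -x - y - z ≤ s ∧ (s = 0 ∨ s = -x - y - z) :=
    ⟨max (-x - y - z) 0, le_max_right _ _, le_max_left _ _, by
      rcases max_choice (-x - y - z) 0 with h | h
      · right; exact h
      · left; exact h⟩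
  obtain ⟨s2, a2, b2, c2⟩ : ∃ s : ℝ, 0 ≤ s ∧ -x + y + z ≤ s ∧ (s = 0 ∨ s = -x + y + z) :=
    ⟨max (-x + y + z) 0, le_max_right _ _, le_max_left _ _, by
      rcases max_choice (-x + y + z) 0 with h | h
      · right; exact h
      · left; exact h⟩
  obtain ⟨s3, a3, b3, c3⟩ : ∃ s : ℝ, 0 ≤ s ∧ x - y + z ≤ s ∧ (s = 0 ∨ s = x - y + z) :=
    ⟨max (x - y + z) 0, le_max_right _ _, le_max_left _ _, by
      rcases max_choice (x - y + z) 0 with h | h
      · right; exact h
      · left; exact h⟩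
  obtain ⟨s4, a4, b4, c4⟩ : ∃ s : ℝ, 0 ≤ s ∧ x + y - z ≤ s ∧ (s = 0 ∨ s = x + y - z) :=
    ⟨max (x + y - z) 0, le_max_right _ _, le_max_left _ _, by
      rcases max_choice (x + y - z) 0 with h | h
      · right; exact h
      · left; exact h⟩
  have hsum : s1 + s2 + s3 + s4 < 4 := by
    rcases c1 with c1 | c1 <;> rcases c2 with c2 | c2 <;> rcases c3 with c3 | c3 <;>
      rcases c4 with c4 | c4 <;> linarith
  refine ⟨(s1 + s2 - s3 - s4) / 4, (s1 - s2 + s3 - s4) / 4, (s1 - s2 - s3 + s4) / 4,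
    ⟨?_, ?_, ?_, ?_⟩, ⟨?_, ?_, ?_, ?_⟩⟩ <;> linarith

theorem isOpen_TS : IsOpen {v : E3 | TS (v 0) (v 1) (v 2)} := by
  unfold TS
  repeat' apply IsOpen.and
  all_goals exact isOpen_lt (by fun_prop) (by fun_prop)

theorem interior_of_TS {v : E3} (h : TS (v 0) (v 1) (v 2)) : v ∈ interior tetrahedron :=
  interior_maximal (fun _ hw => mem_tetrahedron hw.1.le hw.2.1.le hw.2.2.1.le hw.2.2.2.le)
    isOpen_TS h

theorem interior_neg' (K : Set E3) : interior (-K) = -interior K := by
  have h := (Homeomorph.neg E3).preimage_interior K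
  exact h.symm

theorem pack_outD (Λ : Submodule ℤ E3) (v : E3)
    (hp : IsPackingFam (dlFamily tetrahedron v Λ)) (u : E3) (hu : u ∈ Λ) (hu0 : u ≠ 0) :
    OutD (u 0) (u 1) (u 2) := by
  by_contra hcon
  unfold OutD at hcon
  push Not at hcon
  obtain ⟨p, q, r, h1, h2⟩ := T_diff' hcon.1 hcon.2.1 hcon.2.2.1 hcon.2.2.2
  have hne : ((⟨u, hu⟩, true) : Λ × Bool) ≠ ((0 : Λ), true) := by
    intro h
    apply hu0
    have := congrArg (fun i : Λ × Bool => (i.1 : E3)) h
    exact this
  have h := hp hne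
  simp only [dlFamily, if_true, interior_vadd] at h
  rw [Set.disjoint_left] at h
  have a1 : (!₂[p, q, r] : E3) ∈ interior tetrahedron := interior_of_TS (by simpa using h1)
  have a2 : (!₂[p + u 0, q + u 1, r + u 2] : E3) ∈ interior tetrahedron :=
    interior_of_TS (by simpa using h2)
  refine @h (!₂[p + u 0, q + u 1, r + u 2]) ⟨!₂[p, q, r], a1, ?_⟩ ⟨_, a2, ?_⟩
  · show u + !₂[p, q, r] = _
    ext i
    fin_cases i <;> simp [add_comm]
  · show ((0 : Λ) : E3) + _ = _
    simp

theorem pack_outT (Λ : Submodule ℤ E3) (v : E3)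
    (hp : IsPackingFam (dlFamily tetrahedron v Λ)) (u : E3) (hu : u ∈ Λ) :
    OutT 2 (v 0 + u 0) (v 1 + u 1) (v 2 + u 2) := by
  by_contra hcon
  unfold OutT at hcon
  push Not at hcon
  obtain ⟨h1, h2, h3, h4⟩ := hcon
  have hne : ((0 : Λ), true) ≠ ((⟨u, hu⟩, false) : Λ × Bool) := by
    intro h
    have := congrArg (fun i : Λ × Bool => i.2) h
    simp at this
  have h := hp hne
  simp only [dlFamily, if_true, interior_vadd] at h
  rw [Set.disjoint_left] at h
  have a1 : ((1 / 2 : ℝ) • (v + u)) ∈ interior tetrahedron := by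
    apply interior_of_TS
    simp only [PiLp.smul_apply, PiLp.add_apply, smul_eq_mul]
    refine ⟨?_, ?_, ?_, ?_⟩ <;> linarith
  refine @h ((1 / 2 : ℝ) • (v + u)) ⟨_, a1, ?_⟩ ?_
  · show ((0 : Λ) : E3) + _ = _
    simp
  · simp only [Bool.false_eq_true, if_false, interior_vadd, interior_neg']
    refine ⟨v + -((1 / 2 : ℝ) • (v + u)), ⟨-((1 / 2 : ℝ) • (v + u)), ?_, rfl⟩, ?_⟩
    · rw [Set.mem_neg, neg_neg]
      exact a1
    · show u + (v + -((1 / 2 : ℝ) • (v + u))) = _
      have : u + (v + -((1 / 2 : ℝ) • (v + u))) = (v + u) - (1 / 2 : ℝ) • (v + u) := by abel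
      rw [this]
      have h2 : v + u = (1 : ℝ) • (v + u) := (one_smul _ _).symm
      nth_rewrite 1 [h2]
      rw [← sub_smul]
      norm_num

theorem covolume_ge' (Λ : Submodule ℤ E3) [DiscreteTopology Λ] [IsZLattice ℝ Λ] (v : E3)
    (hp : IsPackingFam (dlFamily tetrahedron v Λ)) : d2 ≤ ZLattice.covolume Λ := by
  let f := (EuclideanSpace.equiv (Fin 3) ℝ).symm
  have hf : MeasurePreserving f := PiLp.volume_preserving_toLp (Fin 3)
  rw [← ZLattice.covolume_comap Λ volume volume hf]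
  apply covolume_ge _ _ (fun i => v i)
  · intro u hu
    exact pack_outT Λ v hp (f u) hu
  · intro u hu hu0
    have hu2 : f u ∈ Λ := hu
    exact pack_outD Λ v hp (f u) hu2 (by
      intro h
      apply hu0
      exact f.injective (by rw [h, map_zero]))

theorem tetrahedron_subset_TT : tetrahedron ⊆ {v : E3 | -v 0 - v 1 - v 2 ≤ 1 ∧
    -v 0 + v 1 + v 2 ≤ 1 ∧ v 0 - v 1 + v 2 ≤ 1 ∧ v 0 + v 1 - v 2 ≤ 1} := by
  apply convexHull_min
  · intro v hv
    simp only [Set.mem_insert_iff, Set.mem_singleton_iff] at hv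
    rcases hv with rfl | rfl | rfl | rfl <;> refine ⟨?_, ?_, ?_, ?_⟩ <;> simp <;> norm_num
  · intro x hx y hy a b ha hb hab
    obtain ⟨h1, h2, h3, h4⟩ := hx
    obtain ⟨g1, g2, g3, g4⟩ := hy
    obtain rfl : b = 1 - a := by linarith
    simp only [Set.mem_ofPred_eq, PiLp.add_apply, PiLp.smul_apply, smul_eq_mul]
    refine ⟨?_, ?_, ?_, ?_⟩
    · linarith [mul_le_mul_of_nonneg_left h1 ha, mul_le_mul_of_nonneg_left g1 hb]
    · linarith [mul_le_mul_of_nonneg_left h2 ha, mul_le_mul_of_nonneg_left g2 hb]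
    · linarith [mul_le_mul_of_nonneg_left h3 ha, mul_le_mul_of_nonneg_left g3 hb]
    · linarith [mul_le_mul_of_nonneg_left h4 ha, mul_le_mul_of_nonneg_left g4 hb]

theorem vol_tetrahedron_le : volume tetrahedron ≤ ENNReal.ofReal (8 / 3) := by
  have h := (PiLp.volume_preserving_ofLp (Fin 3)).measure_preimage (s := TT 1) ?_
  · have h2 : tetrahedron ⊆ (WithLp.ofLp : E3 → (Fin 3 → ℝ)) ⁻¹' TT 1 := tetrahedron_subset_TT
    refine (measure_mono h2).trans ?_
    rw [h]
    refine (vol_TT_le zero_le_one).trans ?_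
    simp
  · apply MeasurableSet.nullMeasurableSet
    apply IsClosed.measurableSet
    unfold TT
    repeat' apply IsClosed.and
    all_goals exact isClosed_le (by fun_prop) (by fun_prop)

theorem tetrahedron_bounded : tetrahedron ⊆ Metric.closedBall (0 : E3) 2 := by
  apply convexHull_min _ (convex_closedBall _ _)
  intro v hv
  simp only [Set.mem_insert_iff, Set.mem_singleton_iff] at hv
  rw [mem_closedBall_zero_iff, EuclideanSpace.norm_eq, Fin.sum_univ_three,
    Real.sqrt_le_left (by norm_num)]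
  rcases hv with rfl | rfl | rfl | rfl <;> simp <;> norm_num

theorem fam_bound (Λ : Submodule ℤ E3) (v : E3) (u : Λ) (b : Bool) :
    dlFamily tetrahedron v Λ (u, b) ⊆ Metric.closedBall (u : E3) (‖v‖ + 2) := by
  have hv := norm_nonneg v
  unfold dlFamily
  cases b
  · simp only [Bool.false_eq_true, if_false]
    rintro x ⟨y, ⟨w, hw, rfl⟩, rfl⟩
    have hw2 := tetrahedron_bounded hw
    rw [mem_closedBall_zero_iff, norm_neg] at hw2
    rw [mem_closedBall_iff_norm]
    show ‖(u : E3) + (v + w) - u‖ ≤ _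
    rw [add_sub_cancel_left]
    exact (norm_add_le _ _).trans (by linarith)
  · simp only [if_true]
    rintro x ⟨w, hw, rfl⟩
    have hw2 := tetrahedron_bounded hw
    rw [mem_closedBall_zero_iff] at hw2
    rw [mem_closedBall_iff_norm]
    show ‖(u : E3) + w - u‖ ≤ _
    rw [add_sub_cancel_left]
    linarith

theorem fam_vol (Λ : Submodule ℤ E3) (v : E3) (K : Set E3) (u : Λ) (b : Bool) :
    volume (dlFamily K v Λ (u, b)) = volume K := by
  unfold dlFamily
  cases b
  · simp only [Bool.false_eq_true, if_false]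
    rw [measure_vadd, measure_vadd, Measure.measure_neg]
  · simp only [if_true]
    rw [measure_vadd]

theorem ratio_eq : 2 * (8 / 3) / d2 = (139 + 40 * Real.sqrt 10) / 369 := by
  rw [div_eq_div_iff d2_pos.ne' (by norm_num)]
  unfold d2
  have hs : Real.sqrt 10 * Real.sqrt 10 = 10 := Real.mul_self_sqrt (by norm_num)
  nlinarith

theorem upper : deltaLstar tetrahedron ≤ ENNReal.ofReal ((139 + 40 * Real.sqrt 10) / 369) := by
  unfold deltaLstar
  refine iSup_le fun Λ => iSup_le fun h1 => iSup_le fun h2 => iSup_le fun v => iSup_le fun h3 => ?_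
  refine (fam_density_le Λ _ (fam_bound Λ v)
    (fun u b => (fam_vol Λ v tetrahedron u b).le.trans vol_tetrahedron_le)).trans ?_
  rw [← ratio_eq, ENNReal.ofReal_div_of_pos d2_pos, ENNReal.ofReal_mul (by norm_num),
    ENNReal.ofReal_ofNat]
  exact ENNReal.div_le_div_left (ENNReal.ofReal_le_ofReal (covolume_ge' Λ v h3)) _

theorem tetrahedron_convexBody : IsConvexBody tetrahedron where
  convex := convex_convexHull ℝ _
  isCompact := Set.Finite.isCompact_convexHull (𝕜 := ℝ)
    (Set.Finite.insert _ (Set.Finite.insert _ (Set.Finite.insert _ (Set.finite_singleton _))))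
  interior_nonempty := ⟨0, interior_of_TS (by simp [TS])⟩

theorem mLstar_le_tetrahedron : mLstar ≤ deltaLstar tetrahedron :=
  iInf_le_of_le tetrahedron (iInf_le_of_le tetrahedron_convexBody le_rfl)

end Pool.Agent.Helper84.Dbl
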