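import Pool.Agent.Helper84.Dbl.LowDens
import Pool.Agent.Helper84.Dbl.Upper
set_option autoImplicit false
namespace Pool.Agent.Helper84.Dbl
open MeasureTheory Filter Topology
open scoped Pointwise ENNReal
open Pool.Agent.Helper84.Tet (E3 IsConvexBody OutD tetrahedron mem_tetrahedron TT vol_TT_le
  le_vol_SimpO SimpO vol_preimage_matrix)

theorem sqrt10_lo : 3.16227 < Real.sqrt 10 := by
  apply Real.lt_sqrt_of_sq_lt
  norm_num

theorem sqrt10_hi : Real.sqrt 10 < 3.16228 := by
  rw [Real.sqrt_lt' (by norm_num)]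
  norm_num

/-- The matrix of the optimal lattice. -/
noncomputable def optM : Matrix (Fin 3) (Fin 3) ℝ :=
  !![2, -((26 - 8 * Real.sqrt 10) / 3), 0;
    -(2 * Real.sqrt 10 - 6), 2, -((8 - 2 * Real.sqrt 10) / 3);
    -((8 - 2 * Real.sqrt 10) / 3), -(2 * Real.sqrt 10 - 6), 2]

theorem optM_det : optM.det = d2 := by
  have hs : Real.sqrt 10 * Real.sqrt 10 = 10 := Real.mul_self_sqrt (by norm_num)
  have hs3 : Real.sqrt 10 ^ 3 = 10 * Real.sqrt 10 := by rw [pow_succ, sq, hs]
  have hs2 : Real.sqrt 10 ^ 2 = 10 := by rw [sq, hs]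
  rw [optM, Matrix.det_fin_three]
  simp
  unfold d2
  ring_nf
  rw [hs3]
  ring

/-- The rows of the matrix, as a basis. -/
noncomputable def optB : Module.Basis (Fin 3) ℝ (Fin 3 → ℝ) :=
  basisOfLinearIndependentOfCardEqFinrank
    (Matrix.linearIndependent_rows_of_det_ne_zero (A := optM) (by rw [optM_det]; exact d2_pos.ne'))
    (by simp)

theorem optB_apply (i : Fin 3) : optB i = optM i := by
  unfold optB
  rw [coe_basisOfLinearIndependentOfCardEqFinrank]

/-- The optimal lattice, in coordinates. -/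
noncomputable def optL0 : Submodule ℤ (Fin 3 → ℝ) := Submodule.span ℤ (Set.range optB)

noncomputable instance : DiscreteTopology optL0 :=
  inferInstanceAs (DiscreteTopology (Submodule.span ℤ (Set.range optB)))

noncomputable instance : IsZLattice ℝ optL0 :=
  inferInstanceAs (IsZLattice ℝ (Submodule.span ℤ (Set.range optB)))

theorem covolume_optL0 : ZLattice.covolume optL0 = d2 := by
  let B : Module.Basis (Fin 3) ℤ optL0 := optB.restrictScalars ℤ
  have h := ZLattice.covolume_eq_det optL0 B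
  have h2 : ∀ i, ((B i : optL0) : Fin 3 → ℝ) = optM i := by
    intro i
    rw [← optB_apply]
    exact Module.Basis.restrictScalars_apply ℤ optB i
  have h3 : Matrix.of (fun i => ((B i : optL0) : Fin 3 → ℝ)) = optM := by
    ext i j
    rw [Matrix.of_apply, h2]
  have h4 : ZLattice.covolume optL0 = |(Matrix.of (fun i => ((B i : optL0) : Fin 3 → ℝ))).det| := h
  rw [h4, h3, optM_det, abs_of_pos d2_pos]

theorem mem_optL0 {u : Fin 3 → ℝ} (hu : u ∈ optL0) : ∃ i j k : ℤ,
    u 0 = 2 * i - (2 * Real.sqrt 10 - 6) * j - (8 - 2 * Real.sqrt 10) / 3 * k ∧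
    u 1 = -((26 - 8 * Real.sqrt 10) / 3) * i + 2 * j - (2 * Real.sqrt 10 - 6) * k ∧
    u 2 = -((8 - 2 * Real.sqrt 10) / 3) * j + 2 * k := by
  unfold optL0 at hu
  rw [Submodule.mem_span_range_iff_exists_fun] at hu
  obtain ⟨c, hc⟩ := hu
  refine ⟨c 0, c 1, c 2, ?_, ?_, ?_⟩
  · rw [← hc]
    simp [Fin.sum_univ_three, optB_apply, optM]
    ring
  · rw [← hc]
    simp [Fin.sum_univ_three, optB_apply, optM]
    ring
  · rw [← hc]
    simp [Fin.sum_univ_three, optB_apply, optM]
    ring

/-- The optimal lattice. -/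
noncomputable def optL : Submodule ℤ E3 :=
  ZLattice.comap ℝ optL0 ((EuclideanSpace.equiv (Fin 3) ℝ : E3 ≃L[ℝ] (Fin 3 → ℝ)) :
    E3 →ₗ[ℝ] (Fin 3 → ℝ))

noncomputable instance : DiscreteTopology optL :=
  inferInstanceAs (DiscreteTopology (ZLattice.comap ℝ optL0
    ((EuclideanSpace.equiv (Fin 3) ℝ : E3 ≃L[ℝ] (Fin 3 → ℝ)) : E3 →ₗ[ℝ] (Fin 3 → ℝ))))

noncomputable instance : IsZLattice ℝ optL :=
  inferInstanceAs (IsZLattice ℝ (ZLattice.comap ℝ optL0
    ((EuclideanSpace.equiv (Fin 3) ℝ : E3 ≃L[ℝ] (Fin 3 → ℝ)) : E3 →ₗ[ℝ] (Fin 3 → ℝ))))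

theorem covolume_optL : ZLattice.covolume optL = d2 := by
  have hf : MeasurePreserving (EuclideanSpace.equiv (Fin 3) ℝ : E3 ≃L[ℝ] (Fin 3 → ℝ)) :=
    PiLp.volume_preserving_ofLp (Fin 3)
  have h := ZLattice.covolume_comap optL0 volume volume hf
  rw [covolume_optL0] at h
  exact h

theorem mem_optL {u : E3} (hu : u ∈ optL) : ∃ i j k : ℤ,
    u 0 = 2 * i - (2 * Real.sqrt 10 - 6) * j - (8 - 2 * Real.sqrt 10) / 3 * k ∧
    u 1 = -((26 - 8 * Real.sqrt 10) / 3) * i + 2 * j - (2 * Real.sqrt 10 - 6) * k ∧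
    u 2 = -((8 - 2 * Real.sqrt 10) / 3) * j + 2 * k :=
  mem_optL0 (u := EuclideanSpace.equiv (Fin 3) ℝ u) hu

/-- The centre of the second copy. -/
noncomputable def optV : E3 :=
  !₂[0, (8 - 2 * Real.sqrt 10) / 3, 2 - (8 - 2 * Real.sqrt 10) / 3]

theorem TS_of_interior {v : E3} (h : v ∈ interior tetrahedron) : TS (v 0) (v 1) (v 2) := by
  have key : ∀ l : Fin 3 → ℝ, (∃ t, l t ≠ 0) →
      (∀ w ∈ tetrahedron, l 0 * w 0 + l 1 * w 1 + l 2 * w 2 ≤ 1) →
      l 0 * v 0 + l 1 * v 1 + l 2 * v 2 < 1 := by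
    intro l hl hle
    by_contra hcon
    push Not at hcon
    have hcont : Tendsto (fun η : ℝ => v + η • (!₂[l 0, l 1, l 2] : E3)) (𝓝 0)
        (𝓝 (v + (0 : ℝ) • (!₂[l 0, l 1, l 2] : E3))) :=
      (by fun_prop : Continuous (fun η : ℝ => v + η • (!₂[l 0, l 1, l 2] : E3))).tendsto 0
    rw [zero_smul, add_zero] at hcont
    have h1 : ∀ᶠ η : ℝ in 𝓝 0, v + η • (!₂[l 0, l 1, l 2] : E3) ∈ interior tetrahedron :=
      hcont (isOpen_interior.mem_nhds h)
    obtain ⟨ε, hε, hε2⟩ := Metric.eventually_nhds_iff.1 h1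
    have h2 := hle _ (interior_subset (@hε2 (ε / 2) (by
      rw [Real.dist_eq, sub_zero, abs_of_pos (by linarith)]; linarith)))
    simp at h2
    have h3 : 0 < l 0 ^ 2 + l 1 ^ 2 + l 2 ^ 2 := by
      obtain ⟨t, ht⟩ := hl
      have h4 := sq_nonneg (l 0)
      have h5 := sq_nonneg (l 1)
      have h6 := sq_nonneg (l 2)
      have ht2 : 0 < l t ^ 2 := by positivity
      fin_cases t <;> simp at ht2 <;> linarith
    nlinarith
  refine ⟨?_, ?_, ?_, ?_⟩
  · have := key ![-1, -1, -1] ⟨0, by simp⟩ (fun w hw => by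
      have := (tetrahedron_subset_TT hw).1
      simp
      linarith)
    simp at this
    linarith
  · have := key ![-1, 1, 1] ⟨0, by simp⟩ (fun w hw => by
      have := (tetrahedron_subset_TT hw).2.1
      simp
      linarith)
    simp at this
    linarith
  · have := key ![1, -1, 1] ⟨0, by simp⟩ (fun w hw => by
      have := (tetrahedron_subset_TT hw).2.2.1
      simp
      linarith)
    simp at this
    linarith
  · have := key ![1, 1, -1] ⟨0, by simp⟩ (fun w hw => by
      have := (tetrahedron_subset_TT hw).2.2.2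
      simp
      linarith)
    simp at this
    linarith

/-- No nonzero lattice vector is a difference of interior points. -/
theorem opt_same' {u p q : E3} (hu : u ∈ optL) (hu0 : u ≠ 0) (hp : p ∈ interior tetrahedron)
    (hq : q ∈ interior tetrahedron) (h : p - q = u) : False := by
  obtain ⟨i, j, k, h0, h1, h2⟩ := mem_optL hu
  refine opt_same sqrt10_lo sqrt10_hi i j k ?_ (TS_of_interior hp) (TS_of_interior hq) ?_ ?_ ?_
  · rintro ⟨rfl, rfl, rfl⟩
    apply hu0
    ext t
    fin_cases t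
    · simpa using h0
    · simpa using h1
    · simpa using h2
  · rw [← h0, ← h]; simp
  · rw [← h1, ← h]; simp
  · rw [← h2, ← h]; simp

theorem opt_opp' {u p q : E3} (hu : u ∈ optL) (hp : p ∈ interior tetrahedron)
    (hq : q ∈ interior tetrahedron) (h : p + q = optV + u) : False := by
  obtain ⟨i, j, k, h0, h1, h2⟩ := mem_optL hu
  have e0 : p 0 + q 0 = optV 0 + u 0 := by rw [← PiLp.add_apply, h, PiLp.add_apply]
  have e1 : p 1 + q 1 = optV 1 + u 1 := by rw [← PiLp.add_apply, h, PiLp.add_apply]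
  have e2 : p 2 + q 2 = optV 2 + u 2 := by rw [← PiLp.add_apply, h, PiLp.add_apply]
  have v0 : optV 0 = 0 := by simp [optV]
  have v1 : optV 1 = (8 - 2 * Real.sqrt 10) / 3 := by simp [optV]
  have v2 : optV 2 = 2 - (8 - 2 * Real.sqrt 10) / 3 := by simp [optV]
  refine opt_opp sqrt10_lo sqrt10_hi i j k (TS_of_interior hp) (TS_of_interior hq) ?_ ?_ ?_
  · rw [← h0, e0, v0]; ring
  · rw [← h1, e1, v1]; ring
  · rw [← h2, e2, v2]; ring

theorem opt_packing : IsPackingFam (dlFamily tetrahedron optV optL) := by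
  -- membership in the interiors of the members
  have m1 : ∀ (u : optL) (x : E3), x ∈ interior (dlFamily tetrahedron optV optL (u, true)) →
      x - (u : E3) ∈ interior tetrahedron := by
    intro u x hx
    simp only [dlFamily, if_true, interior_vadd] at hx
    obtain ⟨w, hw, rfl⟩ := hx
    show ((u : E3) + w) - (u : E3) ∈ _
    rwa [add_sub_cancel_left]
  have m2 : ∀ (u : optL) (x : E3), x ∈ interior (dlFamily tetrahedron optV optL (u, false)) →
      (u : E3) + optV - x ∈ interior tetrahedron := by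
    intro u x hx
    simp only [dlFamily, Bool.false_eq_true, if_false, interior_vadd, interior_neg'] at hx
    obtain ⟨y, ⟨w, hw, rfl⟩, rfl⟩ := hx
    rw [Set.mem_neg] at hw
    show (u : E3) + optV - ((u : E3) + (optV + w)) ∈ _
    have : (u : E3) + optV - ((u : E3) + (optV + w)) = -w := by abel
    rw [this]
    exact hw
  have mix : ∀ (u w : optL) (x : E3), x ∈ interior (dlFamily tetrahedron optV optL (u, true)) →
      x ∈ interior (dlFamily tetrahedron optV optL (w, false)) → False := by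
    intro u w x hx hy
    refine opt_opp' (u := (w : E3) - (u : E3)) (optL.sub_mem w.2 u.2) (m1 u x hx) (m2 w x hy) ?_
    abel
  rintro ⟨u, b⟩ ⟨w, c⟩ hne
  show Disjoint _ _
  rw [Set.disjoint_left]
  intro x hx hy
  cases b <;> cases c
  · have h1 := m2 u x hx
    have h2 := m2 w x hy
    have huw : u ≠ w := by rintro rfl; exact hne rfl
    refine opt_same' (u := (u : E3) - (w : E3)) (optL.sub_mem u.2 w.2)
      (sub_ne_zero.2 (fun h => huw (Subtype.ext h))) h1 h2 ?_
    abel
  · exact mix w u x hy hx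
  · exact mix u w x hx hy
  · have h1 := m1 u x hx
    have h2 := m1 w x hy
    have huw : u ≠ w := by rintro rfl; exact hne rfl
    refine opt_same' (u := (w : E3) - (u : E3)) (optL.sub_mem w.2 u.2)
      (sub_ne_zero.2 (fun h => huw (Subtype.ext h.symm))) h1 h2 ?_
    abel

theorem le_vol_tetrahedron : ENNReal.ofReal (8 / 3) ≤ volume tetrahedron := by
  have hset : {x : Fin 3 → ℝ |
      (!![1, -1, -1; -1, 1, -1; -1, -1, 1] : Matrix (Fin 3) (Fin 3) ℝ).mulVec x + ![1, 1, 1] ∈
        SimpO 4} ⊆ {x : Fin 3 → ℝ | TS (x 0) (x 1) (x 2)} := by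
    rintro x hx
    simp only [Set.mem_ofPred_eq, SimpO, Matrix.mulVec, dotProduct, Fin.sum_univ_three,
      Pi.add_apply] at hx
    simp at hx
    obtain ⟨h1, h2, h3, h4⟩ := hx
    refine ⟨?_, ?_, ?_, ?_⟩ <;> linarith
  have hdet : (!![1, -1, -1; -1, 1, -1; -1, -1, 1] : Matrix (Fin 3) (Fin 3) ℝ).det = -4 := by
    rw [Matrix.det_fin_three]
    simp
    norm_num
  have h1 : ENNReal.ofReal (8 / 3) ≤ volume {x : Fin 3 → ℝ | TS (x 0) (x 1) (x 2)} := by
    refine le_trans ?_ (measure_mono hset)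
    rw [vol_preimage_matrix _ _ (by rw [hdet]; norm_num), hdet]
    have h1 := le_vol_SimpO (s := 4) (by norm_num)
    refine le_trans ?_ (mul_le_mul_right h1 _)
    rw [← ENNReal.ofReal_mul (by positivity)]
    apply ENNReal.ofReal_le_ofReal
    rw [abs_inv, abs_neg, abs_of_pos (by norm_num : (0 : ℝ) < 4)]
    norm_num
  have h := (PiLp.volume_preserving_ofLp (Fin 3)).measure_preimage
    (s := {x : Fin 3 → ℝ | TS (x 0) (x 1) (x 2)}) ?_
  · rw [← h] at h1
    refine h1.trans (measure_mono ?_)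
    intro x hx
    exact interior_subset (interior_of_TS hx)
  · apply MeasurableSet.nullMeasurableSet
    apply IsOpen.measurableSet
    unfold TS
    repeat' apply IsOpen.and
    all_goals exact isOpen_lt (by fun_prop) (by fun_prop)

theorem lower : ENNReal.ofReal ((139 + 40 * Real.sqrt 10) / 369) ≤ deltaLstar tetrahedron := by
  have h := le_fam_density optL _ (fam_bound optL optV)
    (fun u b => le_vol_tetrahedron.trans (fam_vol optL optV tetrahedron u b).ge)
  rw [covolume_optL] at h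
  rw [← ratio_eq, ENNReal.ofReal_div_of_pos d2_pos, ENNReal.ofReal_mul (by norm_num),
    ENNReal.ofReal_ofNat]
  refine h.trans ?_
  unfold deltaLstar
  exact le_iSup_of_le optL (le_iSup_of_le inferInstance (le_iSup_of_le inferInstance
    (le_iSup_of_le optV (le_iSup_of_le opt_packing le_rfl))))

/-- The double lattice packing density of the regular tetrahedron. -/
theorem deltaLstar_tetrahedron :
    deltaLstar tetrahedron = ENNReal.ofReal ((139 + 40 * Real.sqrt 10) / 369) :=
  le_antisymm upper lower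

end Pool.Agent.Helper84.Dbl
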