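import Mathlib
set_option autoImplicit false
namespace Pool.Agent.Helper84.Dbl

/-- The volume `(2224 - 640 √10) / 27 = 7.41267...`, the least covolume of the lattice of a double
lattice packing with the tetrahedron of edge length `2 √2`. -/
noncomputable def d2 : ℝ := (2224 - 640 * Real.sqrt 10) / 27

theorem d2_le : d2 ≤ 7413 / 1000 := by
  have h : (316227 / 100000 : ℝ) ≤ Real.sqrt 10 := by
    apply Real.le_sqrt_of_sq_le
    norm_num
  unfold d2
  linarith

theorem d2_pos : 0 < d2 := by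
  have h : Real.sqrt 10 ≤ 31623 / 10000 := by
    rw [Real.sqrt_le_left (by norm_num)]
    norm_num
  unfold d2
  linarith

theorem tau_ge (t : ℝ) (ht : -18 ≤ t) : d2 ≤ (208 - 48 * t + 72 * (t * t) + 4 * (t * t * t)) / 27 := by
  have hs : Real.sqrt 10 * Real.sqrt 10 = 10 := Real.mul_self_sqrt (by norm_num)
  have h : (3 : ℝ) ≤ Real.sqrt 10 := by
    apply Real.le_sqrt_of_sq_le
    norm_num
  unfold d2
  set s := Real.sqrt 10 with hsdef
  have key : (208 - 48 * t + 72 * (t * t) + 4 * (t * t * t)) / 27 - (2224 - 640 * s) / 27 =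
      4 / 27 * ((t - 2 * s + 6) ^ 2 * (t + 4 * s + 6)) := by
    have hs3 : s * s * s = 10 * s := by rw [hs]
    ring_nf
    have e2 : s ^ 2 = 10 := by rw [sq]; exact hs
    have e3 : s ^ 3 = 10 * s := by rw [pow_succ, e2]
    rw [e3, e2]
    ring
  have hpos : 0 ≤ 4 / 27 * ((t - 2 * s + 6) ^ 2 * (t + 4 * s + 6)) := by
    have : 0 ≤ t + 4 * s + 6 := by linarith
    positivity
  linarith

end Pool.Agent.Helper84.Dbl
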