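import Pool.Agent.Helper84.Dbl.MainK0
import Pool.Agent.Helper84.Dbl.MainK1
set_option autoImplicit false
namespace Pool.Agent.Helper84.Dbl

/-- `(x,y,z)` lies outside the open tetrahedron `{-x-y-z < G, -x+y+z < G, x-y+z < G, x+y-z < G}`. -/
def OutT (G x y z : ℝ) : Prop := G ≤ -x - y - z ∨ G ≤ -x + y + z ∨ G ≤ x - y + z ∨ G ≤ x + y - z

/-- The determinant in the main class. -/
def detA (a b c x u y v z w : ℝ) : ℝ :=
  (2+a)*(2+b)*(2+c) - x*y*w - z*u*v - (2+a)*(y*v) - (2+b)*(z*w) - (2+c)*(x*u)

/-- The main cell. -/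
structure MC (a b c x u y v z w : ℝ) : Prop where
  ha : 0 ≤ a
  hb : 0 ≤ b
  hc : 0 ≤ c
  hx : 0 ≤ x
  hu : 0 ≤ u
  hy : 0 ≤ y
  hv : 0 ≤ v
  hz : 0 ≤ z
  hw : 0 ≤ w
  r1 : a + x + z < 2
  r2 : b + u + y < 2
  r3 : c + v + w < 2
  k1 : a ≤ 13 / 25
  k2 : b ≤ 13 / 25
  k3 : c ≤ 13 / 25
  g12 : 0 ≤ a + b - x - u + y + z
  g13 : 0 ≤ a + c + x + v - z - w
  g23 : 0 ≤ b + c + u - y - v + w
  gv : 0 ≤ a + b + c - x - u - y - v - z - w + 2

theorem MC.swap12 {a b c x u y v z w : ℝ} (h : MC a b c x u y v z w) : MC b a c u x z w y v := by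
  obtain ⟨ha, hb, hc, hx, hu, hy, hv, hz, hw, r1, r2, r3, k1, k2, k3, g12, g13, g23, gv⟩ := h
  constructor <;> linarith

theorem MC.swap23 {a b c x u y v z w : ℝ} (h : MC a b c x u y v z w) : MC a c b z w v y x u := by
  obtain ⟨ha, hb, hc, hx, hu, hy, hv, hz, hw, r1, r2, r3, k1, k2, k3, g12, g13, g23, gv⟩ := h
  constructor <;> linarith

theorem detA_swap12 (a b c x u y v z w : ℝ) : detA b a c u x z w y v = detA a b c x u y v z w := by
  unfold detA; ring

theorem detA_swap23 (a b c x u y v z w : ℝ) : detA a c b z w v y x u = detA a b c x u y v z w := by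
  unfold detA; ring

theorem MC.kz {a b c x u y v z w : ℝ} (h : MC a b c x u y v z w)
    (hk : 0 ≤ a + 2 * b + c - x - v - z + w) : d2 ≤ detA a b c x u y v z w := by
  obtain ⟨ha, hb, hc, hx, hu, hy, hv, hz, hw, r1, r2, r3, k1, k2, k3, g12, g13, g23, gv⟩ := h
  exact main_A_0 a b c x u y v z w ha hb hc hx hu hy hv hz hw (by linarith) (by linarith)
    (by linarith) (by linarith) (by linarith) (by linarith) (by linarith) (by linarith)
    (by linarith) (by linarith) (by linarith)

theorem MC.ku {a b c x u y v z w : ℝ} (h : MC a b c x u y v z w)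
    (hk : 0 ≤ a + b - u) : d2 ≤ detA a b c x u y v z w := by
  obtain ⟨ha, hb, hc, hx, hu, hy, hv, hz, hw, r1, r2, r3, k1, k2, k3, g12, g13, g23, gv⟩ := h
  exact main_A_1 a b c x u y v z w ha hb hc hx hu hy hv hz hw (by linarith) (by linarith)
    (by linarith) (by linarith) (by linarith) (by linarith) (by linarith) (by linarith)
    (by linarith) (by linarith) (by linarith)

/-- The twelve critical linear forms are negative when the determinant is less than `d2`. -/
structure Neg (a b c x u y v z w : ℝ) : Prop where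
  nz : a + 2 * b + c - x - v - z + w < 0
  ny : 2 * a + b + c - u - w - y + v < 0
  nx : a + b + 2 * c - z - y - x + u < 0
  nu : a + b + 2 * c + x - z - y - u < 0
  nv : 2 * a + b + c + y - u - w - v < 0
  nw : a + 2 * b + c + z - x - v - w < 0
  nux : a + b - u < 0
  nxx : a + b - x < 0
  nwx : a + c - w < 0
  nzx : a + c - z < 0
  nyx : b + c - y < 0
  nvx : b + c - v < 0

theorem MC.neg {a b c x u y v z w : ℝ} (h : MC a b c x u y v z w)
    (hd : detA a b c x u y v z w < d2) : Neg a b c x u y v z w := by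
  have s12 : detA b a c u x z w y v < d2 := by rw [detA_swap12]; exact hd
  have s23 : detA a c b z w v y x u < d2 := by rw [detA_swap23]; exact hd
  have s123 : detA c a b w z x u v y < d2 := by
    rw [detA_swap12]; exact s23
  have s132 : detA b c a y v w z u x < d2 := by
    rw [detA_swap23]; exact s12
  have s13 : detA c b a v y u x w z < d2 := by
    rw [detA_swap23]; exact s123
  have kz : ∀ {a b c x u y v z w : ℝ}, MC a b c x u y v z w → detA a b c x u y v z w < d2 →
      a + 2 * b + c - x - v - z + w < 0 := by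
    intro a b c x u y v z w h hd
    by_contra hk
    exact absurd (h.kz (by linarith)) (not_le.2 hd)
  have ku : ∀ {a b c x u y v z w : ℝ}, MC a b c x u y v z w → detA a b c x u y v z w < d2 →
      a + b - u < 0 := by
    intro a b c x u y v z w h hd
    by_contra hk
    exact absurd (h.ku (by linarith)) (not_le.2 hd)
  have a1 := kz h hd
  have a2 := kz h.swap12 s12
  have a3 := kz h.swap23 s23
  have a4 := kz h.swap23.swap12 s123
  have a5 := kz h.swap12.swap23 s132
  have a6 := kz h.swap23.swap12.swap23 s13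
  have b1 := ku h hd
  have b2 := ku h.swap12 s12
  have b3 := ku h.swap23 s23
  have b4 := ku h.swap23.swap12 s123
  have b5 := ku h.swap12.swap23 s132
  have b6 := ku h.swap23.swap12.swap23 s13
  constructor <;> linarith

theorem hole1 {a b c x u y v z w p q r G : ℝ} (h : MC a b c x u y v z w)
    (n : Neg a b c x u y v z w) (hG : 2 ≤ G) (up1 : -p - q - r ≤ G) (up2 : -p + q + r ≤ G)
    (up3 : p - q + r ≤ G)
    (up4 : p + q - r ≤ G) (att : G ≤ -p - q - r)
    (hs : OutT G (p + (2 + a) - u - w) (q - x + (2 + b) - v) (r - z - y + (2 + c)))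
    (h23 : OutT G (p - u - w) (q + (2 + b) - v) (r - y + (2 + c)))
    (h13 : OutT G (p + (2 + a) - w) (q - x - v) (r - z + (2 + c)))
    (h12 : OutT G (p + (2 + a) - u) (q - x + (2 + b)) (r - z - y))
    (h1 : OutT G (p + (2 + a)) (q - x) (r - z))
    (h2 : OutT G (p - u) (q + (2 + b)) (r - y))
    (h3 : OutT G (p - w) (q - v) (r + (2 + c))) : False := by
  obtain ⟨ha, hb, hc, hx, hu, hy, hv, hz, hw, r1, r2, r3, k1, k2, k3, g12, g13, g23, gv⟩ := h
  obtain ⟨nz, ny, nx, nu, nv, nw, nux, nxx, nwx, nzx, nyx, nvx⟩ := n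
  have e23 : G ≤ -(p - u - w) + (q + (2 + b) - v) + (r - y + (2 + c)) := by
    rcases h23 with t | t | t | t
    · exfalso; linarith
    · exact t
    · exfalso; linarith
    · exfalso; linarith
  have e13 : G ≤ (p + (2 + a) - w) - (q - x - v) + (r - z + (2 + c)) := by
    rcases h13 with t | t | t | t
    · exfalso; linarith
    · exfalso; linarith
    · exact t
    · exfalso; linarith
  have e12 : G ≤ (p + (2 + a) - u) + (q - x + (2 + b)) - (r - z - y) := by
    rcases h12 with t | t | t | t
    · exfalso; linarith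
    · exfalso; linarith
    · exfalso; linarith
    · exact t
  rcases hs with t | t | t | t
  · linarith
  · rcases h1 with s | s | s | s <;> linarith
  · rcases h2 with s | s | s | s <;> linarith
  · rcases h3 with s | s | s | s <;> linarith

theorem hole2 {a b c x u y v z w p q r G : ℝ} (h : MC a b c x u y v z w)
    (n : Neg a b c x u y v z w) (hG : 2 ≤ G) (up1 : -p - q - r ≤ G) (up2 : -p + q + r ≤ G)
    (up3 : p - q + r ≤ G)
    (up4 : p + q - r ≤ G) (att : G ≤ -p + q + r)
    (hs : OutT G (p - (2 + a) + u + w) (q + x - (2 + b) + v) (r + z + y - (2 + c)))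
    (h13 : OutT G (p + (2 + a) - w) (q - x - v) (r - z + (2 + c)))
    (h12 : OutT G (p + (2 + a) - u) (q - x + (2 + b)) (r - z - y))
    (h1 : OutT G (p + (2 + a)) (q - x) (r - z))
    (h2 : OutT G (p + u) (q - (2 + b)) (r + y))
    (h3 : OutT G (p + w) (q + v) (r - (2 + c)))
    (h23 : OutT G (p + u + w) (q - (2 + b) + v) (r + y - (2 + c))) : False := by
  obtain ⟨ha, hb, hc, hx, hu, hy, hv, hz, hw, r1, r2, r3, k1, k2, k3, g12, g13, g23, gv⟩ := h
  obtain ⟨nz, ny, nx, nu, nv, nw, nux, nxx, nwx, nzx, nyx, nvx⟩ := n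
  have e13 : G ≤ (p + (2 + a) - w) - (q - x - v) + (r - z + (2 + c)) := by
    rcases h13 with t | t | t | t
    · exfalso; linarith
    · exfalso; linarith
    · exact t
    · exfalso; linarith
  have e12 : G ≤ (p + (2 + a) - u) + (q - x + (2 + b)) - (r - z - y) := by
    rcases h12 with t | t | t | t
    · exfalso; linarith
    · exfalso; linarith
    · exfalso; linarith
    · exact t
  have es : G ≤ -(p - (2 + a) + u + w) - (q + x - (2 + b) + v) - (r + z + y - (2 + c)) := by
    rcases hs with t | t | t | t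
    · exact t
    · exfalso; linarith
    · exfalso; linarith
    · exfalso; linarith
  rcases h1 with s | s | s | s
  · linarith
  · linarith
  · rcases h2 with t2 | t2 | t2 | t2
    · linarith
    · linarith
    · rcases h3 with t3 | t3 | t3 | t3
      · linarith
      · linarith
      · linarith
      · rcases h23 with t | t | t | t <;> linarith
    · linarith
  · rcases h3 with t3 | t3 | t3 | t3
    · linarith
    · linarith
    · linarith
    · rcases h2 with t2 | t2 | t2 | t2
      · linarith
      · linarith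
      · rcases h23 with t | t | t | t <;> linarith
      · linarith

end Pool.Agent.Helper84.Dbl
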