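import Pool.Agent.Helper84.Tet.Core
set_option autoImplicit false
namespace Pool.Agent.Helper84.Dbl
open Pool.Agent.Helper84.Tet (det3)

theorem lin_max {A P Q a p q T : ℝ} (hP : 0 ≤ P) (hQ : 0 ≤ Q) (ha : 2 ≤ a) (ha' : a ≤ 63 / 25)
    (hp : 0 ≤ p) (hq : 0 ≤ q) (h : a + p + q ≤ 4) (h1 : 2 * A + 2 * P ≤ T)
    (h2 : 2 * A + 2 * Q ≤ T) (h3 : 63 / 25 * A + 37 / 25 * P ≤ T)
    (h4 : 63 / 25 * A + 37 / 25 * Q ≤ T) : a * A + p * P + q * Q ≤ T := by
  rcases le_total Q P with hQP | hQP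
  · have e1 : q * Q ≤ q * P := mul_le_mul_of_nonneg_left hQP hq
    have e2 : (p + q) * P ≤ (4 - a) * P := mul_le_mul_of_nonneg_right (by linarith) hP
    have e3 := mul_nonneg (sub_nonneg.2 ha') (sub_nonneg.2 h1)
    have e4 := mul_nonneg (sub_nonneg.2 ha) (sub_nonneg.2 h3)
    nlinarith
  · have e1 : p * P ≤ p * Q := mul_le_mul_of_nonneg_left hQP hp
    have e2 : (p + q) * Q ≤ (4 - a) * Q := mul_le_mul_of_nonneg_right (by linarith) hQ
    have e3 := mul_nonneg (sub_nonneg.2 ha') (sub_nonneg.2 h2)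
    have e4 := mul_nonneg (sub_nonneg.2 ha) (sub_nonneg.2 h4)
    nlinarith

theorem perm_le {a b c p q p' r q' r' : ℝ} (ha : 2 ≤ a) (ha' : a ≤ 63 / 25) (hb : 2 ≤ b)
    (hb' : b ≤ 63 / 25) (hc : 2 ≤ c) (hc' : c ≤ 63 / 25) (hp : 0 ≤ p) (hq : 0 ≤ q) (hp' : 0 ≤ p')
    (hr : 0 ≤ r) (hq' : 0 ≤ q') (hr' : 0 ≤ r') (h1 : a + p + q ≤ 4) (h2 : b + p' + r ≤ 4)
    (h3 : c + q' + r' ≤ 4) :
    a * (b * c + r * r') + p * (r * q' + c * p') + q * (p' * r' + b * q') ≤ 2153 / 100 := by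
  have hb0 : 0 ≤ b := by linarith
  have hc0 : 0 ≤ c := by linarith
  have key : ∀ A P Q : ℝ, 0 ≤ P → 0 ≤ Q → 2 * A + 2 * P ≤ 2153 / 100 → 2 * A + 2 * Q ≤ 2153 / 100 →
      63 / 25 * A + 37 / 25 * P ≤ 2153 / 100 → 63 / 25 * A + 37 / 25 * Q ≤ 2153 / 100 →
      b * A + p' * P + r * Q ≤ 2153 / 100 :=
    fun A P Q hP hQ g1 g2 g3 g4 => lin_max hP hQ hb hb' hp' hr h2 g1 g2 g3 g4
  apply lin_max (by positivity) (by positivity) ha ha' hp hq h1
  · have := key (2 * c) (2 * c) (2 * r' + 2 * q') (by positivity) (by positivity)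
      (by linarith) (by linarith) (by linarith) (by linarith)
    linarith
  · have := key (2 * c + 2 * q') (2 * r') (2 * r') (by positivity) (by positivity)
      (by linarith) (by linarith) (by linarith) (by linarith)
    linarith
  · have := key (63 / 25 * c) (37 / 25 * c) (63 / 25 * r' + 37 / 25 * q') (by positivity)
      (by positivity) (by linarith) (by linarith) (by linarith) (by linarith)
    linarith
  · have := key (63 / 25 * c + 37 / 25 * q') (37 / 25 * r') (63 / 25 * r') (by positivity)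
      (by positivity) (by linarith) (by linarith) (by linarith) (by linarith)
    linarith

theorem det_abs_le {m11 m12 m13 m21 m22 m23 m31 m32 m33 : ℝ}
    (d1 : 2 ≤ m11) (d2 : 2 ≤ m22) (d3 : 2 ≤ m33)
    (k1 : m11 ≤ 63 / 25) (k2 : m22 ≤ 63 / 25) (k3 : m33 ≤ 63 / 25)
    (r1 : m11 + |m12| + |m13| ≤ 4) (r2 : m22 + |m21| + |m23| ≤ 4)
    (r3 : m33 + |m31| + |m32| ≤ 4) :
    |det3 m11 m12 m13 m21 m22 m23 m31 m32 m33| ≤ 2153 / 100 := by
  have h := perm_le d1 k1 d2 k2 d3 k3 (abs_nonneg m12) (abs_nonneg m13) (abs_nonneg m21)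
    (abs_nonneg m23) (abs_nonneg m31) (abs_nonneg m32) r1 r2 r3
  refine le_trans ?_ h
  have a1 : |m11| = m11 := abs_of_nonneg (by linarith)
  have a2 : |m22| = m22 := abs_of_nonneg (by linarith)
  have a3 : |m33| = m33 := abs_of_nonneg (by linarith)
  have t : ∀ x y z : ℝ, |x * y * z| = |x| * |y| * |z| := fun x y z => by rw [abs_mul, abs_mul]
  unfold det3
  have h1 := abs_sub (m11 * m22 * m33 + m12 * m23 * m31 + m13 * m21 * m32 - m11 * m23 * m32
    - m22 * m13 * m31) (m33 * m12 * m21)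
  have h2 := abs_sub (m11 * m22 * m33 + m12 * m23 * m31 + m13 * m21 * m32 - m11 * m23 * m32)
    (m22 * m13 * m31)
  have h3 := abs_sub (m11 * m22 * m33 + m12 * m23 * m31 + m13 * m21 * m32) (m11 * m23 * m32)
  have h4 := abs_add_le (m11 * m22 * m33 + m12 * m23 * m31) (m13 * m21 * m32)
  have h5 := abs_add_le (m11 * m22 * m33) (m12 * m23 * m31)
  rw [t] at h1 h2 h3 h4 h5
  rw [t] at h5
  rw [a1, a2, a3] at *
  nlinarith


end Pool.Agent.Helper84.Dbl
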