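import Pool.Agent.Helper84.Tet.Defs
import Pool.Agent.Helper84.Dbl.LeafB_0
import Pool.Agent.Helper84.Dbl.LeafB_1
import Pool.Agent.Helper84.Dbl.LeafB_10
import Pool.Agent.Helper84.Dbl.LeafB_11
import Pool.Agent.Helper84.Dbl.LeafB_12
import Pool.Agent.Helper84.Dbl.LeafB_13
import Pool.Agent.Helper84.Dbl.LeafB_2
import Pool.Agent.Helper84.Dbl.LeafB_3
import Pool.Agent.Helper84.Dbl.LeafB_4
import Pool.Agent.Helper84.Dbl.LeafB_5
import Pool.Agent.Helper84.Dbl.LeafB_6
import Pool.Agent.Helper84.Dbl.LeafB_7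
import Pool.Agent.Helper84.Dbl.LeafB_8
import Pool.Agent.Helper84.Dbl.LeafB_9
set_option autoImplicit false
set_option maxRecDepth 100000
set_option linter.unusedVariables false
namespace Pool.Agent.Helper84.Dbl
open Pool.Agent.Helper84.Tet (OutD Adm)

private theorem h99_class_B_1 (a b c x u y v z w : ℝ)
    (ha : 0 ≤ a) (hb : 0 ≤ b) (hc : 0 ≤ c) (hx : 0 ≤ x) (hu : 0 ≤ u) (hy : 0 ≤ y) (hv : 0 ≤ v) (hz : 0 ≤ z) (hw : 0 ≤ w)
    (r1 : 0 ≤ -a - x - z + 2) (r2 : 0 ≤ -b - u - y + 2) (r3 : 0 ≤ -c - v - w + 2) (k1 : 0 ≤ -a + (13/25)) (k2 : 0 ≤ -b + (13/25)) (k3 : 0 ≤ -c + (13/25))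
    (hadm : Adm OutD (2 + a) x z u (2 + b) y w v (2 + c)) :
    0 ≤ a - w ∨ 0 ≤ c - z ∨ 0 ≤ a + c + x - v - z - w ∨ 0 ≤ a + c - x + v - z - w := by
  rcases hadm.o10m.alts with h | h | h | h | h | h | h | h | h | h | h | h | h | h
  · exact Or.inl (by linarith only [h])
  · exfalso; linarith only [ha, hc, hv, r3, h]
  · exact Or.inr (Or.inl (by linarith only [ha, hc, hv, r1, h]))
  · exact Or.inl (by linarith only [ha, hc, hx, r3, h])
  · exfalso; linarith only [ha, hc, hx, r1, h]
  · exact Or.inr (Or.inl (by linarith only [h]))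
  · exfalso; linarith only [hc, hv, hw, r1, h]
  · exfalso; linarith only [ha, hc, hv, r1, r3, h]
  · exact Or.inl (by linarith only [ha, hc, hx, r1, r3, h])
  · exfalso; linarith only [ha, hc, hx, r1, r3, h]
  · exact Or.inr (Or.inr (Or.inl (by linarith only [h])))
  · exact Or.inr (Or.inl (by linarith only [ha, hc, hv, r1, r3, h]))
  · exact Or.inr (Or.inr (Or.inr (by linarith only [h])))
  · exfalso; linarith only [ha, hx, hz, r3, h]

private theorem h99_class_B_2 (a b c x u y v z w : ℝ)
    (ha : 0 ≤ a) (hb : 0 ≤ b) (hc : 0 ≤ c) (hx : 0 ≤ x) (hu : 0 ≤ u) (hy : 0 ≤ y) (hv : 0 ≤ v) (hz : 0 ≤ z) (hw : 0 ≤ w)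
    (r1 : 0 ≤ -a - x - z + 2) (r2 : 0 ≤ -b - u - y + 2) (r3 : 0 ≤ -c - v - w + 2) (k1 : 0 ≤ -a + (13/25)) (k2 : 0 ≤ -b + (13/25)) (k3 : 0 ≤ -c + (13/25))
    (hadm : Adm OutD (2 + a) x z u (2 + b) y w v (2 + c)) :
    0 ≤ a - u ∨ 0 ≤ b - x ∨ 0 ≤ a + b - x - u - y + z ∨ 0 ≤ a + b - x - u + y - z := by
  rcases hadm.o1m0.alts with h | h | h | h | h | h | h | h | h | h | h | h | h | h
  · exact Or.inl (by linarith only [h])
  · exfalso; linarith only [ha, hb, hy, r2, h]
  · exfalso; linarith only [ha, hb, hz, r1, h]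
  · exact Or.inr (Or.inl (by linarith only [h]))
  · exact Or.inr (Or.inl (by linarith only [ha, hb, hy, r1, h]))
  · exact Or.inl (by linarith only [ha, hb, hz, r2, h])
  · exfalso; linarith only [hb, hu, hy, r1, h]
  · exfalso; linarith only [ha, hb, hy, r1, r2, h]
  · exact Or.inr (Or.inr (Or.inl (by linarith only [h])))
  · exact Or.inr (Or.inl (by linarith only [ha, hb, hy, r1, r2, h]))
  · exact Or.inl (by linarith only [ha, hb, hz, r1, r2, h])
  · exfalso; linarith only [ha, hb, hz, r1, r2, h]
  · exact Or.inr (Or.inr (Or.inr (by linarith only [h])))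
  · exfalso; linarith only [ha, hx, hz, r2, h]

private theorem h99_class_B_3 (a b c x u y v z w : ℝ)
    (ha : 0 ≤ a) (hb : 0 ≤ b) (hc : 0 ≤ c) (hx : 0 ≤ x) (hu : 0 ≤ u) (hy : 0 ≤ y) (hv : 0 ≤ v) (hz : 0 ≤ z) (hw : 0 ≤ w)
    (r1 : 0 ≤ -a - x - z + 2) (r2 : 0 ≤ -b - u - y + 2) (r3 : 0 ≤ -c - v - w + 2) (k1 : 0 ≤ -a + (13/25)) (k2 : 0 ≤ -b + (13/25)) (k3 : 0 ≤ -c + (13/25))
    (hadm : Adm OutD (2 + a) x z u (2 + b) y w v (2 + c)) (d1 : 0 ≤ a - w) (d2 : 0 ≤ a - u) :
    0 ≤ b - v ∨ 0 ≤ c - y ∨ 0 ≤ b + c + u - y - v - w ∨ 0 ≤ b + c - u - y - v + w := by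
  rcases hadm.o01m.alts with h | h | h | h | h | h | h | h | h | h | h | h | h | h
  · exfalso; linarith only [hw, k1, d2, h]
  · exfalso; linarith only [hu, k1, d1, h]
  · exact Or.inl (by linarith only [h])
  · exfalso; linarith only [hb, hc, hw, r3, h]
  · exfalso; linarith only [hb, hc, hu, r2, h]
  · exact Or.inr (Or.inl (by linarith only [h]))
  · exfalso; linarith only [hc, hv, hw, r2, h]
  · exfalso; linarith only [hc, hu, hv, r2, k1, d1, h]
  · exfalso; linarith only [hb, hc, hw, r2, r3, h]
  · exfalso; linarith only [hb, hc, hu, r2, r3, h]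
  · exact Or.inr (Or.inr (Or.inl (by linarith only [h])))
  · exact Or.inr (Or.inr (Or.inr (by linarith only [h])))
  · exfalso; linarith only [hb, hy, hw, r3, k1, d2, h]
  · exfalso; linarith only [hb, hu, hy, r3, h]

private theorem h99_class_B_4 (a b c x u y v z w : ℝ)
    (ha : 0 ≤ a) (hb : 0 ≤ b) (hc : 0 ≤ c) (hx : 0 ≤ x) (hu : 0 ≤ u) (hy : 0 ≤ y) (hv : 0 ≤ v) (hz : 0 ≤ z) (hw : 0 ≤ w)
    (r1 : 0 ≤ -a - x - z + 2) (r2 : 0 ≤ -b - u - y + 2) (r3 : 0 ≤ -c - v - w + 2) (k1 : 0 ≤ -a + (13/25)) (k2 : 0 ≤ -b + (13/25)) (k3 : 0 ≤ -c + (13/25))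
    (hadm : Adm OutD (2 + a) x z u (2 + b) y w v (2 + c)) (d1 : 0 ≤ a - w) :
    0 ≤ b - v ∨ 0 ≤ c - y ∨ 0 ≤ b + c + u - y - v - w ∨ 0 ≤ b + c - u - y - v + w := by
  rcases hadm.o01m.alts with h | h | h | h | h | h | h | h | h | h | h | h | h | h
  · exact Or.inr (Or.inl (by linarith only [hb, hc, hw, r2, h]))
  · exfalso; linarith only [hu, k1, d1, h]
  · exact Or.inl (by linarith only [h])
  · exfalso; linarith only [hb, hc, hw, r3, h]
  · exfalso; linarith only [hb, hc, hu, r2, h]
  · exact Or.inr (Or.inl (by linarith only [h]))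
  · exfalso; linarith only [hc, hv, hw, r2, h]
  · exfalso; linarith only [hc, hu, hv, r2, k1, d1, h]
  · exfalso; linarith only [hb, hc, hw, r2, r3, h]
  · exfalso; linarith only [hb, hc, hu, r2, r3, h]
  · exact Or.inr (Or.inr (Or.inl (by linarith only [h])))
  · exact Or.inr (Or.inr (Or.inr (by linarith only [h])))
  · exact Or.inr (Or.inl (by linarith only [hb, hc, hw, r2, r3, h]))
  · exfalso; linarith only [hb, hu, hy, r3, h]

private theorem h99_class_B_5 (a b c x u y v z w : ℝ)
    (ha : 0 ≤ a) (hb : 0 ≤ b) (hc : 0 ≤ c) (hx : 0 ≤ x) (hu : 0 ≤ u) (hy : 0 ≤ y) (hv : 0 ≤ v) (hz : 0 ≤ z) (hw : 0 ≤ w)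
    (r1 : 0 ≤ -a - x - z + 2) (r2 : 0 ≤ -b - u - y + 2) (r3 : 0 ≤ -c - v - w + 2) (k1 : 0 ≤ -a + (13/25)) (k2 : 0 ≤ -b + (13/25)) (k3 : 0 ≤ -c + (13/25))
    (hadm : Adm OutD (2 + a) x z u (2 + b) y w v (2 + c)) (d2 : 0 ≤ b - x) (d3 : 0 ≤ b + c + u - y - v - w) :
    0 ≤ c - y + z ∨ 0 ≤ a + b + c - x - u - y - v + z + w + 2 := by
  rcases hadm.o1m1.alts with h | h | h | h | h | h | h | h | h | h | h | h | h | h
  · exact Or.inr (by linarith only [hz, k1, k2, d2, d3, h])
  · exfalso; linarith only [ha, hb, hy, hw, r2, h]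
  · exfalso; linarith only [hc, hw, r3, d2, h]
  · exact Or.inr (by linarith only [ha, hb, hc, hz, hw, r2, h])
  · exact Or.inl (by linarith only [h])
  · exfalso; linarith only [hb, hc, hu, hz, r2, h]
  · exact Or.inl (by linarith only [hz, k1, k2, d2, d3, h])
  · exact Or.inl (by linarith only [ha, hb, hc, hz, hw, r1, r2, r3, h])
  · exact Or.inr (by linarith only [h])
  · exact Or.inl (by linarith only [ha, hc, hx, hv, hz, hw, r2, h])
  · exfalso; linarith only [hz, k1, k2, d2, d3, h]
  · exfalso; linarith only [ha, hb, hc, hz, hw, r1, r2, r3, h]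
  · exfalso; linarith only [hx, hv, hz, k1, k2, d3, h]
  · exfalso; linarith only [ha, hc, hx, hv, hz, hw, r2, h]

private theorem h99_class_B_6 (a b c x u y v z w : ℝ)
    (ha : 0 ≤ a) (hb : 0 ≤ b) (hc : 0 ≤ c) (hx : 0 ≤ x) (hu : 0 ≤ u) (hy : 0 ≤ y) (hv : 0 ≤ v) (hz : 0 ≤ z) (hw : 0 ≤ w)
    (r1 : 0 ≤ -a - x - z + 2) (r2 : 0 ≤ -b - u - y + 2) (r3 : 0 ≤ -c - v - w + 2) (k1 : 0 ≤ -a + (13/25)) (k2 : 0 ≤ -b + (13/25)) (k3 : 0 ≤ -c + (13/25))
    (hadm : Adm OutD (2 + a) x z u (2 + b) y w v (2 + c)) (d1 : 0 ≤ a - w) (d2 : 0 ≤ a + b - x - u - y + z) (d3 : 0 ≤ b - v) :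
    0 ≤ b - x + v ∨ 0 ≤ a + b + c - x - u + y + v - z - w + 2 := by
  rcases hadm.o1mm.alts with h | h | h | h | h | h | h | h | h | h | h | h | h | h
  · exact Or.inr (by linarith only [ha, hb, hc, hy, hv, r1, h])
  · exfalso; linarith only [hb, hy, r2, d1, h]
  · exfalso; linarith only [ha, hb, hv, hz, r1, h]
  · exact Or.inl (by linarith only [h])
  · exfalso; linarith only [ha, hc, hx, hy, r1, h]
  · exact Or.inr (by linarith only [hv, k1, k3, d1, d2, h])
  · exfalso; linarith only [hb, hc, hu, hy, hv, hw, r1, h]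
  · exfalso; linarith only [ha, hb, hc, hy, hv, r1, r2, r3, h]
  · exact Or.inl (by linarith only [hb, hc, hu, hy, hv, hw, r1, h])
  · exfalso; linarith only [ha, hc, hx, hy, r1, r2, k2, d1, d3, h]
  · exfalso; linarith only [hu, hv, hw, k1, k3, d2, h]
  · exfalso; linarith only [hv, k1, k3, d1, d2, h]
  · exact Or.inr (by linarith only [h])
  · exact Or.inl (by linarith only [hv, k1, k3, d1, d2, h])

private theorem h99_class_B_7 (a b c x u y v z w : ℝ)
    (ha : 0 ≤ a) (hb : 0 ≤ b) (hc : 0 ≤ c) (hx : 0 ≤ x) (hu : 0 ≤ u) (hy : 0 ≤ y) (hv : 0 ≤ v) (hz : 0 ≤ z) (hw : 0 ≤ w)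
    (r1 : 0 ≤ -a - x - z + 2) (r2 : 0 ≤ -b - u - y + 2) (r3 : 0 ≤ -c - v - w + 2) (k1 : 0 ≤ -a + (13/25)) (k2 : 0 ≤ -b + (13/25)) (k3 : 0 ≤ -c + (13/25))
    (hadm : Adm OutD (2 + a) x z u (2 + b) y w v (2 + c)) (d1 : 0 ≤ a - w) (d2 : 0 ≤ a + b - x - u - y + z) :
    0 ≤ b - x + v ∨ 0 ≤ a + b + c - x - u + y + v - z - w + 2 := by
  rcases hadm.o1mm.alts with h | h | h | h | h | h | h | h | h | h | h | h | h | h
  · exact Or.inr (by linarith only [ha, hb, hc, hy, hv, r1, h])
  · exfalso; linarith only [hb, hy, r2, d1, h]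
  · exfalso; linarith only [ha, hb, hv, hz, r1, h]
  · exact Or.inl (by linarith only [h])
  · exfalso; linarith only [ha, hc, hx, hy, r1, h]
  · exact Or.inr (by linarith only [hv, k1, k3, d1, d2, h])
  · exfalso; linarith only [hb, hc, hu, hy, hv, hw, r1, h]
  · exfalso; linarith only [ha, hb, hc, hy, hv, r1, r2, r3, h]
  · exact Or.inl (by linarith only [hb, hc, hu, hy, hv, hw, r1, h])
  · exact Or.inl (by linarith only [ha, hb, hc, hy, hv, r1, r2, r3, h])
  · exfalso; linarith only [hu, hv, hw, k1, k3, d2, h]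
  · exfalso; linarith only [hv, k1, k3, d1, d2, h]
  · exact Or.inr (by linarith only [h])
  · exact Or.inl (by linarith only [hv, k1, k3, d1, d2, h])

private theorem h99_class_B_8 (a b c x u y v z w : ℝ)
    (ha : 0 ≤ a) (hb : 0 ≤ b) (hc : 0 ≤ c) (hx : 0 ≤ x) (hu : 0 ≤ u) (hy : 0 ≤ y) (hv : 0 ≤ v) (hz : 0 ≤ z) (hw : 0 ≤ w)
    (r1 : 0 ≤ -a - x - z + 2) (r2 : 0 ≤ -b - u - y + 2) (r3 : 0 ≤ -c - v - w + 2) (k1 : 0 ≤ -a + (13/25)) (k2 : 0 ≤ -b + (13/25)) (k3 : 0 ≤ -c + (13/25))
    (hadm : Adm OutD (2 + a) x z u (2 + b) y w v (2 + c)) (d1 : 0 ≤ a - w) (d2 : 0 ≤ a + b - x - u + y - z) :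
    0 ≤ b - v ∨ 0 ≤ c - y ∨ 0 ≤ b + c + u - y - v - w ∨ 0 ≤ b + c - u - y - v + w := by
  rcases hadm.o01m.alts with h | h | h | h | h | h | h | h | h | h | h | h | h | h
  · exfalso; linarith only [hx, hz, hw, r2, k1, d2, h]
  · exfalso; linarith only [hu, k1, d1, h]
  · exact Or.inl (by linarith only [h])
  · exfalso; linarith only [hb, hc, hw, r3, h]
  · exfalso; linarith only [hb, hc, hu, r2, h]
  · exact Or.inr (Or.inl (by linarith only [h]))
  · exfalso; linarith only [hc, hv, hw, r2, h]
  · exfalso; linarith only [hc, hu, hv, r2, k1, d1, h]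
  · exfalso; linarith only [hb, hc, hw, r2, r3, h]
  · exfalso; linarith only [hb, hc, hu, r2, r3, h]
  · exact Or.inr (Or.inr (Or.inl (by linarith only [h])))
  · exact Or.inr (Or.inr (Or.inr (by linarith only [h])))
  · exfalso; linarith only [hx, hz, hw, r3, k1, d2, h]
  · exfalso; linarith only [hb, hu, hy, r3, h]

private theorem h99_class_B_9 (a b c x u y v z w : ℝ)
    (ha : 0 ≤ a) (hb : 0 ≤ b) (hc : 0 ≤ c) (hx : 0 ≤ x) (hu : 0 ≤ u) (hy : 0 ≤ y) (hv : 0 ≤ v) (hz : 0 ≤ z) (hw : 0 ≤ w)
    (r1 : 0 ≤ -a - x - z + 2) (r2 : 0 ≤ -b - u - y + 2) (r3 : 0 ≤ -c - v - w + 2) (k1 : 0 ≤ -a + (13/25)) (k2 : 0 ≤ -b + (13/25)) (k3 : 0 ≤ -c + (13/25))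
    (hadm : Adm OutD (2 + a) x z u (2 + b) y w v (2 + c)) (d1 : 0 ≤ a - w) (d2 : 0 ≤ a + b - x - u + y - z) (d3 : 0 ≤ b - v) :
    0 ≤ a - u + w ∨ 0 ≤ a + b + c - x - u - y - v + z + w + 2 := by
  rcases hadm.o1m1.alts with h | h | h | h | h | h | h | h | h | h | h | h | h | h
  · exact Or.inl (by linarith only [h])
  · exfalso; linarith only [ha, hb, hy, hw, r2, h]
  · exfalso; linarith only [ha, hz, r1, d3, h]
  · exact Or.inr (by linarith only [ha, hb, hc, hz, hw, r2, h])
  · exact Or.inr (by linarith only [hw, k2, k3, d2, d3, h])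
  · exfalso; linarith only [hb, hc, hu, hz, r2, h]
  · exact Or.inl (by linarith only [hw, k2, k3, d2, d3, h])
  · exfalso; linarith only [hw, k2, k3, d2, d3, h]
  · exact Or.inr (by linarith only [h])
  · exfalso; linarith only [hx, hv, hw, k2, k3, d2, h]
  · exfalso; linarith only [hb, hc, hu, hz, r1, r2, k1, d1, d3, h]
  · exfalso; linarith only [ha, hb, hc, hz, hw, r1, r2, r3, h]
  · exact Or.inl (by linarith only [ha, hc, hx, hv, hz, hw, r2, h])
  · exfalso; linarith only [ha, hc, hx, hv, hz, hw, r2, h]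

private theorem h99_class_B_10 (a b c x u y v z w : ℝ)
    (ha : 0 ≤ a) (hb : 0 ≤ b) (hc : 0 ≤ c) (hx : 0 ≤ x) (hu : 0 ≤ u) (hy : 0 ≤ y) (hv : 0 ≤ v) (hz : 0 ≤ z) (hw : 0 ≤ w)
    (r1 : 0 ≤ -a - x - z + 2) (r2 : 0 ≤ -b - u - y + 2) (r3 : 0 ≤ -c - v - w + 2) (k1 : 0 ≤ -a + (13/25)) (k2 : 0 ≤ -b + (13/25)) (k3 : 0 ≤ -c + (13/25))
    (hadm : Adm OutD (2 + a) x z u (2 + b) y w v (2 + c)) (d1 : 0 ≤ c - z) :
    0 ≤ a - u ∨ 0 ≤ b - x ∨ 0 ≤ a + b - x - u - y + z ∨ 0 ≤ a + b - x - u + y - z := by
  rcases hadm.o1m0.alts with h | h | h | h | h | h | h | h | h | h | h | h | h | h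
  · exact Or.inl (by linarith only [h])
  · exfalso; linarith only [ha, hb, hy, r2, h]
  · exfalso; linarith only [ha, hb, hz, r1, h]
  · exact Or.inr (Or.inl (by linarith only [h]))
  · exfalso; linarith only [hy, k3, d1, h]
  · exact Or.inl (by linarith only [ha, hb, hz, r2, h])
  · exfalso; linarith only [hb, hu, hy, r1, h]
  · exfalso; linarith only [ha, hb, hy, r1, r2, h]
  · exact Or.inr (Or.inr (Or.inl (by linarith only [h])))
  · exfalso; linarith only [ha, hx, hy, r2, k3, d1, h]
  · exact Or.inl (by linarith only [ha, hb, hz, r1, r2, h])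
  · exfalso; linarith only [ha, hb, hz, r1, r2, h]
  · exact Or.inr (Or.inr (Or.inr (by linarith only [h])))
  · exfalso; linarith only [ha, hx, hz, r2, h]

private theorem h99_class_B_11 (a b c x u y v z w : ℝ)
    (ha : 0 ≤ a) (hb : 0 ≤ b) (hc : 0 ≤ c) (hx : 0 ≤ x) (hu : 0 ≤ u) (hy : 0 ≤ y) (hv : 0 ≤ v) (hz : 0 ≤ z) (hw : 0 ≤ w)
    (r1 : 0 ≤ -a - x - z + 2) (r2 : 0 ≤ -b - u - y + 2) (r3 : 0 ≤ -c - v - w + 2) (k1 : 0 ≤ -a + (13/25)) (k2 : 0 ≤ -b + (13/25)) (k3 : 0 ≤ -c + (13/25))
    (hadm : Adm OutD (2 + a) x z u (2 + b) y w v (2 + c)) (d2 : 0 ≤ a - u) :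
    0 ≤ b - v ∨ 0 ≤ c - y ∨ 0 ≤ b + c + u - y - v - w ∨ 0 ≤ b + c - u - y - v + w := by
  rcases hadm.o01m.alts with h | h | h | h | h | h | h | h | h | h | h | h | h | h
  · exfalso; linarith only [hw, k1, d2, h]
  · exact Or.inl (by linarith only [hb, hc, hu, r3, h])
  · exact Or.inl (by linarith only [h])
  · exfalso; linarith only [hb, hc, hw, r3, h]
  · exfalso; linarith only [hb, hc, hu, r2, h]
  · exact Or.inr (Or.inl (by linarith only [h]))
  · exfalso; linarith only [hc, hv, hw, r2, h]
  · exact Or.inl (by linarith only [hb, hc, hu, r2, r3, h])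
  · exfalso; linarith only [hb, hc, hw, r2, r3, h]
  · exfalso; linarith only [hb, hc, hu, r2, r3, h]
  · exact Or.inr (Or.inr (Or.inl (by linarith only [h])))
  · exact Or.inr (Or.inr (Or.inr (by linarith only [h])))
  · exfalso; linarith only [hb, hy, hw, r3, k1, d2, h]
  · exfalso; linarith only [hb, hu, hy, r3, h]

private theorem h99_class_B_12 (a b c x u y v z w : ℝ)
    (ha : 0 ≤ a) (hb : 0 ≤ b) (hc : 0 ≤ c) (hx : 0 ≤ x) (hu : 0 ≤ u) (hy : 0 ≤ y) (hv : 0 ≤ v) (hz : 0 ≤ z) (hw : 0 ≤ w)
    (r1 : 0 ≤ -a - x - z + 2) (r2 : 0 ≤ -b - u - y + 2) (r3 : 0 ≤ -c - v - w + 2) (k1 : 0 ≤ -a + (13/25)) (k2 : 0 ≤ -b + (13/25)) (k3 : 0 ≤ -c + (13/25))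
    (hadm : Adm OutD (2 + a) x z u (2 + b) y w v (2 + c)) (d1 : 0 ≤ c - z) (d3 : 0 ≤ b + c - u - y - v + w) :
    0 ≤ b + x - v ∨ 0 ≤ a + b + c + x + u - y - v - z - w + 2 := by
  rcases hadm.o11m.alts with h | h | h | h | h | h | h | h | h | h | h | h | h | h
  · exact Or.inr (by linarith only [hx, k1, k3, d1, d3, h])
  · exfalso; linarith only [ha, hc, hu, hv, r3, h]
  · exact Or.inl (by linarith only [h])
  · exfalso; linarith only [hb, hc, hx, hw, r3, h]
  · exfalso; linarith only [hb, hu, r2, d1, h]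
  · exact Or.inr (by linarith only [ha, hb, hc, hx, hu, r3, h])
  · exact Or.inl (by linarith only [hx, k1, k3, d1, d3, h])
  · exact Or.inl (by linarith only [ha, hb, hc, hx, hu, r1, r2, r3, h])
  · exfalso; linarith only [hx, k1, k3, d1, d3, h]
  · exfalso; linarith only [ha, hb, hc, hx, hu, r1, r2, r3, h]
  · exact Or.inr (by linarith only [h])
  · exact Or.inl (by linarith only [ha, hb, hx, hu, hy, hz, r3, h])
  · exfalso; linarith only [hx, hy, hz, k1, k3, d3, h]
  · exfalso; linarith only [ha, hb, hx, hu, hy, hz, r3, h]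

private theorem h99_class_B_13 (a b c x u y v z w : ℝ)
    (ha : 0 ≤ a) (hb : 0 ≤ b) (hc : 0 ≤ c) (hx : 0 ≤ x) (hu : 0 ≤ u) (hy : 0 ≤ y) (hv : 0 ≤ v) (hz : 0 ≤ z) (hw : 0 ≤ w)
    (r1 : 0 ≤ -a - x - z + 2) (r2 : 0 ≤ -b - u - y + 2) (r3 : 0 ≤ -c - v - w + 2) (k1 : 0 ≤ -a + (13/25)) (k2 : 0 ≤ -b + (13/25)) (k3 : 0 ≤ -c + (13/25))
    (hadm : Adm OutD (2 + a) x z u (2 + b) y w v (2 + c)) :
    0 ≤ b - v ∨ 0 ≤ c - y ∨ 0 ≤ b + c + u - y - v - w ∨ 0 ≤ b + c - u - y - v + w := by
  rcases hadm.o01m.alts with h | h | h | h | h | h | h | h | h | h | h | h | h | h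
  · exact Or.inr (Or.inl (by linarith only [hb, hc, hw, r2, h]))
  · exact Or.inl (by linarith only [hb, hc, hu, r3, h])
  · exact Or.inl (by linarith only [h])
  · exfalso; linarith only [hb, hc, hw, r3, h]
  · exfalso; linarith only [hb, hc, hu, r2, h]
  · exact Or.inr (Or.inl (by linarith only [h]))
  · exfalso; linarith only [hc, hv, hw, r2, h]
  · exact Or.inl (by linarith only [hb, hc, hu, r2, r3, h])
  · exfalso; linarith only [hb, hc, hw, r2, r3, h]
  · exfalso; linarith only [hb, hc, hu, r2, r3, h]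
  · exact Or.inr (Or.inr (Or.inl (by linarith only [h])))
  · exact Or.inr (Or.inr (Or.inr (by linarith only [h])))
  · exact Or.inr (Or.inl (by linarith only [hb, hc, hw, r2, r3, h]))
  · exfalso; linarith only [hb, hu, hy, r3, h]

private theorem h99_class_B_14 (a b c x u y v z w : ℝ)
    (ha : 0 ≤ a) (hb : 0 ≤ b) (hc : 0 ≤ c) (hx : 0 ≤ x) (hu : 0 ≤ u) (hy : 0 ≤ y) (hv : 0 ≤ v) (hz : 0 ≤ z) (hw : 0 ≤ w)
    (r1 : 0 ≤ -a - x - z + 2) (r2 : 0 ≤ -b - u - y + 2) (r3 : 0 ≤ -c - v - w + 2) (k1 : 0 ≤ -a + (13/25)) (k2 : 0 ≤ -b + (13/25)) (k3 : 0 ≤ -c + (13/25))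
    (hadm : Adm OutD (2 + a) x z u (2 + b) y w v (2 + c)) (d1 : 0 ≤ c - z) (d2 : 0 ≤ b - x) (d3 : 0 ≤ b + c + u - y - v - w) :
    0 ≤ c - y + z ∨ 0 ≤ a + b + c - x - u - y - v + z + w + 2 := by
  rcases hadm.o1m1.alts with h | h | h | h | h | h | h | h | h | h | h | h | h | h
  · exact Or.inr (by linarith only [hz, k1, k2, d2, d3, h])
  · exfalso; linarith only [ha, hb, hy, hw, r2, h]
  · exfalso; linarith only [hc, hw, r3, d2, h]
  · exact Or.inr (by linarith only [ha, hb, hc, hz, hw, r2, h])
  · exact Or.inl (by linarith only [h])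
  · exfalso; linarith only [hb, hc, hu, hz, r2, h]
  · exact Or.inl (by linarith only [hz, k1, k2, d2, d3, h])
  · exfalso; linarith only [ha, hb, hy, hw, r2, r3, k3, d1, d2, h]
  · exact Or.inr (by linarith only [h])
  · exact Or.inl (by linarith only [ha, hc, hx, hv, hz, hw, r2, h])
  · exfalso; linarith only [hz, k1, k2, d2, d3, h]
  · exfalso; linarith only [ha, hb, hc, hz, hw, r1, r2, r3, h]
  · exfalso; linarith only [hx, hv, hz, k1, k2, d3, h]
  · exfalso; linarith only [ha, hc, hx, hv, hz, hw, r2, h]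

private theorem h99_class_B_15 (a b c x u y v z w : ℝ)
    (ha : 0 ≤ a) (hb : 0 ≤ b) (hc : 0 ≤ c) (hx : 0 ≤ x) (hu : 0 ≤ u) (hy : 0 ≤ y) (hv : 0 ≤ v) (hz : 0 ≤ z) (hw : 0 ≤ w)
    (r1 : 0 ≤ -a - x - z + 2) (r2 : 0 ≤ -b - u - y + 2) (r3 : 0 ≤ -c - v - w + 2) (k1 : 0 ≤ -a + (13/25)) (k2 : 0 ≤ -b + (13/25)) (k3 : 0 ≤ -c + (13/25))
    (hadm : Adm OutD (2 + a) x z u (2 + b) y w v (2 + c)) (d1 : 0 ≤ c - z) (d2 : 0 ≤ b - x) (d3 : 0 ≤ b + c - u - y - v + w) :
    0 ≤ b + x - v ∨ 0 ≤ a + b + c + x + u - y - v - z - w + 2 := by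
  rcases hadm.o11m.alts with h | h | h | h | h | h | h | h | h | h | h | h | h | h
  · exact Or.inr (by linarith only [hx, k1, k3, d1, d3, h])
  · exfalso; linarith only [ha, hc, hu, hv, r3, h]
  · exact Or.inl (by linarith only [h])
  · exfalso; linarith only [hb, hc, hx, hw, r3, h]
  · exfalso; linarith only [hb, hu, r2, d1, h]
  · exact Or.inr (by linarith only [ha, hb, hc, hx, hu, r3, h])
  · exact Or.inl (by linarith only [hx, k1, k3, d1, d3, h])
  · exfalso; linarith only [ha, hc, hu, hv, r2, r3, k2, d1, d2, h]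
  · exfalso; linarith only [hx, k1, k3, d1, d3, h]
  · exfalso; linarith only [ha, hb, hc, hx, hu, r1, r2, r3, h]
  · exact Or.inr (by linarith only [h])
  · exact Or.inl (by linarith only [ha, hb, hx, hu, hy, hz, r3, h])
  · exfalso; linarith only [hx, hy, hz, k1, k3, d3, h]
  · exfalso; linarith only [ha, hb, hx, hu, hy, hz, r3, h]

private theorem h99_class_B_16 (a b c x u y v z w : ℝ)
    (ha : 0 ≤ a) (hb : 0 ≤ b) (hc : 0 ≤ c) (hx : 0 ≤ x) (hu : 0 ≤ u) (hy : 0 ≤ y) (hv : 0 ≤ v) (hz : 0 ≤ z) (hw : 0 ≤ w)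
    (r1 : 0 ≤ -a - x - z + 2) (r2 : 0 ≤ -b - u - y + 2) (r3 : 0 ≤ -c - v - w + 2) (k1 : 0 ≤ -a + (13/25)) (k2 : 0 ≤ -b + (13/25)) (k3 : 0 ≤ -c + (13/25))
    (hadm : Adm OutD (2 + a) x z u (2 + b) y w v (2 + c)) (d2 : 0 ≤ a + b - x - u + y - z) :
    0 ≤ b - v ∨ 0 ≤ c - y ∨ 0 ≤ b + c + u - y - v - w ∨ 0 ≤ b + c - u - y - v + w := by
  rcases hadm.o01m.alts with h | h | h | h | h | h | h | h | h | h | h | h | h | h
  · exfalso; linarith only [hx, hz, hw, r2, k1, d2, h]
  · exact Or.inl (by linarith only [hb, hc, hu, r3, h])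
  · exact Or.inl (by linarith only [h])
  · exfalso; linarith only [hb, hc, hw, r3, h]
  · exfalso; linarith only [hb, hc, hu, r2, h]
  · exact Or.inr (Or.inl (by linarith only [h]))
  · exfalso; linarith only [hc, hv, hw, r2, h]
  · exact Or.inl (by linarith only [hb, hc, hu, r2, r3, h])
  · exfalso; linarith only [hb, hc, hw, r2, r3, h]
  · exfalso; linarith only [hb, hc, hu, r2, r3, h]
  · exact Or.inr (Or.inr (Or.inl (by linarith only [h])))
  · exact Or.inr (Or.inr (Or.inr (by linarith only [h])))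
  · exfalso; linarith only [hx, hz, hw, r3, k1, d2, h]
  · exfalso; linarith only [hb, hu, hy, r3, h]

private theorem h99_class_B_17 (a b c x u y v z w : ℝ)
    (ha : 0 ≤ a) (hb : 0 ≤ b) (hc : 0 ≤ c) (hx : 0 ≤ x) (hu : 0 ≤ u) (hy : 0 ≤ y) (hv : 0 ≤ v) (hz : 0 ≤ z) (hw : 0 ≤ w)
    (r1 : 0 ≤ -a - x - z + 2) (r2 : 0 ≤ -b - u - y + 2) (r3 : 0 ≤ -c - v - w + 2) (k1 : 0 ≤ -a + (13/25)) (k2 : 0 ≤ -b + (13/25)) (k3 : 0 ≤ -c + (13/25))
    (hadm : Adm OutD (2 + a) x z u (2 + b) y w v (2 + c)) (d2 : 0 ≤ a + b - x - u + y - z) (d3 : 0 ≤ b - v) :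
    0 ≤ a - u + w ∨ 0 ≤ a + b + c - x - u - y - v + z + w + 2 := by
  rcases hadm.o1m1.alts with h | h | h | h | h | h | h | h | h | h | h | h | h | h
  · exact Or.inl (by linarith only [h])
  · exfalso; linarith only [ha, hb, hy, hw, r2, h]
  · exfalso; linarith only [ha, hz, r1, d3, h]
  · exact Or.inr (by linarith only [ha, hb, hc, hz, hw, r2, h])
  · exact Or.inr (by linarith only [hw, k2, k3, d2, d3, h])
  · exfalso; linarith only [hb, hc, hu, hz, r2, h]
  · exact Or.inl (by linarith only [hw, k2, k3, d2, d3, h])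
  · exfalso; linarith only [hw, k2, k3, d2, d3, h]
  · exact Or.inr (by linarith only [h])
  · exfalso; linarith only [hx, hv, hw, k2, k3, d2, h]
  · exact Or.inl (by linarith only [ha, hb, hc, hz, hw, r1, r2, r3, h])
  · exfalso; linarith only [ha, hb, hc, hz, hw, r1, r2, r3, h]
  · exact Or.inl (by linarith only [ha, hc, hx, hv, hz, hw, r2, h])
  · exfalso; linarith only [ha, hc, hx, hv, hz, hw, r2, h]

private theorem h99_class_B_18 (a b c x u y v z w : ℝ)
    (ha : 0 ≤ a) (hb : 0 ≤ b) (hc : 0 ≤ c) (hx : 0 ≤ x) (hu : 0 ≤ u) (hy : 0 ≤ y) (hv : 0 ≤ v) (hz : 0 ≤ z) (hw : 0 ≤ w)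
    (r1 : 0 ≤ -a - x - z + 2) (r2 : 0 ≤ -b - u - y + 2) (r3 : 0 ≤ -c - v - w + 2) (k1 : 0 ≤ -a + (13/25)) (k2 : 0 ≤ -b + (13/25)) (k3 : 0 ≤ -c + (13/25))
    (hadm : Adm OutD (2 + a) x z u (2 + b) y w v (2 + c)) (d1 : 0 ≤ a + c + x - v - z - w) :
    0 ≤ a - u ∨ 0 ≤ b - x ∨ 0 ≤ a + b - x - u - y + z ∨ 0 ≤ a + b - x - u + y - z := by
  rcases hadm.o1m0.alts with h | h | h | h | h | h | h | h | h | h | h | h | h | h
  · exact Or.inl (by linarith only [h])
  · exfalso; linarith only [ha, hb, hy, r2, h]
  · exfalso; linarith only [ha, hb, hz, r1, h]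
  · exact Or.inr (Or.inl (by linarith only [h]))
  · exfalso; linarith only [hy, hv, hw, r1, k3, d1, h]
  · exact Or.inl (by linarith only [ha, hb, hz, r2, h])
  · exfalso; linarith only [hb, hu, hy, r1, h]
  · exfalso; linarith only [ha, hb, hy, r1, r2, h]
  · exact Or.inr (Or.inr (Or.inl (by linarith only [h])))
  · exfalso; linarith only [hy, hv, hw, r2, k3, d1, h]
  · exact Or.inl (by linarith only [ha, hb, hz, r1, r2, h])
  · exfalso; linarith only [ha, hb, hz, r1, r2, h]
  · exact Or.inr (Or.inr (Or.inr (by linarith only [h])))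
  · exfalso; linarith only [ha, hx, hz, r2, h]

private theorem h99_class_B_19 (a b c x u y v z w : ℝ)
    (ha : 0 ≤ a) (hb : 0 ≤ b) (hc : 0 ≤ c) (hx : 0 ≤ x) (hu : 0 ≤ u) (hy : 0 ≤ y) (hv : 0 ≤ v) (hz : 0 ≤ z) (hw : 0 ≤ w)
    (r1 : 0 ≤ -a - x - z + 2) (r2 : 0 ≤ -b - u - y + 2) (r3 : 0 ≤ -c - v - w + 2) (k1 : 0 ≤ -a + (13/25)) (k2 : 0 ≤ -b + (13/25)) (k3 : 0 ≤ -c + (13/25))
    (hadm : Adm OutD (2 + a) x z u (2 + b) y w v (2 + c)) (d1 : 0 ≤ a + c + x - v - z - w) (d2 : 0 ≤ a - u) :
    0 ≤ c + y - z ∨ 0 ≤ a + b + c - x - u + y + v - z - w + 2 := by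
  rcases hadm.o1mm.alts with h | h | h | h | h | h | h | h | h | h | h | h | h | h
  · exact Or.inr (by linarith only [ha, hb, hc, hy, hv, r1, h])
  · exfalso; linarith only [hc, hv, r3, d2, h]
  · exfalso; linarith only [ha, hb, hv, hz, r1, h]
  · exact Or.inr (by linarith only [hy, k1, k2, d1, d2, h])
  · exfalso; linarith only [ha, hc, hx, hy, r1, h]
  · exact Or.inl (by linarith only [h])
  · exfalso; linarith only [hb, hc, hu, hy, hv, hw, r1, h]
  · exfalso; linarith only [ha, hb, hc, hy, hv, r1, r2, r3, h]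
  · exfalso; linarith only [hu, hy, hw, k1, k2, d1, h]
  · exfalso; linarith only [hy, k1, k2, d1, d2, h]
  · exact Or.inl (by linarith only [hb, hc, hu, hy, hv, hw, r1, h])
  · exact Or.inl (by linarith only [ha, hb, hc, hy, hv, r1, r2, r3, h])
  · exact Or.inr (by linarith only [h])
  · exact Or.inl (by linarith only [hy, k1, k2, d1, d2, h])

private theorem h99_class_B_20 (a b c x u y v z w : ℝ)
    (ha : 0 ≤ a) (hb : 0 ≤ b) (hc : 0 ≤ c) (hx : 0 ≤ x) (hu : 0 ≤ u) (hy : 0 ≤ y) (hv : 0 ≤ v) (hz : 0 ≤ z) (hw : 0 ≤ w)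
    (r1 : 0 ≤ -a - x - z + 2) (r2 : 0 ≤ -b - u - y + 2) (r3 : 0 ≤ -c - v - w + 2) (k1 : 0 ≤ -a + (13/25)) (k2 : 0 ≤ -b + (13/25)) (k3 : 0 ≤ -c + (13/25))
    (hadm : Adm OutD (2 + a) x z u (2 + b) y w v (2 + c)) (d1 : 0 ≤ a + c - x + v - z - w) (d2 : 0 ≤ a - u) :
    0 ≤ b - v ∨ 0 ≤ c - y ∨ 0 ≤ b + c + u - y - v - w ∨ 0 ≤ b + c - u - y - v + w := by
  rcases hadm.o01m.alts with h | h | h | h | h | h | h | h | h | h | h | h | h | h
  · exfalso; linarith only [hw, k1, d2, h]
  · exfalso; linarith only [hx, hu, hz, r3, k1, d1, h]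
  · exact Or.inl (by linarith only [h])
  · exfalso; linarith only [hb, hc, hw, r3, h]
  · exfalso; linarith only [hb, hc, hu, r2, h]
  · exact Or.inr (Or.inl (by linarith only [h]))
  · exfalso; linarith only [hc, hv, hw, r2, h]
  · exfalso; linarith only [hx, hu, hz, r2, k1, d1, h]
  · exfalso; linarith only [hb, hc, hw, r2, r3, h]
  · exfalso; linarith only [hb, hc, hu, r2, r3, h]
  · exact Or.inr (Or.inr (Or.inl (by linarith only [h])))
  · exact Or.inr (Or.inr (Or.inr (by linarith only [h])))
  · exfalso; linarith only [hb, hy, hw, r3, k1, d2, h]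
  · exfalso; linarith only [hb, hu, hy, r3, h]

private theorem h99_class_B_21 (a b c x u y v z w : ℝ)
    (ha : 0 ≤ a) (hb : 0 ≤ b) (hc : 0 ≤ c) (hx : 0 ≤ x) (hu : 0 ≤ u) (hy : 0 ≤ y) (hv : 0 ≤ v) (hz : 0 ≤ z) (hw : 0 ≤ w)
    (r1 : 0 ≤ -a - x - z + 2) (r2 : 0 ≤ -b - u - y + 2) (r3 : 0 ≤ -c - v - w + 2) (k1 : 0 ≤ -a + (13/25)) (k2 : 0 ≤ -b + (13/25)) (k3 : 0 ≤ -c + (13/25))
    (hadm : Adm OutD (2 + a) x z u (2 + b) y w v (2 + c)) (d1 : 0 ≤ a + c - x + v - z - w) (d2 : 0 ≤ a - u) (d3 : 0 ≤ c - y) :
    0 ≤ a + u - w ∨ 0 ≤ a + b + c + x + u - y - v - z - w + 2 := by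
  rcases hadm.o11m.alts with h | h | h | h | h | h | h | h | h | h | h | h | h | h
  · exact Or.inl (by linarith only [h])
  · exfalso; linarith only [ha, hc, hu, hv, r3, h]
  · exact Or.inr (by linarith only [hu, k2, k3, d1, d3, h])
  · exfalso; linarith only [hb, hc, hx, hw, r3, h]
  · exfalso; linarith only [ha, hx, r1, d3, h]
  · exact Or.inr (by linarith only [ha, hb, hc, hx, hu, r3, h])
  · exact Or.inl (by linarith only [hu, k2, k3, d1, d3, h])
  · exfalso; linarith only [hu, k2, k3, d1, d3, h]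
  · exfalso; linarith only [hb, hc, hx, hw, r1, r3, k1, d2, d3, h]
  · exfalso; linarith only [ha, hb, hc, hx, hu, r1, r2, r3, h]
  · exact Or.inr (by linarith only [h])
  · exfalso; linarith only [hu, hy, hz, k2, k3, d1, h]
  · exact Or.inl (by linarith only [ha, hb, hx, hu, hy, hz, r3, h])
  · exfalso; linarith only [ha, hb, hx, hu, hy, hz, r3, h]

private theorem h99_class_B_22 (a b c x u y v z w : ℝ)
    (ha : 0 ≤ a) (hb : 0 ≤ b) (hc : 0 ≤ c) (hx : 0 ≤ x) (hu : 0 ≤ u) (hy : 0 ≤ y) (hv : 0 ≤ v) (hz : 0 ≤ z) (hw : 0 ≤ w)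
    (r1 : 0 ≤ -a - x - z + 2) (r2 : 0 ≤ -b - u - y + 2) (r3 : 0 ≤ -c - v - w + 2) (k1 : 0 ≤ -a + (13/25)) (k2 : 0 ≤ -b + (13/25)) (k3 : 0 ≤ -c + (13/25))
    (hadm : Adm OutD (2 + a) x z u (2 + b) y w v (2 + c)) (d1 : 0 ≤ a + c - x + v - z - w) :
    0 ≤ b - v ∨ 0 ≤ c - y ∨ 0 ≤ b + c + u - y - v - w ∨ 0 ≤ b + c - u - y - v + w := by
  rcases hadm.o01m.alts with h | h | h | h | h | h | h | h | h | h | h | h | h | h
  · exact Or.inr (Or.inl (by linarith only [hb, hc, hw, r2, h]))
  · exfalso; linarith only [hx, hu, hz, r3, k1, d1, h]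
  · exact Or.inl (by linarith only [h])
  · exfalso; linarith only [hb, hc, hw, r3, h]
  · exfalso; linarith only [hb, hc, hu, r2, h]
  · exact Or.inr (Or.inl (by linarith only [h]))
  · exfalso; linarith only [hc, hv, hw, r2, h]
  · exfalso; linarith only [hx, hu, hz, r2, k1, d1, h]
  · exfalso; linarith only [hb, hc, hw, r2, r3, h]
  · exfalso; linarith only [hb, hc, hu, r2, r3, h]
  · exact Or.inr (Or.inr (Or.inl (by linarith only [h])))
  · exact Or.inr (Or.inr (Or.inr (by linarith only [h])))
  · exact Or.inr (Or.inl (by linarith only [hb, hc, hw, r2, r3, h]))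
  · exfalso; linarith only [hb, hu, hy, r3, h]

private theorem h99_class_B_23 (a b c x u y v z w : ℝ)
    (ha : 0 ≤ a) (hb : 0 ≤ b) (hc : 0 ≤ c) (hx : 0 ≤ x) (hu : 0 ≤ u) (hy : 0 ≤ y) (hv : 0 ≤ v) (hz : 0 ≤ z) (hw : 0 ≤ w)
    (r1 : 0 ≤ -a - x - z + 2) (r2 : 0 ≤ -b - u - y + 2) (r3 : 0 ≤ -c - v - w + 2) (k1 : 0 ≤ -a + (13/25)) (k2 : 0 ≤ -b + (13/25)) (k3 : 0 ≤ -c + (13/25))
    (hadm : Adm OutD (2 + a) x z u (2 + b) y w v (2 + c)) (d1 : 0 ≤ a + c - x + v - z - w) (d3 : 0 ≤ c - y) :
    0 ≤ a + u - w ∨ 0 ≤ a + b + c + x + u - y - v - z - w + 2 := by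
  rcases hadm.o11m.alts with h | h | h | h | h | h | h | h | h | h | h | h | h | h
  · exact Or.inl (by linarith only [h])
  · exfalso; linarith only [ha, hc, hu, hv, r3, h]
  · exact Or.inr (by linarith only [hu, k2, k3, d1, d3, h])
  · exfalso; linarith only [hb, hc, hx, hw, r3, h]
  · exfalso; linarith only [ha, hx, r1, d3, h]
  · exact Or.inr (by linarith only [ha, hb, hc, hx, hu, r3, h])
  · exact Or.inl (by linarith only [hu, k2, k3, d1, d3, h])
  · exfalso; linarith only [hu, k2, k3, d1, d3, h]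
  · exact Or.inl (by linarith only [ha, hb, hc, hx, hu, r1, r2, r3, h])
  · exfalso; linarith only [ha, hb, hc, hx, hu, r1, r2, r3, h]
  · exact Or.inr (by linarith only [h])
  · exfalso; linarith only [hu, hy, hz, k2, k3, d1, h]
  · exact Or.inl (by linarith only [ha, hb, hx, hu, hy, hz, r3, h])
  · exfalso; linarith only [ha, hb, hx, hu, hy, hz, r3, h]

private theorem h99_class_B_24 (a b c x u y v z w : ℝ)
    (ha : 0 ≤ a) (hb : 0 ≤ b) (hc : 0 ≤ c) (hx : 0 ≤ x) (hu : 0 ≤ u) (hy : 0 ≤ y) (hv : 0 ≤ v) (hz : 0 ≤ z) (hw : 0 ≤ w)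
    (r1 : 0 ≤ -a - x - z + 2) (r2 : 0 ≤ -b - u - y + 2) (r3 : 0 ≤ -c - v - w + 2) (k1 : 0 ≤ -a + (13/25)) (k2 : 0 ≤ -b + (13/25)) (k3 : 0 ≤ -c + (13/25))
    (hadm : Adm OutD (2 + a) x z u (2 + b) y w v (2 + c)) (d1 : 0 ≤ a + c - x + v - z - w) (d2 : 0 ≤ a + b - x - u + y - z) :
    0 ≤ b - v ∨ 0 ≤ c - y ∨ 0 ≤ b + c + u - y - v - w ∨ 0 ≤ b + c - u - y - v + w := by
  rcases hadm.o01m.alts with h | h | h | h | h | h | h | h | h | h | h | h | h | h
  · exfalso; linarith only [hx, hz, hw, r2, k1, d2, h]
  · exfalso; linarith only [hx, hu, hz, r3, k1, d1, h]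
  · exact Or.inl (by linarith only [h])
  · exfalso; linarith only [hb, hc, hw, r3, h]
  · exfalso; linarith only [hb, hc, hu, r2, h]
  · exact Or.inr (Or.inl (by linarith only [h]))
  · exfalso; linarith only [hc, hv, hw, r2, h]
  · exfalso; linarith only [hx, hu, hz, r2, k1, d1, h]
  · exfalso; linarith only [hb, hc, hw, r2, r3, h]
  · exfalso; linarith only [hb, hc, hu, r2, r3, h]
  · exact Or.inr (Or.inr (Or.inl (by linarith only [h])))
  · exact Or.inr (Or.inr (Or.inr (by linarith only [h])))
  · exfalso; linarith only [hx, hz, hw, r3, k1, d2, h]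
  · exfalso; linarith only [hb, hu, hy, r3, h]

theorem class_B (a b c x u y v z w : ℝ)
    (ha : 0 ≤ a) (hb : 0 ≤ b) (hc : 0 ≤ c) (hx : 0 ≤ x) (hu : 0 ≤ u) (hy : 0 ≤ y) (hv : 0 ≤ v) (hz : 0 ≤ z) (hw : 0 ≤ w)
    (r1 : 0 ≤ -a - x - z + 2) (r2 : 0 ≤ -b - u - y + 2) (r3 : 0 ≤ -c - v - w + 2) (k1 : 0 ≤ -a + (13/25)) (k2 : 0 ≤ -b + (13/25)) (k3 : 0 ≤ -c + (13/25))
    (hadm : Adm OutD (2 + a) x z u (2 + b) y w v (2 + c)) :
    d2 ≤ (2+a)*(2+b)*(2+c) + x*y*w + z*u*v - (2+a)*(y*v) - (2+b)*(z*w) - (2+c)*(x*u) := by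
  have n0 := h99_class_B_1 a b c x u y v z w ha hb hc hx hu hy hv hz hw r1 r2 r3 k1 k2 k3 hadm
  rcases n0 with d1 | d1 | d1 | d1
  ·
    have n1 := h99_class_B_2 a b c x u y v z w ha hb hc hx hu hy hv hz hw r1 r2 r3 k1 k2 k3 hadm
    rcases n1 with d2 | d2 | d2 | d2
    ·
      have n2 := h99_class_B_3 a b c x u y v z w ha hb hc hx hu hy hv hz hw r1 r2 r3 k1 k2 k3 hadm d1 d2
      rcases n2 with d3 | d3 | d3 | d3
      · exact le_trans d2_le (leaf_B_0 a b c x u y v z w ha hb hc hx hu hy hv hz hw r1 r2 k1 k2 k3 d1 d2 d3)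
      · have t := leaf_B_0 a c b z w v y x u ha hc hb hz hw hv hy hx hu (by linarith only [r1]) (by linarith only [r3]) (by linarith only [k1]) (by linarith only [k3]) (by linarith only [k2]) (by linarith only [d2]) (by linarith only [d1]) (by linarith only [d3])
        exact le_trans d2_le (by linarith only [t])
      · exact le_trans d2_le (leaf_B_2 a b c x u y v z w ha hb hc hx hu hy hv hz hw r1 r2 r3 k1 k2 k3 d1 d2 d3)
      · have t := leaf_B_2 a c b z w v y x u ha hc hb hz hw hv hy hx hu (by linarith only [r1]) (by linarith only [r3]) (by linarith only [r2]) (by linarith only [k1]) (by linarith only [k3]) (by linarith only [k2]) (by linarith only [d2]) (by linarith only [d1]) (by linarith only [d3])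
        exact le_trans d2_le (by linarith only [t])
    ·
      have n3 := h99_class_B_4 a b c x u y v z w ha hb hc hx hu hy hv hz hw r1 r2 r3 k1 k2 k3 hadm d1
      rcases n3 with d3 | d3 | d3 | d3
      · have t := leaf_B_0 b a c u x z w y v hb ha hc hu hx hz hw hy hv (by linarith only [r2]) (by linarith only [r1]) (by linarith only [k2]) (by linarith only [k1]) (by linarith only [k3]) (by linarith only [d3]) (by linarith only [d2]) (by linarith only [d1])
        exact le_trans d2_le (by linarith only [t])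
      · exact le_trans d2_le (leaf_B_5 a b c x u y v z w ha hb hc hx hu hy hv hz hw r1 r2 r3 k1 k2 k3 d1 d2 d3)
      ·
        have n4 := h99_class_B_5 a b c x u y v z w ha hb hc hx hu hy hv hz hw r1 r2 r3 k1 k2 k3 hadm d2 d3
        rcases n4 with d4 | d4
        · exact le_trans d2_le (leaf_B_6 a b c x u y v z w ha hb hc hx hu hy hv hz hw r1 r2 r3 k1 k2 k3 d1 d2 d3 d4)
        · exact le_trans d2_le (leaf_B_7 a b c x u y v z w ha hb hc hx hu hy hv hz hw r1 r2 r3 k1 k2 k3 d1 d2 d3 d4)
      · exact le_trans d2_le (leaf_B_8 a b c x u y v z w ha hb hc hx hu hy hv hz hw r1 r2 r3 k1 k2 k3 d1 d2 d3)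
    ·
      have n5 := h99_class_B_4 a b c x u y v z w ha hb hc hx hu hy hv hz hw r1 r2 r3 k1 k2 k3 hadm d1
      rcases n5 with d3 | d3 | d3 | d3
      ·
        have n6 := h99_class_B_6 a b c x u y v z w ha hb hc hx hu hy hv hz hw r1 r2 r3 k1 k2 k3 hadm d1 d2 d3
        rcases n6 with d4 | d4
        · exact le_trans d2_le (leaf_B_9 a b c x u y v z w ha hb hc hx hu hy hv hz hw r1 r2 k1 k2 k3 d1 d2 d3 d4)
        · exact le_trans d2_le (leaf_B_10 a b c x u y v z w ha hb hc hx hu hy hv hz hw r1 r2 k1 k2 k3 d1 d2 d3 d4)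
      ·
        have n7 := h99_class_B_7 a b c x u y v z w ha hb hc hx hu hy hv hz hw r1 r2 r3 k1 k2 k3 hadm d1 d2
        rcases n7 with d4 | d4
        · have t := leaf_B_6 c a b w z x u v y hc ha hb hw hz hx hu hv hy (by linarith only [r3]) (by linarith only [r1]) (by linarith only [r2]) (by linarith only [k3]) (by linarith only [k1]) (by linarith only [k2]) (by linarith only [d3]) (by linarith only [d1]) (by linarith only [d2]) (by linarith only [d4])
          exact le_trans d2_le (by linarith only [t])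
        · have t := leaf_B_7 c a b w z x u v y hc ha hb hw hz hx hu hv hy (by linarith only [r3]) (by linarith only [r1]) (by linarith only [r2]) (by linarith only [k3]) (by linarith only [k1]) (by linarith only [k2]) (by linarith only [d3]) (by linarith only [d1]) (by linarith only [d2]) (by linarith only [d4])
          exact le_trans d2_le (by linarith only [t])
      ·
        have n8 := h99_class_B_7 a b c x u y v z w ha hb hc hx hu hy hv hz hw r1 r2 r3 k1 k2 k3 hadm d1 d2
        rcases n8 with d4 | d4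
        · exact le_trans d2_le (leaf_B_13 a b c x u y v z w ha hb hc hx hu hy hv hz hw r1 r2 r3 k1 k2 k3 d1 d2 d3 d4)
        · exact leaf_B_14 a b c x u y v z w ha hb hc hx hu hy hv hz hw r1 r2 r3 k1 k2 k3 d1 d2 d3 d4
      · exact le_trans d2_le (leaf_B_15 a b c x u y v z w ha hb hc hx hu hy hv hz hw r1 r2 r3 k1 k2 k3 d1 d2 d3)
    ·
      have n9 := h99_class_B_8 a b c x u y v z w ha hb hc hx hu hy hv hz hw r1 r2 r3 k1 k2 k3 hadm d1 d2
      rcases n9 with d3 | d3 | d3 | d3
      ·
        have n10 := h99_class_B_9 a b c x u y v z w ha hb hc hx hu hy hv hz hw r1 r2 r3 k1 k2 k3 hadm d1 d2 d3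
        rcases n10 with d4 | d4
        · have t := leaf_B_9 b a c u x z w y v hb ha hc hu hx hz hw hy hv (by linarith only [r2]) (by linarith only [r1]) (by linarith only [k2]) (by linarith only [k1]) (by linarith only [k3]) (by linarith only [d3]) (by linarith only [d2]) (by linarith only [d1]) (by linarith only [d4])
          exact le_trans d2_le (by linarith only [t])
        · have t := leaf_B_10 b a c u x z w y v hb ha hc hu hx hz hw hy hv (by linarith only [r2]) (by linarith only [r1]) (by linarith only [k2]) (by linarith only [k1]) (by linarith only [k3]) (by linarith only [d3]) (by linarith only [d2]) (by linarith only [d1]) (by linarith only [d4])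
          exact le_trans d2_le (by linarith only [t])
      · have t := leaf_B_8 c a b w z x u v y hc ha hb hw hz hx hu hv hy (by linarith only [r3]) (by linarith only [r1]) (by linarith only [r2]) (by linarith only [k3]) (by linarith only [k1]) (by linarith only [k2]) (by linarith only [d3]) (by linarith only [d1]) (by linarith only [d2])
        exact le_trans d2_le (by linarith only [t])
      · exact le_trans d2_le (leaf_B_19 a b c x u y v z w ha hb hc hx hu hy hv hz hw r1 r2 r3 k1 k2 k3 d1 d2 d3)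
      · exact le_trans d2_le (leaf_B_20 a b c x u y v z w ha hb hc hx hu hy hv hz hw r1 r2 r3 k1 k2 k3 d1 d2 d3)
  ·
    have n11 := h99_class_B_10 a b c x u y v z w ha hb hc hx hu hy hv hz hw r1 r2 r3 k1 k2 k3 hadm d1
    rcases n11 with d2 | d2 | d2 | d2
    ·
      have n12 := h99_class_B_11 a b c x u y v z w ha hb hc hx hu hy hv hz hw r1 r2 r3 k1 k2 k3 hadm d2
      rcases n12 with d3 | d3 | d3 | d3
      · have t := leaf_B_5 a c b z w v y x u ha hc hb hz hw hv hy hx hu (by linarith only [r1]) (by linarith only [r3]) (by linarith only [r2]) (by linarith only [k1]) (by linarith only [k3]) (by linarith only [k2]) (by linarith only [d2]) (by linarith only [d1]) (by linarith only [d3])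
        exact le_trans d2_le (by linarith only [t])
      · have t := leaf_B_0 c a b w z x u v y hc ha hb hw hz hx hu hv hy (by linarith only [r3]) (by linarith only [r1]) (by linarith only [k3]) (by linarith only [k1]) (by linarith only [k2]) (by linarith only [d3]) (by linarith only [d1]) (by linarith only [d2])
        exact le_trans d2_le (by linarith only [t])
      · have t := leaf_B_8 a c b z w v y x u ha hc hb hz hw hv hy hx hu (by linarith only [r1]) (by linarith only [r3]) (by linarith only [r2]) (by linarith only [k1]) (by linarith only [k3]) (by linarith only [k2]) (by linarith only [d2]) (by linarith only [d1]) (by linarith only [d3])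
        exact le_trans d2_le (by linarith only [t])
      ·
        have n13 := h99_class_B_12 a b c x u y v z w ha hb hc hx hu hy hv hz hw r1 r2 r3 k1 k2 k3 hadm d1 d3
        rcases n13 with d4 | d4
        · have t := leaf_B_6 a c b z w v y x u ha hc hb hz hw hv hy hx hu (by linarith only [r1]) (by linarith only [r3]) (by linarith only [r2]) (by linarith only [k1]) (by linarith only [k3]) (by linarith only [k2]) (by linarith only [d2]) (by linarith only [d1]) (by linarith only [d3]) (by linarith only [d4])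
          exact le_trans d2_le (by linarith only [t])
        · have t := leaf_B_7 a c b z w v y x u ha hc hb hz hw hv hy hx hu (by linarith only [r1]) (by linarith only [r3]) (by linarith only [r2]) (by linarith only [k1]) (by linarith only [k3]) (by linarith only [k2]) (by linarith only [d2]) (by linarith only [d1]) (by linarith only [d3]) (by linarith only [d4])
          exact le_trans d2_le (by linarith only [t])
    ·
      have n14 := h99_class_B_13 a b c x u y v z w ha hb hc hx hu hy hv hz hw r1 r2 r3 k1 k2 k3 hadm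
      rcases n14 with d3 | d3 | d3 | d3
      · have t := leaf_B_0 b c a y v w z u x hb hc ha hy hv hw hz hu hx (by linarith only [r2]) (by linarith only [r3]) (by linarith only [k2]) (by linarith only [k3]) (by linarith only [k1]) (by linarith only [d2]) (by linarith only [d3]) (by linarith only [d1])
        exact le_trans d2_le (by linarith only [t])
      · have t := leaf_B_0 c b a v y u x w z hc hb ha hv hy hu hx hw hz (by linarith only [r3]) (by linarith only [r2]) (by linarith only [k3]) (by linarith only [k2]) (by linarith only [k1]) (by linarith only [d1]) (by linarith only [d3]) (by linarith only [d2])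
        exact le_trans d2_le (by linarith only [t])
      ·
        have n15 := h99_class_B_14 a b c x u y v z w ha hb hc hx hu hy hv hz hw r1 r2 r3 k1 k2 k3 hadm d1 d2 d3
        rcases n15 with d4 | d4
        · have t := leaf_B_9 b c a y v w z u x hb hc ha hy hv hw hz hu hx (by linarith only [r2]) (by linarith only [r3]) (by linarith only [k2]) (by linarith only [k3]) (by linarith only [k1]) (by linarith only [d2]) (by linarith only [d3]) (by linarith only [d1]) (by linarith only [d4])
          exact le_trans d2_le (by linarith only [t])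
        · have t := leaf_B_10 b c a y v w z u x hb hc ha hy hv hw hz hu hx (by linarith only [r2]) (by linarith only [r3]) (by linarith only [k2]) (by linarith only [k3]) (by linarith only [k1]) (by linarith only [d2]) (by linarith only [d3]) (by linarith only [d1]) (by linarith only [d4])
          exact le_trans d2_le (by linarith only [t])
      ·
        have n16 := h99_class_B_15 a b c x u y v z w ha hb hc hx hu hy hv hz hw r1 r2 r3 k1 k2 k3 hadm d1 d2 d3
        rcases n16 with d4 | d4
        · have t := leaf_B_9 c b a v y u x w z hc hb ha hv hy hu hx hw hz (by linarith only [r3]) (by linarith only [r2]) (by linarith only [k3]) (by linarith only [k2]) (by linarith only [k1]) (by linarith only [d1]) (by linarith only [d3]) (by linarith only [d2]) (by linarith only [d4])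
          exact le_trans d2_le (by linarith only [t])
        · have t := leaf_B_10 c b a v y u x w z hc hb ha hv hy hu hx hw hz (by linarith only [r3]) (by linarith only [r2]) (by linarith only [k3]) (by linarith only [k2]) (by linarith only [k1]) (by linarith only [d1]) (by linarith only [d3]) (by linarith only [d2]) (by linarith only [d4])
          exact le_trans d2_le (by linarith only [t])
    · exact le_trans d2_le (leaf_B_32 a b c x u y v z w ha hb hc hx hu hy hv hz hw r1 r2 r3 k1 k2 k3 d1 d2)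
    ·
      have n17 := h99_class_B_16 a b c x u y v z w ha hb hc hx hu hy hv hz hw r1 r2 r3 k1 k2 k3 hadm d2
      rcases n17 with d3 | d3 | d3 | d3
      ·
        have n18 := h99_class_B_17 a b c x u y v z w ha hb hc hx hu hy hv hz hw r1 r2 r3 k1 k2 k3 hadm d2 d3
        rcases n18 with d4 | d4
        · have t := leaf_B_6 c b a v y u x w z hc hb ha hv hy hu hx hw hz (by linarith only [r3]) (by linarith only [r2]) (by linarith only [r1]) (by linarith only [k3]) (by linarith only [k2]) (by linarith only [k1]) (by linarith only [d1]) (by linarith only [d3]) (by linarith only [d2]) (by linarith only [d4])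
          exact le_trans d2_le (by linarith only [t])
        · have t := leaf_B_7 c b a v y u x w z hc hb ha hv hy hu hx hw hz (by linarith only [r3]) (by linarith only [r2]) (by linarith only [r1]) (by linarith only [k3]) (by linarith only [k2]) (by linarith only [k1]) (by linarith only [d1]) (by linarith only [d3]) (by linarith only [d2]) (by linarith only [d4])
          exact le_trans d2_le (by linarith only [t])
      · have t := leaf_B_2 c b a v y u x w z hc hb ha hv hy hu hx hw hz (by linarith only [r3]) (by linarith only [r2]) (by linarith only [r1]) (by linarith only [k3]) (by linarith only [k2]) (by linarith only [k1]) (by linarith only [d1]) (by linarith only [d3]) (by linarith only [d2])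
        exact le_trans d2_le (by linarith only [t])
      · have t := leaf_B_19 c b a v y u x w z hc hb ha hv hy hu hx hw hz (by linarith only [r3]) (by linarith only [r2]) (by linarith only [r1]) (by linarith only [k3]) (by linarith only [k2]) (by linarith only [k1]) (by linarith only [d1]) (by linarith only [d3]) (by linarith only [d2])
        exact le_trans d2_le (by linarith only [t])
      ·
        have n19 := h99_class_B_12 a b c x u y v z w ha hb hc hx hu hy hv hz hw r1 r2 r3 k1 k2 k3 hadm d1 d3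
        rcases n19 with d4 | d4
        · have t := leaf_B_13 c b a v y u x w z hc hb ha hv hy hu hx hw hz (by linarith only [r3]) (by linarith only [r2]) (by linarith only [r1]) (by linarith only [k3]) (by linarith only [k2]) (by linarith only [k1]) (by linarith only [d1]) (by linarith only [d3]) (by linarith only [d2]) (by linarith only [d4])
          exact le_trans d2_le (by linarith only [t])
        · have t := leaf_B_14 c b a v y u x w z hc hb ha hv hy hu hx hw hz (by linarith only [r3]) (by linarith only [r2]) (by linarith only [r1]) (by linarith only [k3]) (by linarith only [k2]) (by linarith only [k1]) (by linarith only [d1]) (by linarith only [d3]) (by linarith only [d2]) (by linarith only [d4])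
          exact by linarith only [t]
  ·
    have n20 := h99_class_B_18 a b c x u y v z w ha hb hc hx hu hy hv hz hw r1 r2 r3 k1 k2 k3 hadm d1
    rcases n20 with d2 | d2 | d2 | d2
    ·
      have n21 := h99_class_B_19 a b c x u y v z w ha hb hc hx hu hy hv hz hw r1 r2 r3 k1 k2 k3 hadm d1 d2
      rcases n21 with d3 | d3
      ·
        have n22 := h99_class_B_11 a b c x u y v z w ha hb hc hx hu hy hv hz hw r1 r2 r3 k1 k2 k3 hadm d2
        rcases n22 with d4 | d4 | d4 | d4
        · have t := leaf_B_6 b a c u x z w y v hb ha hc hu hx hz hw hy hv (by linarith only [r2]) (by linarith only [r1]) (by linarith only [r3]) (by linarith only [k2]) (by linarith only [k1]) (by linarith only [k3]) (by linarith only [d4]) (by linarith only [d2]) (by linarith only [d1]) (by linarith only [d3])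
          exact le_trans d2_le (by linarith only [t])
        · have t := leaf_B_9 a c b z w v y x u ha hc hb hz hw hv hy hx hu (by linarith only [r1]) (by linarith only [r3]) (by linarith only [k1]) (by linarith only [k3]) (by linarith only [k2]) (by linarith only [d2]) (by linarith only [d1]) (by linarith only [d4]) (by linarith only [d3])
          exact le_trans d2_le (by linarith only [t])
        · have t := leaf_B_15 a c b z w v y x u ha hc hb hz hw hv hy hx hu (by linarith only [r1]) (by linarith only [r3]) (by linarith only [r2]) (by linarith only [k1]) (by linarith only [k3]) (by linarith only [k2]) (by linarith only [d2]) (by linarith only [d1]) (by linarith only [d4])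
          exact le_trans d2_le (by linarith only [t])
        · have t := leaf_B_13 a c b z w v y x u ha hc hb hz hw hv hy hx hu (by linarith only [r1]) (by linarith only [r3]) (by linarith only [r2]) (by linarith only [k1]) (by linarith only [k3]) (by linarith only [k2]) (by linarith only [d2]) (by linarith only [d1]) (by linarith only [d4]) (by linarith only [d3])
          exact le_trans d2_le (by linarith only [t])
      ·
        have n23 := h99_class_B_11 a b c x u y v z w ha hb hc hx hu hy hv hz hw r1 r2 r3 k1 k2 k3 hadm d2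
        rcases n23 with d4 | d4 | d4 | d4
        · have t := leaf_B_7 b a c u x z w y v hb ha hc hu hx hz hw hy hv (by linarith only [r2]) (by linarith only [r1]) (by linarith only [r3]) (by linarith only [k2]) (by linarith only [k1]) (by linarith only [k3]) (by linarith only [d4]) (by linarith only [d2]) (by linarith only [d1]) (by linarith only [d3])
          exact le_trans d2_le (by linarith only [t])
        · have t := leaf_B_10 a c b z w v y x u ha hc hb hz hw hv hy hx hu (by linarith only [r1]) (by linarith only [r3]) (by linarith only [k1]) (by linarith only [k3]) (by linarith only [k2]) (by linarith only [d2]) (by linarith only [d1]) (by linarith only [d4]) (by linarith only [d3])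
          exact le_trans d2_le (by linarith only [t])
        · have t := leaf_B_15 a c b z w v y x u ha hc hb hz hw hv hy hx hu (by linarith only [r1]) (by linarith only [r3]) (by linarith only [r2]) (by linarith only [k1]) (by linarith only [k3]) (by linarith only [k2]) (by linarith only [d2]) (by linarith only [d1]) (by linarith only [d4])
          exact le_trans d2_le (by linarith only [t])
        · have t := leaf_B_14 a c b z w v y x u ha hc hb hz hw hv hy hx hu (by linarith only [r1]) (by linarith only [r3]) (by linarith only [r2]) (by linarith only [k1]) (by linarith only [k3]) (by linarith only [k2]) (by linarith only [d2]) (by linarith only [d1]) (by linarith only [d4]) (by linarith only [d3])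
          exact by linarith only [t]
    · have t := leaf_B_32 a c b z w v y x u ha hc hb hz hw hv hy hx hu (by linarith only [r1]) (by linarith only [r3]) (by linarith only [r2]) (by linarith only [k1]) (by linarith only [k3]) (by linarith only [k2]) (by linarith only [d2]) (by linarith only [d1])
      exact le_trans d2_le (by linarith only [t])
    · exact le_trans d2_le (leaf_B_48 a b c x u y v z w ha hb hc hx hu hy hv hz hw r1 r2 r3 k1 k2 k3 d1 d2)
    ·
      have n24 := h99_class_B_16 a b c x u y v z w ha hb hc hx hu hy hv hz hw r1 r2 r3 k1 k2 k3 hadm d2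
      rcases n24 with d3 | d3 | d3 | d3
      ·
        have n25 := h99_class_B_17 a b c x u y v z w ha hb hc hx hu hy hv hz hw r1 r2 r3 k1 k2 k3 hadm d2 d3
        rcases n25 with d4 | d4
        · have t := leaf_B_13 b a c u x z w y v hb ha hc hu hx hz hw hy hv (by linarith only [r2]) (by linarith only [r1]) (by linarith only [r3]) (by linarith only [k2]) (by linarith only [k1]) (by linarith only [k3]) (by linarith only [d3]) (by linarith only [d2]) (by linarith only [d1]) (by linarith only [d4])
          exact le_trans d2_le (by linarith only [t])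
        · have t := leaf_B_14 b a c u x z w y v hb ha hc hu hx hz hw hy hv (by linarith only [r2]) (by linarith only [r1]) (by linarith only [r3]) (by linarith only [k2]) (by linarith only [k1]) (by linarith only [k3]) (by linarith only [d3]) (by linarith only [d2]) (by linarith only [d1]) (by linarith only [d4])
          exact by linarith only [t]
      · have t := leaf_B_20 c a b w z x u v y hc ha hb hw hz hx hu hv hy (by linarith only [r3]) (by linarith only [r1]) (by linarith only [r2]) (by linarith only [k3]) (by linarith only [k1]) (by linarith only [k2]) (by linarith only [d3]) (by linarith only [d1]) (by linarith only [d2])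
        exact le_trans d2_le (by linarith only [t])
      · have t := leaf_B_48 b a c u x z w y v hb ha hc hu hx hz hw hy hv (by linarith only [r2]) (by linarith only [r1]) (by linarith only [r3]) (by linarith only [k2]) (by linarith only [k1]) (by linarith only [k3]) (by linarith only [d3]) (by linarith only [d2])
        exact le_trans d2_le (by linarith only [t])
      · exact le_trans d2_le (leaf_B_53 a b c x u y v z w ha hb hc hx hu hy hv hz hw r1 r2 r3 k1 k2 k3 d1 d2 d3)
  ·
    have n26 := h99_class_B_2 a b c x u y v z w ha hb hc hx hu hy hv hz hw r1 r2 r3 k1 k2 k3 hadm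
    rcases n26 with d2 | d2 | d2 | d2
    ·
      have n27 := h99_class_B_20 a b c x u y v z w ha hb hc hx hu hy hv hz hw r1 r2 r3 k1 k2 k3 hadm d1 d2
      rcases n27 with d3 | d3 | d3 | d3
      · have t := leaf_B_8 b a c u x z w y v hb ha hc hu hx hz hw hy hv (by linarith only [r2]) (by linarith only [r1]) (by linarith only [r3]) (by linarith only [k2]) (by linarith only [k1]) (by linarith only [k3]) (by linarith only [d3]) (by linarith only [d2]) (by linarith only [d1])
        exact le_trans d2_le (by linarith only [t])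
      ·
        have n28 := h99_class_B_21 a b c x u y v z w ha hb hc hx hu hy hv hz hw r1 r2 r3 k1 k2 k3 hadm d1 d2 d3
        rcases n28 with d4 | d4
        · have t := leaf_B_9 c a b w z x u v y hc ha hb hw hz hx hu hv hy (by linarith only [r3]) (by linarith only [r1]) (by linarith only [k3]) (by linarith only [k1]) (by linarith only [k2]) (by linarith only [d3]) (by linarith only [d1]) (by linarith only [d2]) (by linarith only [d4])
          exact le_trans d2_le (by linarith only [t])
        · have t := leaf_B_10 c a b w z x u v y hc ha hb hw hz hx hu hv hy (by linarith only [r3]) (by linarith only [r1]) (by linarith only [k3]) (by linarith only [k1]) (by linarith only [k2]) (by linarith only [d3]) (by linarith only [d1]) (by linarith only [d2]) (by linarith only [d4])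
          exact le_trans d2_le (by linarith only [t])
      · have t := leaf_B_20 a c b z w v y x u ha hc hb hz hw hv hy hx hu (by linarith only [r1]) (by linarith only [r3]) (by linarith only [r2]) (by linarith only [k1]) (by linarith only [k3]) (by linarith only [k2]) (by linarith only [d2]) (by linarith only [d1]) (by linarith only [d3])
        exact le_trans d2_le (by linarith only [t])
      · have t := leaf_B_19 a c b z w v y x u ha hc hb hz hw hv hy hx hu (by linarith only [r1]) (by linarith only [r3]) (by linarith only [r2]) (by linarith only [k1]) (by linarith only [k3]) (by linarith only [k2]) (by linarith only [d2]) (by linarith only [d1]) (by linarith only [d3])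
        exact le_trans d2_le (by linarith only [t])
    ·
      have n29 := h99_class_B_22 a b c x u y v z w ha hb hc hx hu hy hv hz hw r1 r2 r3 k1 k2 k3 hadm d1
      rcases n29 with d3 | d3 | d3 | d3
      · have t := leaf_B_2 b c a y v w z u x hb hc ha hy hv hw hz hu hx (by linarith only [r2]) (by linarith only [r3]) (by linarith only [r1]) (by linarith only [k2]) (by linarith only [k3]) (by linarith only [k1]) (by linarith only [d2]) (by linarith only [d3]) (by linarith only [d1])
        exact le_trans d2_le (by linarith only [t])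
      ·
        have n30 := h99_class_B_23 a b c x u y v z w ha hb hc hx hu hy hv hz hw r1 r2 r3 k1 k2 k3 hadm d1 d3
        rcases n30 with d4 | d4
        · have t := leaf_B_6 b c a y v w z u x hb hc ha hy hv hw hz hu hx (by linarith only [r2]) (by linarith only [r3]) (by linarith only [r1]) (by linarith only [k2]) (by linarith only [k3]) (by linarith only [k1]) (by linarith only [d2]) (by linarith only [d3]) (by linarith only [d1]) (by linarith only [d4])
          exact le_trans d2_le (by linarith only [t])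
        · have t := leaf_B_7 b c a y v w z u x hb hc ha hy hv hw hz hu hx (by linarith only [r2]) (by linarith only [r3]) (by linarith only [r1]) (by linarith only [k2]) (by linarith only [k3]) (by linarith only [k1]) (by linarith only [d2]) (by linarith only [d3]) (by linarith only [d1]) (by linarith only [d4])
          exact le_trans d2_le (by linarith only [t])
      ·
        have n31 := h99_class_B_5 a b c x u y v z w ha hb hc hx hu hy hv hz hw r1 r2 r3 k1 k2 k3 hadm d2 d3
        rcases n31 with d4 | d4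
        · have t := leaf_B_13 b c a y v w z u x hb hc ha hy hv hw hz hu hx (by linarith only [r2]) (by linarith only [r3]) (by linarith only [r1]) (by linarith only [k2]) (by linarith only [k3]) (by linarith only [k1]) (by linarith only [d2]) (by linarith only [d3]) (by linarith only [d1]) (by linarith only [d4])
          exact le_trans d2_le (by linarith only [t])
        · have t := leaf_B_14 b c a y v w z u x hb hc ha hy hv hw hz hu hx (by linarith only [r2]) (by linarith only [r3]) (by linarith only [r1]) (by linarith only [k2]) (by linarith only [k3]) (by linarith only [k1]) (by linarith only [d2]) (by linarith only [d3]) (by linarith only [d1]) (by linarith only [d4])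
          exact by linarith only [t]
      · have t := leaf_B_19 b c a y v w z u x hb hc ha hy hv hw hz hu hx (by linarith only [r2]) (by linarith only [r3]) (by linarith only [r1]) (by linarith only [k2]) (by linarith only [k3]) (by linarith only [k1]) (by linarith only [d2]) (by linarith only [d3]) (by linarith only [d1])
        exact le_trans d2_le (by linarith only [t])
    ·
      have n32 := h99_class_B_22 a b c x u y v z w ha hb hc hx hu hy hv hz hw r1 r2 r3 k1 k2 k3 hadm d1
      rcases n32 with d3 | d3 | d3 | d3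
      · have t := leaf_B_20 b a c u x z w y v hb ha hc hu hx hz hw hy hv (by linarith only [r2]) (by linarith only [r1]) (by linarith only [r3]) (by linarith only [k2]) (by linarith only [k1]) (by linarith only [k3]) (by linarith only [d3]) (by linarith only [d2]) (by linarith only [d1])
        exact le_trans d2_le (by linarith only [t])
      ·
        have n33 := h99_class_B_23 a b c x u y v z w ha hb hc hx hu hy hv hz hw r1 r2 r3 k1 k2 k3 hadm d1 d3
        rcases n33 with d4 | d4
        · have t := leaf_B_13 c a b w z x u v y hc ha hb hw hz hx hu hv hy (by linarith only [r3]) (by linarith only [r1]) (by linarith only [r2]) (by linarith only [k3]) (by linarith only [k1]) (by linarith only [k2]) (by linarith only [d3]) (by linarith only [d1]) (by linarith only [d2]) (by linarith only [d4])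
          exact le_trans d2_le (by linarith only [t])
        · have t := leaf_B_14 c a b w z x u v y hc ha hb hw hz hx hu hv hy (by linarith only [r3]) (by linarith only [r1]) (by linarith only [r2]) (by linarith only [k3]) (by linarith only [k1]) (by linarith only [k2]) (by linarith only [d3]) (by linarith only [d1]) (by linarith only [d2]) (by linarith only [d4])
          exact by linarith only [t]
      · have t := leaf_B_53 a c b z w v y x u ha hc hb hz hw hv hy hx hu (by linarith only [r1]) (by linarith only [r3]) (by linarith only [r2]) (by linarith only [k1]) (by linarith only [k3]) (by linarith only [k2]) (by linarith only [d2]) (by linarith only [d1]) (by linarith only [d3])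
        exact le_trans d2_le (by linarith only [t])
      · have t := leaf_B_48 c a b w z x u v y hc ha hb hw hz hx hu hv hy (by linarith only [r3]) (by linarith only [r1]) (by linarith only [r2]) (by linarith only [k3]) (by linarith only [k1]) (by linarith only [k2]) (by linarith only [d3]) (by linarith only [d1])
        exact le_trans d2_le (by linarith only [t])
    ·
      have n34 := h99_class_B_24 a b c x u y v z w ha hb hc hx hu hy hv hz hw r1 r2 r3 k1 k2 k3 hadm d1 d2
      rcases n34 with d3 | d3 | d3 | d3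
      · have t := leaf_B_15 b a c u x z w y v hb ha hc hu hx hz hw hy hv (by linarith only [r2]) (by linarith only [r1]) (by linarith only [r3]) (by linarith only [k2]) (by linarith only [k1]) (by linarith only [k3]) (by linarith only [d3]) (by linarith only [d2]) (by linarith only [d1])
        exact le_trans d2_le (by linarith only [t])
      · have t := leaf_B_15 c a b w z x u v y hc ha hb hw hz hx hu hv hy (by linarith only [r3]) (by linarith only [r1]) (by linarith only [r2]) (by linarith only [k3]) (by linarith only [k1]) (by linarith only [k2]) (by linarith only [d3]) (by linarith only [d1]) (by linarith only [d2])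
        exact le_trans d2_le (by linarith only [t])
      · have t := leaf_B_48 b a c u x z w y v hb ha hc hu hx hz hw hy hv (by linarith only [r2]) (by linarith only [r1]) (by linarith only [r3]) (by linarith only [k2]) (by linarith only [k1]) (by linarith only [k3]) (by linarith only [d3]) (by linarith only [d2])
        exact le_trans d2_le (by linarith only [t])
      · have t := leaf_B_48 c a b w z x u v y hc ha hb hw hz hx hu hv hy (by linarith only [r3]) (by linarith only [r1]) (by linarith only [r2]) (by linarith only [k3]) (by linarith only [k1]) (by linarith only [k2]) (by linarith only [d3]) (by linarith only [d1])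
        exact le_trans d2_le (by linarith only [t])

end Pool.Agent.Helper84.Dbl
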