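import Pool.Agent.Helper84.Dbl.TreeA
import Pool.Agent.Helper84.Dbl.TreeB
import Pool.Agent.Helper84.Dbl.TreeC
import Pool.Agent.Helper84.Dbl.TreeD1
import Pool.Agent.Helper84.Dbl.TreeD2
import Pool.Agent.Helper84.Dbl.TreeE
import Pool.Agent.Helper84.Dbl.Hole
import Pool.Agent.Helper84.Dbl.Perm
set_option autoImplicit false
namespace Pool.Agent.Helper84.Dbl
open Pool.Agent.Helper84.Tet (OutD Adm det3)

theorem outD_neg {x y z : ℝ} (h : OutD x y z) : OutD (-x) (-y) (-z) := by
  unfold OutD at *
  simpa only [abs_neg] using h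

theorem outD_swap12 {x y z : ℝ} (h : OutD x y z) : OutD y x z := by
  unfold OutD at *
  rw [add_comm |y| |x|]
  tauto

theorem outD_swap23 {x y z : ℝ} (h : OutD x y z) : OutD x z y := by
  unfold OutD at *
  rw [add_right_comm |x| |z| |y|]
  tauto

theorem outD_flip1 {x y z : ℝ} (h : OutD x y z) : OutD (-x) y z := by
  unfold OutD at *
  simpa only [abs_neg] using h

theorem outD_flip2 {x y z : ℝ} (h : OutD x y z) : OutD x (-y) z := by
  unfold OutD at *
  simpa only [abs_neg] using h

theorem outD_flip3 {x y z : ℝ} (h : OutD x y z) : OutD x y (-z) := by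
  unfold OutD at *
  simpa only [abs_neg] using h

/-- The matrices (with a point `(p,q,r)` of the second coset) to which the volume estimate
applies. -/
structure Hyp (p q r G m11 m12 m13 m21 m22 m23 m31 m32 m33 : ℝ) : Prop where
  d1 : 2 ≤ m11
  d2 : 2 ≤ m22
  d3 : 2 ≤ m33
  k1 : m11 ≤ 63 / 25
  k2 : m22 ≤ 63 / 25
  k3 : m33 ≤ 63 / 25
  r1 : m11 + |m12| + |m13| < 4
  r2 : m22 + |m21| + |m23| < 4
  r3 : m33 + |m31| + |m32| < 4
  adm : Adm OutD m11 m12 m13 m21 m22 m23 m31 m32 m33
  hG : 2 ≤ G
  u1 : -p - q - r ≤ G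
  u2 : -p + q + r ≤ G
  u3 : p - q + r ≤ G
  u4 : p + q - r ≤ G
  out : ∀ i j k : ℤ, OutT G (p + i * m11 + j * m21 + k * m31) (q + i * m12 + j * m22 + k * m32)
    (r + i * m13 + j * m23 + k * m33)

theorem Hyp.swap12 {p q r G m11 m12 m13 m21 m22 m23 m31 m32 m33 : ℝ}
    (h : Hyp p q r G m11 m12 m13 m21 m22 m23 m31 m32 m33) :
    Hyp q p r G m22 m21 m23 m12 m11 m13 m32 m31 m33 := by
  refine ⟨h.d2, h.d1, h.d3, h.k2, h.k1, h.k3, (by have := h.r2; linarith), (by have := h.r1; linarith), (by have := h.r3; linarith),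
    ⟨(by convert outD_swap12 h.adm.o010 using 1 <;> ring),
      (by convert outD_swap12 h.adm.o100 using 1 <;> ring),
      (by convert outD_swap12 h.adm.o001 using 1 <;> ring),
      (by convert outD_swap12 h.adm.o110 using 1 <;> ring),
      (by convert outD_swap12 (outD_neg h.adm.o1m0) using 1 <;> ring),
      (by convert outD_swap12 h.adm.o011 using 1 <;> ring),
      (by convert outD_swap12 h.adm.o01m using 1 <;> ring),
      (by convert outD_swap12 h.adm.o101 using 1 <;> ring),
      (by convert outD_swap12 h.adm.o10m using 1 <;> ring),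
      (by convert outD_swap12 h.adm.o111 using 1 <;> ring),
      (by convert outD_swap12 h.adm.o11m using 1 <;> ring),
      (by convert outD_swap12 (outD_neg h.adm.o1mm) using 1 <;> ring),
      (by convert outD_swap12 (outD_neg h.adm.o1m1) using 1 <;> ring)⟩,
    h.hG, by have := h.u1; have := h.u2; have := h.u3; have := h.u4; linarith,
    by have := h.u1; have := h.u2; have := h.u3; have := h.u4; linarith,
    by have := h.u1; have := h.u2; have := h.u3; have := h.u4; linarith,
    by have := h.u1; have := h.u2; have := h.u3; have := h.u4; linarith, ?_⟩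
  intro i j k
  have t := h.out j i k
  unfold OutT at t ⊢
  push_cast at t
  rcases t with t | t | t | t
  · left; linarith
  · right; right; left; linarith
  · right; left; linarith
  · right; right; right; linarith

theorem Hyp.swap23 {p q r G m11 m12 m13 m21 m22 m23 m31 m32 m33 : ℝ}
    (h : Hyp p q r G m11 m12 m13 m21 m22 m23 m31 m32 m33) :
    Hyp p r q G m11 m13 m12 m31 m33 m32 m21 m23 m22 := by
  refine ⟨h.d1, h.d3, h.d2, h.k1, h.k3, h.k2, (by have := h.r1; linarith), (by have := h.r3; linarith), (by have := h.r2; linarith),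
    ⟨(by convert outD_swap23 h.adm.o100 using 1 <;> ring),
      (by convert outD_swap23 h.adm.o001 using 1 <;> ring),
      (by convert outD_swap23 h.adm.o010 using 1 <;> ring),
      (by convert outD_swap23 h.adm.o101 using 1 <;> ring),
      (by convert outD_swap23 h.adm.o10m using 1 <;> ring),
      (by convert outD_swap23 h.adm.o110 using 1 <;> ring),
      (by convert outD_swap23 h.adm.o1m0 using 1 <;> ring),
      (by convert outD_swap23 h.adm.o011 using 1 <;> ring),
      (by convert outD_swap23 (outD_neg h.adm.o01m) using 1 <;> ring),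
      (by convert outD_swap23 h.adm.o111 using 1 <;> ring),
      (by convert outD_swap23 h.adm.o1m1 using 1 <;> ring),
      (by convert outD_swap23 h.adm.o11m using 1 <;> ring),
      (by convert outD_swap23 h.adm.o1mm using 1 <;> ring)⟩,
    h.hG, by have := h.u1; have := h.u2; have := h.u3; have := h.u4; linarith,
    by have := h.u1; have := h.u2; have := h.u3; have := h.u4; linarith,
    by have := h.u1; have := h.u2; have := h.u3; have := h.u4; linarith,
    by have := h.u1; have := h.u2; have := h.u3; have := h.u4; linarith, ?_⟩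
  intro i j k
  have t := h.out i k j
  unfold OutT at t ⊢
  push_cast at t
  rcases t with t | t | t | t
  · left; linarith
  · right; left; linarith
  · right; right; right; linarith
  · right; right; left; linarith

theorem Hyp.flip1 {p q r G m11 m12 m13 m21 m22 m23 m31 m32 m33 : ℝ}
    (h : Hyp p q r G m11 m12 m13 m21 m22 m23 m31 m32 m33) :
    Hyp p (-q) (-r) G m11 (-m12) (-m13) (-m21) m22 m23 (-m31) m32 m33 := by
  refine ⟨h.d1, h.d2, h.d3, h.k1, h.k2, h.k3, (by have := h.r1; simpa only [abs_neg] using this), (by have := h.r2; simpa only [abs_neg] using this), (by have := h.r3; simpa only [abs_neg] using this),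
    ⟨(by convert outD_flip1 (outD_neg h.adm.o100) using 1 <;> ring),
      (by convert outD_flip1 h.adm.o010 using 1 <;> ring),
      (by convert outD_flip1 h.adm.o001 using 1 <;> ring),
      (by convert outD_flip1 (outD_neg h.adm.o1m0) using 1 <;> ring),
      (by convert outD_flip1 (outD_neg h.adm.o110) using 1 <;> ring),
      (by convert outD_flip1 (outD_neg h.adm.o10m) using 1 <;> ring),
      (by convert outD_flip1 (outD_neg h.adm.o101) using 1 <;> ring),
      (by convert outD_flip1 h.adm.o011 using 1 <;> ring),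
      (by convert outD_flip1 h.adm.o01m using 1 <;> ring),
      (by convert outD_flip1 (outD_neg h.adm.o1mm) using 1 <;> ring),
      (by convert outD_flip1 (outD_neg h.adm.o1m1) using 1 <;> ring),
      (by convert outD_flip1 (outD_neg h.adm.o11m) using 1 <;> ring),
      (by convert outD_flip1 (outD_neg h.adm.o111) using 1 <;> ring)⟩,
    h.hG, by have := h.u1; have := h.u2; have := h.u3; have := h.u4; linarith,
    by have := h.u1; have := h.u2; have := h.u3; have := h.u4; linarith,
    by have := h.u1; have := h.u2; have := h.u3; have := h.u4; linarith,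
    by have := h.u1; have := h.u2; have := h.u3; have := h.u4; linarith, ?_⟩
  intro i j k
  have t := h.out i (-j) (-k)
  unfold OutT at t ⊢
  push_cast at t
  rcases t with t | t | t | t
  · right; left; linarith
  · left; linarith
  · right; right; right; linarith
  · right; right; left; linarith

theorem Hyp.flip2 {p q r G m11 m12 m13 m21 m22 m23 m31 m32 m33 : ℝ}
    (h : Hyp p q r G m11 m12 m13 m21 m22 m23 m31 m32 m33) :
    Hyp (-p) q (-r) G m11 (-m12) m13 (-m21) m22 (-m23) m31 (-m32) m33 := by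
  refine ⟨h.d1, h.d2, h.d3, h.k1, h.k2, h.k3, (by have := h.r1; simpa only [abs_neg] using this), (by have := h.r2; simpa only [abs_neg] using this), (by have := h.r3; simpa only [abs_neg] using this),
    ⟨(by convert outD_flip2 h.adm.o100 using 1 <;> ring),
      (by convert outD_flip2 (outD_neg h.adm.o010) using 1 <;> ring),
      (by convert outD_flip2 h.adm.o001 using 1 <;> ring),
      (by convert outD_flip2 h.adm.o1m0 using 1 <;> ring),
      (by convert outD_flip2 h.adm.o110 using 1 <;> ring),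
      (by convert outD_flip2 h.adm.o101 using 1 <;> ring),
      (by convert outD_flip2 h.adm.o10m using 1 <;> ring),
      (by convert outD_flip2 (outD_neg h.adm.o01m) using 1 <;> ring),
      (by convert outD_flip2 (outD_neg h.adm.o011) using 1 <;> ring),
      (by convert outD_flip2 h.adm.o1m1 using 1 <;> ring),
      (by convert outD_flip2 h.adm.o1mm using 1 <;> ring),
      (by convert outD_flip2 h.adm.o111 using 1 <;> ring),
      (by convert outD_flip2 h.adm.o11m using 1 <;> ring)⟩,
    h.hG, by have := h.u1; have := h.u2; have := h.u3; have := h.u4; linarith,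
    by have := h.u1; have := h.u2; have := h.u3; have := h.u4; linarith,
    by have := h.u1; have := h.u2; have := h.u3; have := h.u4; linarith,
    by have := h.u1; have := h.u2; have := h.u3; have := h.u4; linarith, ?_⟩
  intro i j k
  have t := h.out (-i) j (-k)
  unfold OutT at t ⊢
  push_cast at t
  rcases t with t | t | t | t
  · right; right; left; linarith
  · right; right; right; linarith
  · left; linarith
  · right; left; linarith

theorem Hyp.flip3 {p q r G m11 m12 m13 m21 m22 m23 m31 m32 m33 : ℝ}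
    (h : Hyp p q r G m11 m12 m13 m21 m22 m23 m31 m32 m33) :
    Hyp (-p) (-q) r G m11 m12 (-m13) m21 m22 (-m23) (-m31) (-m32) m33 := by
  refine ⟨h.d1, h.d2, h.d3, h.k1, h.k2, h.k3, (by have := h.r1; simpa only [abs_neg] using this), (by have := h.r2; simpa only [abs_neg] using this), (by have := h.r3; simpa only [abs_neg] using this),
    ⟨(by convert outD_flip3 h.adm.o100 using 1 <;> ring),
      (by convert outD_flip3 h.adm.o010 using 1 <;> ring),
      (by convert outD_flip3 (outD_neg h.adm.o001) using 1 <;> ring),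
      (by convert outD_flip3 h.adm.o110 using 1 <;> ring),
      (by convert outD_flip3 h.adm.o1m0 using 1 <;> ring),
      (by convert outD_flip3 h.adm.o10m using 1 <;> ring),
      (by convert outD_flip3 h.adm.o101 using 1 <;> ring),
      (by convert outD_flip3 h.adm.o01m using 1 <;> ring),
      (by convert outD_flip3 h.adm.o011 using 1 <;> ring),
      (by convert outD_flip3 h.adm.o11m using 1 <;> ring),
      (by convert outD_flip3 h.adm.o111 using 1 <;> ring),
      (by convert outD_flip3 h.adm.o1mm using 1 <;> ring),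
      (by convert outD_flip3 h.adm.o1m1 using 1 <;> ring)⟩,
    h.hG, by have := h.u1; have := h.u2; have := h.u3; have := h.u4; linarith,
    by have := h.u1; have := h.u2; have := h.u3; have := h.u4; linarith,
    by have := h.u1; have := h.u2; have := h.u3; have := h.u4; linarith,
    by have := h.u1; have := h.u2; have := h.u3; have := h.u4; linarith, ?_⟩
  intro i j k
  have t := h.out (-i) (-j) k
  unfold OutT at t ⊢
  push_cast at t
  rcases t with t | t | t | t
  · right; right; right; linarith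
  · right; right; left; linarith
  · right; left; linarith
  · left; linarith

theorem hypA {p q r G a b c x u y v z w : ℝ}
    (h : Hyp p q r G (2 + a) (-x) (-z) (-u) (2 + b) (-y) (-w) (-v) (2 + c))
    (hx : 0 ≤ x) (hu : 0 ≤ u) (hy : 0 ≤ y) (hv : 0 ≤ v) (hz : 0 ≤ z) (hw : 0 ≤ w) :
    d2 ≤ detA a b c x u y v z w := by
  have r1 := h.r1
  have r2 := h.r2
  have r3 := h.r3
  have e1 := h.d1
  have e2 := h.d2
  have e3 := h.d3
  have k1 := h.k1
  have k2 := h.k2
  have k3 := h.k3
  simp only [abs_neg, abs_of_nonneg hx, abs_of_nonneg hu, abs_of_nonneg hy, abs_of_nonneg hv,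
    abs_of_nonneg hz, abs_of_nonneg hw] at r1 r2 r3
  have key := class_A a b c x u y v z w (by linarith only [e1]) (by linarith only [e2])
    (by linarith only [e3]) hx hu hy hv hz hw (by linarith only [r1]) (by linarith only [r2])
    (by linarith only [r3]) (by linarith only [k1]) (by linarith only [k2])
    (by linarith only [k3]) h.adm
  rcases key with key | ⟨g12, g13, g23, gv⟩
  · exact key
  by_contra hd
  push Not at hd
  have mc : MC a b c x u y v z w :=
    ⟨by linarith only [e1], by linarith only [e2], by linarith only [e3], hx, hu, hy, hv, hz, hw,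
      by linarith only [r1], by linarith only [r2], by linarith only [r3],
      by linarith only [k1], by linarith only [k2], by linarith only [k3], g12, g13, g23, gv⟩
  have o := h.out
  have c1 : ∀ {a b c x u y v z w p q r : ℝ}, MC a b c x u y v z w →
      detA a b c x u y v z w < d2 → -p - q - r ≤ G → -p + q + r ≤ G → p - q + r ≤ G →
      p + q - r ≤ G → G ≤ -p - q - r →
      (∀ i j k : ℤ, OutT G (p + i * (2 + a) + j * (-u) + k * (-w))
        (q + i * (-x) + j * (2 + b) + k * (-v)) (r + i * (-z) + j * (-y) + k * (2 + c))) →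
      False := by
    intro a b c x u y v z w p q r mc hd u1 u2 u3 u4 att o
    refine hole1 mc (mc.neg hd) h.hG u1 u2 u3 u4 att ?_ ?_ ?_ ?_ ?_ ?_ ?_
    · have t := o 1 1 1; push_cast at t; convert t using 1 <;> ring
    · have t := o 0 1 1; push_cast at t; convert t using 1 <;> ring
    · have t := o 1 0 1; push_cast at t; convert t using 1 <;> ring
    · have t := o 1 1 0; push_cast at t; convert t using 1 <;> ring
    · have t := o 1 0 0; push_cast at t; convert t using 1 <;> ring
    · have t := o 0 1 0; push_cast at t; convert t using 1 <;> ring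
    · have t := o 0 0 1; push_cast at t; convert t using 1 <;> ring
  have c2 : ∀ {a b c x u y v z w p q r : ℝ}, MC a b c x u y v z w →
      detA a b c x u y v z w < d2 → -p - q - r ≤ G → -p + q + r ≤ G → p - q + r ≤ G →
      p + q - r ≤ G → G ≤ -p + q + r →
      (∀ i j k : ℤ, OutT G (p + i * (2 + a) + j * (-u) + k * (-w))
        (q + i * (-x) + j * (2 + b) + k * (-v)) (r + i * (-z) + j * (-y) + k * (2 + c))) →
      False := by
    intro a b c x u y v z w p q r mc hd u1 u2 u3 u4 att o
    refine hole2 mc (mc.neg hd) h.hG u1 u2 u3 u4 att ?_ ?_ ?_ ?_ ?_ ?_ ?_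
    · have t := o (-1) (-1) (-1); push_cast at t; convert t using 1 <;> ring
    · have t := o 1 0 1; push_cast at t; convert t using 1 <;> ring
    · have t := o 1 1 0; push_cast at t; convert t using 1 <;> ring
    · have t := o 1 0 0; push_cast at t; convert t using 1 <;> ring
    · have t := o 0 (-1) 0; push_cast at t; convert t using 1 <;> ring
    · have t := o 0 0 (-1); push_cast at t; convert t using 1 <;> ring
    · have t := o 0 (-1) (-1); push_cast at t; convert t using 1 <;> ring
  have att := o 0 0 0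
  simp only [Int.cast_zero, zero_mul, add_zero] at att
  rcases att with att | att | att | att
  · exact c1 mc hd h.u1 h.u2 h.u3 h.u4 att o
  · exact c2 mc hd h.u1 h.u2 h.u3 h.u4 att o
  · have s := h.swap12
    have hd' : detA b a c u x z w y v < d2 := by rw [detA_swap12]; exact hd
    exact c2 mc.swap12 hd' s.u1 s.u2 s.u3 s.u4 (by linarith) s.out
  · have s := h.swap23.swap12
    have hd' : detA c a b w z x u v y < d2 := by rw [detA_swap12, detA_swap23]; exact hd
    exact c2 mc.swap23.swap12 hd' s.u1 s.u2 s.u3 s.u4 (by linarith) s.out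

theorem conclA {p q r G m11 m12 m13 m21 m22 m23 m31 m32 m33 : ℝ}
    (h : Hyp p q r G m11 m12 m13 m21 m22 m23 m31 m32 m33) (s12 : m12 ≤ 0) (s13 : m13 ≤ 0) (s21 : m21 ≤ 0) (s23 : m23 ≤ 0) (s31 : m31 ≤ 0) (s32 : m32 ≤ 0) :
    d2 ≤ det3 m11 m12 m13 m21 m22 m23 m31 m32 m33 := by
  have h2 : Hyp p q r G (2 + (m11 - 2)) (-(-m12)) (-(-m13)) (-(-m21)) (2 + (m22 - 2)) (-(-m23))
      (-(-m31)) (-(-m32)) (2 + (m33 - 2)) := by
    convert h using 1 <;> ring
  have h3 := hypA h2 (neg_nonneg.mpr s12) (neg_nonneg.mpr s21) (neg_nonneg.mpr s23)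
    (neg_nonneg.mpr s32) (neg_nonneg.mpr s13) (neg_nonneg.mpr s31)
  unfold detA at h3
  unfold det3
  linarith only [h3]

theorem conclB {p q r G m11 m12 m13 m21 m22 m23 m31 m32 m33 : ℝ}
    (h : Hyp p q r G m11 m12 m13 m21 m22 m23 m31 m32 m33) (s12 : 0 ≤ m12) (s13 : 0 ≤ m13) (s21 : 0 ≤ m21) (s23 : 0 ≤ m23) (s31 : 0 ≤ m31) (s32 : 0 ≤ m32) :
    d2 ≤ det3 m11 m12 m13 m21 m22 m23 m31 m32 m33 := by
  obtain ⟨e1, e2, e3, k1, k2, k3, r1, r2, r3, adm, -, -, -, -, -, -⟩ := h
  rw [abs_of_nonneg s12, abs_of_nonneg s13] at r1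
  rw [abs_of_nonneg s21, abs_of_nonneg s23] at r2
  rw [abs_of_nonneg s31, abs_of_nonneg s32] at r3
  have adm2 : Adm OutD (2 + (m11 - 2)) m12 m13 m21 (2 + (m22 - 2)) m23 m31 m32 (2 + (m33 - 2)) := by
    convert adm using 1 <;> ring
  have key := class_B (m11 - 2) (m22 - 2) (m33 - 2) m12 m21 m23 m32 m13 m31 (by linarith only [e1])
    (by linarith only [e2]) (by linarith only [e3]) (by linarith only [s12]) (by linarith only [s21]) (by linarith only [s23]) (by linarith only [s32])
    (by linarith only [s13]) (by linarith only [s31]) (by linarith only [r1]) (by linarith only [r2]) (by linarith only [r3]) (by linarith only [k1])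
    (by linarith only [k2]) (by linarith only [k3]) adm2
  unfold det3
  linarith only [key]

theorem conclC {p q r G m11 m12 m13 m21 m22 m23 m31 m32 m33 : ℝ}
    (h : Hyp p q r G m11 m12 m13 m21 m22 m23 m31 m32 m33) (s12 : m12 ≤ 0) (s13 : m13 ≤ 0) (s21 : m21 ≤ 0) (s23 : 0 ≤ m23) (s31 : m31 ≤ 0) (s32 : m32 ≤ 0) :
    d2 ≤ det3 m11 m12 m13 m21 m22 m23 m31 m32 m33 := by
  obtain ⟨e1, e2, e3, k1, k2, k3, r1, r2, r3, adm, -, -, -, -, -, -⟩ := h
  rw [abs_of_nonpos s12, abs_of_nonpos s13] at r1
  rw [abs_of_nonpos s21, abs_of_nonneg s23] at r2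
  rw [abs_of_nonpos s31, abs_of_nonpos s32] at r3
  have adm2 : Adm OutD (2 + (m11 - 2)) (-(-m12)) (-(-m13)) (-(-m21)) (2 + (m22 - 2)) m23 (-(-m31)) (-(-m32)) (2 + (m33 - 2)) := by
    convert adm using 1 <;> ring
  have key := class_C (m11 - 2) (m22 - 2) (m33 - 2) (-m12) (-m21) m23 (-m32) (-m13) (-m31) (by linarith only [e1])
    (by linarith only [e2]) (by linarith only [e3]) (by linarith only [s12]) (by linarith only [s21]) (by linarith only [s23]) (by linarith only [s32])
    (by linarith only [s13]) (by linarith only [s31]) (by linarith only [r1]) (by linarith only [r2]) (by linarith only [r3]) (by linarith only [k1])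
    (by linarith only [k2]) (by linarith only [k3]) adm2
  unfold det3
  linarith only [key]

theorem conclD1 {p q r G m11 m12 m13 m21 m22 m23 m31 m32 m33 : ℝ}
    (h : Hyp p q r G m11 m12 m13 m21 m22 m23 m31 m32 m33) (s12 : m12 ≤ 0) (s13 : m13 ≤ 0) (s21 : m21 ≤ 0) (s23 : m23 ≤ 0) (s31 : 0 ≤ m31) (s32 : 0 ≤ m32) :
    d2 ≤ det3 m11 m12 m13 m21 m22 m23 m31 m32 m33 := by
  obtain ⟨e1, e2, e3, k1, k2, k3, r1, r2, r3, adm, -, -, -, -, -, -⟩ := h
  rw [abs_of_nonpos s12, abs_of_nonpos s13] at r1
  rw [abs_of_nonpos s21, abs_of_nonpos s23] at r2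
  rw [abs_of_nonneg s31, abs_of_nonneg s32] at r3
  have adm2 : Adm OutD (2 + (m11 - 2)) (-(-m12)) (-(-m13)) (-(-m21)) (2 + (m22 - 2)) (-(-m23)) m31 m32 (2 + (m33 - 2)) := by
    convert adm using 1 <;> ring
  have key := class_D1 (m11 - 2) (m22 - 2) (m33 - 2) (-m12) (-m21) (-m23) m32 (-m13) m31 (by linarith only [e1])
    (by linarith only [e2]) (by linarith only [e3]) (by linarith only [s12]) (by linarith only [s21]) (by linarith only [s23]) (by linarith only [s32])
    (by linarith only [s13]) (by linarith only [s31]) (by linarith only [r1]) (by linarith only [r2]) (by linarith only [r3]) (by linarith only [k1])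
    (by linarith only [k2]) (by linarith only [k3]) adm2
  unfold det3
  linarith only [key]

theorem conclD2 {p q r G m11 m12 m13 m21 m22 m23 m31 m32 m33 : ℝ}
    (h : Hyp p q r G m11 m12 m13 m21 m22 m23 m31 m32 m33) (s12 : m12 ≤ 0) (s13 : m13 ≤ 0) (s21 : m21 ≤ 0) (s23 : 0 ≤ m23) (s31 : 0 ≤ m31) (s32 : m32 ≤ 0) :
    d2 ≤ det3 m11 m12 m13 m21 m22 m23 m31 m32 m33 := by
  obtain ⟨e1, e2, e3, k1, k2, k3, r1, r2, r3, adm, -, -, -, -, -, -⟩ := h
  rw [abs_of_nonpos s12, abs_of_nonpos s13] at r1
  rw [abs_of_nonpos s21, abs_of_nonneg s23] at r2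
  rw [abs_of_nonneg s31, abs_of_nonpos s32] at r3
  have adm2 : Adm OutD (2 + (m11 - 2)) (-(-m12)) (-(-m13)) (-(-m21)) (2 + (m22 - 2)) m23 m31 (-(-m32)) (2 + (m33 - 2)) := by
    convert adm using 1 <;> ring
  have key := class_D2 (m11 - 2) (m22 - 2) (m33 - 2) (-m12) (-m21) m23 (-m32) (-m13) m31 (by linarith only [e1])
    (by linarith only [e2]) (by linarith only [e3]) (by linarith only [s12]) (by linarith only [s21]) (by linarith only [s23]) (by linarith only [s32])
    (by linarith only [s13]) (by linarith only [s31]) (by linarith only [r1]) (by linarith only [r2]) (by linarith only [r3]) (by linarith only [k1])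
    (by linarith only [k2]) (by linarith only [k3]) adm2
  unfold det3
  linarith only [key]

theorem conclE {p q r G m11 m12 m13 m21 m22 m23 m31 m32 m33 : ℝ}
    (h : Hyp p q r G m11 m12 m13 m21 m22 m23 m31 m32 m33) (s12 : m12 ≤ 0) (s13 : 0 ≤ m13) (s21 : 0 ≤ m21) (s23 : m23 ≤ 0) (s31 : m31 ≤ 0) (s32 : 0 ≤ m32) :
    d2 ≤ det3 m11 m12 m13 m21 m22 m23 m31 m32 m33 := by
  obtain ⟨e1, e2, e3, k1, k2, k3, r1, r2, r3, adm, -, -, -, -, -, -⟩ := h
  rw [abs_of_nonpos s12, abs_of_nonneg s13] at r1
  rw [abs_of_nonneg s21, abs_of_nonpos s23] at r2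
  rw [abs_of_nonpos s31, abs_of_nonneg s32] at r3
  have adm2 : Adm OutD (2 + (m11 - 2)) (-(-m12)) m13 m21 (2 + (m22 - 2)) (-(-m23)) (-(-m31)) m32 (2 + (m33 - 2)) := by
    convert adm using 1 <;> ring
  have key := class_E (m11 - 2) (m22 - 2) (m33 - 2) (-m12) m21 (-m23) m32 m13 (-m31) (by linarith only [e1])
    (by linarith only [e2]) (by linarith only [e3]) (by linarith only [s12]) (by linarith only [s21]) (by linarith only [s23]) (by linarith only [s32])
    (by linarith only [s13]) (by linarith only [s31]) (by linarith only [r1]) (by linarith only [r2]) (by linarith only [r3]) (by linarith only [k1])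
    (by linarith only [k2]) (by linarith only [k3]) adm2
  unfold det3
  linarith only [key]

private theorem h99_det_swap12 (m11 m12 m13 m21 m22 m23 m31 m32 m33 : ℝ) :
    det3 m22 m21 m23 m12 m11 m13 m32 m31 m33 = det3 m11 m12 m13 m21 m22 m23 m31 m32 m33 := by
  unfold det3
  ring

private theorem h99_det_swap23 (m11 m12 m13 m21 m22 m23 m31 m32 m33 : ℝ) :
    det3 m11 m13 m12 m31 m33 m32 m21 m23 m22 = det3 m11 m12 m13 m21 m22 m23 m31 m32 m33 := by
  unfold det3
  ring

private theorem h99_det_flip1 (m11 m12 m13 m21 m22 m23 m31 m32 m33 : ℝ) :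
    det3 m11 (-m12) (-m13) (-m21) m22 m23 (-m31) m32 m33 =
      det3 m11 m12 m13 m21 m22 m23 m31 m32 m33 := by
  unfold det3
  ring

private theorem h99_det_flip2 (m11 m12 m13 m21 m22 m23 m31 m32 m33 : ℝ) :
    det3 m11 (-m12) m13 (-m21) m22 (-m23) m31 (-m32) m33 =
      det3 m11 m12 m13 m21 m22 m23 m31 m32 m33 := by
  unfold det3
  ring

private theorem h99_det_flip3 (m11 m12 m13 m21 m22 m23 m31 m32 m33 : ℝ) :
    det3 m11 m12 (-m13) m21 m22 (-m23) (-m31) (-m32) m33 =
      det3 m11 m12 m13 m21 m22 m23 m31 m32 m33 := by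
  unfold det3
  ring

theorem core {p q r G m11 m12 m13 m21 m22 m23 m31 m32 m33 : ℝ}
    (h : Hyp p q r G m11 m12 m13 m21 m22 m23 m31 m32 m33) :
    d2 ≤ det3 m11 m12 m13 m21 m22 m23 m31 m32 m33 := by
  rcases le_total 0 m12 with s12 | s12 <;> rcases le_total 0 m13 with s13 | s13 <;>
  rcases le_total 0 m21 with s21 | s21 <;> rcases le_total 0 m23 with s23 | s23 <;>
  rcases le_total 0 m31 with s31 | s31 <;> rcases le_total 0 m32 with s32 | s32
  · exact conclB h s12 s13 s21 s23 s31 s32
  · have h3 := conclC h.flip1 (neg_nonpos.mpr s12) (neg_nonpos.mpr s13) (neg_nonpos.mpr s21) s23 (neg_nonpos.mpr s31) s32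
    rw [h99_det_flip1] at h3
    exact h3
  · have h3 := conclC h.swap12.flip1 (neg_nonpos.mpr s21) (neg_nonpos.mpr s23) (neg_nonpos.mpr s12) s13 (neg_nonpos.mpr s32) s31
    rw [h99_det_flip1, h99_det_swap12] at h3
    exact h3
  · have h3 := conclD2 h.flip1 (neg_nonpos.mpr s12) (neg_nonpos.mpr s13) (neg_nonpos.mpr s21) s23 (neg_nonneg.mpr s31) s32
    rw [h99_det_flip1] at h3
    exact h3
  · have h3 := conclC h.swap23.flip1 (neg_nonpos.mpr s13) (neg_nonpos.mpr s12) (neg_nonpos.mpr s31) s32 (neg_nonpos.mpr s21) s23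
    rw [h99_det_flip1, h99_det_swap23] at h3
    exact h3
  · have h3 := conclA h.flip1 (neg_nonpos.mpr s12) (neg_nonpos.mpr s13) (neg_nonpos.mpr s21) s23 (neg_nonpos.mpr s31) s32
    rw [h99_det_flip1] at h3
    exact h3
  · have h3 := conclD1 h.flip1 (neg_nonpos.mpr s12) (neg_nonpos.mpr s13) (neg_nonpos.mpr s21) s23 (neg_nonneg.mpr s31) s32
    rw [h99_det_flip1] at h3
    exact h3
  · have h3 := conclC h.swap12.swap23.flip3 s23 (neg_nonpos.mpr s21) s32 (neg_nonneg.mpr s31) (neg_nonpos.mpr s12) (neg_nonpos.mpr s13)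
    rw [h99_det_flip3, h99_det_swap23, h99_det_swap12] at h3
    exact h3
  · have h3 := conclC h.swap23.swap12.flip1 (neg_nonpos.mpr s31) (neg_nonpos.mpr s32) (neg_nonpos.mpr s13) s12 (neg_nonpos.mpr s23) s21
    rw [h99_det_flip1, h99_det_swap12, h99_det_swap23] at h3
    exact h3
  · have h3 := conclD1 h.swap23.flip1 (neg_nonpos.mpr s13) (neg_nonpos.mpr s12) (neg_nonpos.mpr s31) s32 (neg_nonneg.mpr s21) s23
    rw [h99_det_flip1, h99_det_swap23] at h3
    exact h3
  · have h3 := conclD2 h.swap12.swap23.flip2 (neg_nonpos.mpr s23) s21 (neg_nonpos.mpr s32) (neg_nonneg.mpr s31) s12 (neg_nonpos.mpr s13)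
    rw [h99_det_flip2, h99_det_swap23, h99_det_swap12] at h3
    exact h3
  · have h3 := conclE h.flip2 (neg_nonpos.mpr s12) s13 (neg_nonneg.mpr s21) (neg_nonpos.mpr s23) s31 (neg_nonneg.mpr s32)
    rw [h99_det_flip2] at h3
    exact h3
  · have h3 := conclD2 h.swap23.flip1 (neg_nonpos.mpr s13) (neg_nonpos.mpr s12) (neg_nonpos.mpr s31) s32 (neg_nonneg.mpr s21) s23
    rw [h99_det_flip1, h99_det_swap23] at h3
    exact h3
  · have h3 := conclC h.swap12.swap23.swap12.flip3 s32 (neg_nonpos.mpr s31) s23 (neg_nonneg.mpr s21) (neg_nonpos.mpr s13) (neg_nonpos.mpr s12)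
    rw [h99_det_flip3, h99_det_swap12, h99_det_swap23, h99_det_swap12] at h3
    exact h3
  · have h3 := conclE h.swap12.flip3 s21 (neg_nonneg.mpr s23) s12 (neg_nonpos.mpr s13) (neg_nonpos.mpr s32) (neg_nonneg.mpr s31)
    rw [h99_det_flip3, h99_det_swap12] at h3
    exact h3
  · have h3 := conclD1 h.swap12.swap23 s23 s21 s32 s31 s12 s13
    rw [h99_det_swap23, h99_det_swap12] at h3
    exact h3
  · have h3 := conclC h.swap12.swap23.flip1 (neg_nonpos.mpr s23) (neg_nonpos.mpr s21) (neg_nonpos.mpr s32) s31 (neg_nonpos.mpr s12) s13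
    rw [h99_det_flip1, h99_det_swap23, h99_det_swap12] at h3
    exact h3
  · have h3 := conclD1 h.flip2 (neg_nonpos.mpr s12) s13 (neg_nonpos.mpr s21) (neg_nonpos.mpr s23) s31 (neg_nonneg.mpr s32)
    rw [h99_det_flip2] at h3
    exact h3
  · have h3 := conclA h.flip2 (neg_nonpos.mpr s12) s13 (neg_nonpos.mpr s21) (neg_nonpos.mpr s23) s31 (neg_nonpos.mpr s32)
    rw [h99_det_flip2] at h3
    exact h3
  · have h3 := conclC h.swap23.flip3 s13 (neg_nonpos.mpr s12) s31 (neg_nonneg.mpr s32) (neg_nonpos.mpr s21) (neg_nonpos.mpr s23)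
    rw [h99_det_flip3, h99_det_swap23] at h3
    exact h3
  · have h3 := conclD2 h.flip2 (neg_nonpos.mpr s12) s13 (neg_nonpos.mpr s21) (neg_nonneg.mpr s23) s31 (neg_nonpos.mpr s32)
    rw [h99_det_flip2] at h3
    exact h3
  · have h3 := conclC h.swap12.flip2 (neg_nonpos.mpr s21) s23 (neg_nonpos.mpr s12) (neg_nonneg.mpr s13) s32 (neg_nonpos.mpr s31)
    rw [h99_det_flip2, h99_det_swap12] at h3
    exact h3
  · have h3 := conclC h.flip2 (neg_nonpos.mpr s12) s13 (neg_nonpos.mpr s21) (neg_nonneg.mpr s23) s31 (neg_nonpos.mpr s32)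
    rw [h99_det_flip2] at h3
    exact h3
  · have h3 := conclB h.flip3 s12 (neg_nonneg.mpr s13) s21 (neg_nonneg.mpr s23) (neg_nonneg.mpr s31) (neg_nonneg.mpr s32)
    rw [h99_det_flip3] at h3
    exact h3
  · have h3 := conclD1 h.swap12.swap23.flip2 (neg_nonpos.mpr s23) s21 (neg_nonpos.mpr s32) (neg_nonpos.mpr s31) s12 (neg_nonneg.mpr s13)
    rw [h99_det_flip2, h99_det_swap23, h99_det_swap12] at h3
    exact h3
  · have h3 := conclE h.swap12 s21 s23 s12 s13 s32 s31
    rw [h99_det_swap12] at h3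
    exact h3
  · have h3 := conclC h.swap12.swap23.swap12.flip2 (neg_nonpos.mpr s32) s31 (neg_nonpos.mpr s23) (neg_nonneg.mpr s21) s13 (neg_nonpos.mpr s12)
    rw [h99_det_flip2, h99_det_swap12, h99_det_swap23, h99_det_swap12] at h3
    exact h3
  · have h3 := conclD2 h.swap23.swap12 s31 s32 s13 s12 s23 s21
    rw [h99_det_swap12, h99_det_swap23] at h3
    exact h3
  · have h3 := conclE h.flip1 (neg_nonpos.mpr s12) (neg_nonneg.mpr s13) (neg_nonneg.mpr s21) s23 (neg_nonpos.mpr s31) s32
    rw [h99_det_flip1] at h3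
    exact h3
  · have h3 := conclD2 h.swap12.swap23 s23 s21 s32 s31 s12 s13
    rw [h99_det_swap23, h99_det_swap12] at h3
    exact h3
  · have h3 := conclD1 h.swap23.flip3 s13 (neg_nonpos.mpr s12) s31 (neg_nonpos.mpr s32) (neg_nonneg.mpr s21) (neg_nonneg.mpr s23)
    rw [h99_det_flip3, h99_det_swap23] at h3
    exact h3
  · have h3 := conclC h.swap23.swap12 s31 s32 s13 s12 s23 s21
    rw [h99_det_swap12, h99_det_swap23] at h3
    exact h3
  · have h3 := conclC h.swap12.swap23.swap12.flip1 (neg_nonpos.mpr s32) (neg_nonpos.mpr s31) (neg_nonpos.mpr s23) s21 (neg_nonpos.mpr s13) s12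
    rw [h99_det_flip1, h99_det_swap12, h99_det_swap23, h99_det_swap12] at h3
    exact h3
  · have h3 := conclD2 h.swap23.flip2 (neg_nonpos.mpr s13) s12 (neg_nonpos.mpr s31) (neg_nonneg.mpr s32) s21 (neg_nonpos.mpr s23)
    rw [h99_det_flip2, h99_det_swap23] at h3
    exact h3
  · have h3 := conclD1 h.swap12.swap23.flip1 (neg_nonpos.mpr s23) (neg_nonpos.mpr s21) (neg_nonpos.mpr s32) s31 (neg_nonneg.mpr s12) s13
    rw [h99_det_flip1, h99_det_swap23, h99_det_swap12] at h3
    exact h3
  · have h3 := conclE h.swap12.flip2 (neg_nonpos.mpr s21) s23 (neg_nonneg.mpr s12) (neg_nonpos.mpr s13) s32 (neg_nonneg.mpr s31)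
    rw [h99_det_flip2, h99_det_swap12] at h3
    exact h3
  · have h3 := conclD1 h.swap23.flip2 (neg_nonpos.mpr s13) s12 (neg_nonpos.mpr s31) (neg_nonpos.mpr s32) s21 (neg_nonneg.mpr s23)
    rw [h99_det_flip2, h99_det_swap23] at h3
    exact h3
  · have h3 := conclC h.swap23.swap12.flip2 (neg_nonpos.mpr s31) s32 (neg_nonpos.mpr s13) (neg_nonneg.mpr s12) s23 (neg_nonpos.mpr s21)
    rw [h99_det_flip2, h99_det_swap12, h99_det_swap23] at h3
    exact h3
  · exact conclE h s12 s13 s21 s23 s31 s32
  · have h3 := conclD2 h.swap12.swap23.swap12 s32 s31 s23 s21 s13 s12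
    rw [h99_det_swap12, h99_det_swap23, h99_det_swap12] at h3
    exact h3
  · have h3 := conclA h.flip3 s12 (neg_nonpos.mpr s13) s21 (neg_nonpos.mpr s23) (neg_nonpos.mpr s31) (neg_nonpos.mpr s32)
    rw [h99_det_flip3] at h3
    exact h3
  · have h3 := conclC h.swap23.flip2 (neg_nonpos.mpr s13) s12 (neg_nonpos.mpr s31) (neg_nonneg.mpr s32) s21 (neg_nonpos.mpr s23)
    rw [h99_det_flip2, h99_det_swap23] at h3
    exact h3
  · have h3 := conclC h.swap12.swap23.flip2 (neg_nonpos.mpr s23) s21 (neg_nonpos.mpr s32) (neg_nonneg.mpr s31) s12 (neg_nonpos.mpr s13)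
    rw [h99_det_flip2, h99_det_swap23, h99_det_swap12] at h3
    exact h3
  · have h3 := conclD1 h.flip3 s12 (neg_nonpos.mpr s13) s21 (neg_nonpos.mpr s23) (neg_nonneg.mpr s31) (neg_nonneg.mpr s32)
    rw [h99_det_flip3] at h3
    exact h3
  · have h3 := conclC h.flip3 s12 (neg_nonpos.mpr s13) s21 (neg_nonneg.mpr s23) (neg_nonpos.mpr s31) (neg_nonpos.mpr s32)
    rw [h99_det_flip3] at h3
    exact h3
  · have h3 := conclB h.flip2 (neg_nonneg.mpr s12) s13 (neg_nonneg.mpr s21) (neg_nonneg.mpr s23) s31 (neg_nonneg.mpr s32)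
    rw [h99_det_flip2] at h3
    exact h3
  · have h3 := conclD2 h.swap12 s21 s23 s12 s13 s32 s31
    rw [h99_det_swap12] at h3
    exact h3
  · have h3 := conclC h.swap12 s21 s23 s12 s13 s32 s31
    rw [h99_det_swap12] at h3
    exact h3
  · have h3 := conclD2 h.swap12.swap23.flip1 (neg_nonpos.mpr s23) (neg_nonpos.mpr s21) (neg_nonpos.mpr s32) s31 (neg_nonneg.mpr s12) s13
    rw [h99_det_flip1, h99_det_swap23, h99_det_swap12] at h3
    exact h3
  · have h3 := conclE h.flip3 s12 (neg_nonneg.mpr s13) s21 (neg_nonpos.mpr s23) (neg_nonpos.mpr s31) (neg_nonneg.mpr s32)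
    rw [h99_det_flip3] at h3
    exact h3
  · have h3 := conclC h.swap23.swap12.flip3 s31 (neg_nonpos.mpr s32) s13 (neg_nonneg.mpr s12) (neg_nonpos.mpr s23) (neg_nonpos.mpr s21)
    rw [h99_det_flip3, h99_det_swap12, h99_det_swap23] at h3
    exact h3
  · have h3 := conclD1 h.swap23 s13 s12 s31 s32 s21 s23
    rw [h99_det_swap23] at h3
    exact h3
  · have h3 := conclE h.swap12.flip1 (neg_nonpos.mpr s21) (neg_nonneg.mpr s23) (neg_nonneg.mpr s12) s13 (neg_nonpos.mpr s32) s31
    rw [h99_det_flip1, h99_det_swap12] at h3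
    exact h3
  · have h3 := conclD1 h.swap12.swap23.flip3 s23 (neg_nonpos.mpr s21) s32 (neg_nonpos.mpr s31) (neg_nonneg.mpr s12) (neg_nonneg.mpr s13)
    rw [h99_det_flip3, h99_det_swap23, h99_det_swap12] at h3
    exact h3
  · have h3 := conclD2 h.swap23 s13 s12 s31 s32 s21 s23
    rw [h99_det_swap23] at h3
    exact h3
  · have h3 := conclC h.swap12.swap23.swap12 s32 s31 s23 s21 s13 s12
    rw [h99_det_swap12, h99_det_swap23, h99_det_swap12] at h3
    exact h3
  · have h3 := conclC h.swap12.flip3 s21 (neg_nonpos.mpr s23) s12 (neg_nonneg.mpr s13) (neg_nonpos.mpr s32) (neg_nonpos.mpr s31)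
    rw [h99_det_flip3, h99_det_swap12] at h3
    exact h3
  · exact conclD2 h s12 s13 s21 s23 s31 s32
  · have h3 := conclB h.flip1 (neg_nonneg.mpr s12) (neg_nonneg.mpr s13) (neg_nonneg.mpr s21) s23 (neg_nonneg.mpr s31) s32
    rw [h99_det_flip1] at h3
    exact h3
  · exact conclC h s12 s13 s21 s23 s31 s32
  · exact conclD1 h s12 s13 s21 s23 s31 s32
  · have h3 := conclC h.swap12.swap23 s23 s21 s32 s31 s12 s13
    rw [h99_det_swap23, h99_det_swap12] at h3
    exact h3
  · have h3 := conclC h.swap23 s13 s12 s31 s32 s21 s23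
    rw [h99_det_swap23] at h3
    exact h3
  · exact conclA h s12 s13 s21 s23 s31 s32

end Pool.Agent.Helper84.Dbl
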