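import Pool.Agent.Helper84.Tet.PackDefs
set_option autoImplicit false
namespace Pool.Agent.Helper84.Dbl
open MeasureTheory Filter
open scoped Pointwise ENNReal
open Pool.Agent.Helper84.Tet (E3 IsConvexBody)

/-- A family of sets is a packing when the interiors of its members are pairwise disjoint. -/
def IsPackingFam {ι : Type} (P : ι → Set E3) : Prop :=
  Pairwise fun i j => Disjoint (interior (P i)) (interior (P j))

/-- The (upper) density of a family of sets: the limsup, as `r → ∞`, of
`(∑ Vol(P i ∩ B(r))) / Vol(B(r))`. -/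
noncomputable def famDensity {ι : Type} (P : ι → Set E3) : ℝ≥0∞ :=
  limsup (fun r : ℝ => (∑' i : ι, volume (P i ∩ Metric.closedBall (0 : E3) r)) /
    volume (Metric.closedBall (0 : E3) r)) atTop

/-- The family of all the bodies `K + u` and `(v - K) + u`, `u ∈ Λ`. -/
def dlFamily (K : Set E3) (v : E3) (Λ : Submodule ℤ E3) : Λ × Bool → Set E3 :=
  fun i => (i.1 : E3) +ᵥ (if i.2 then K else v +ᵥ (-K))

/-- The double lattice packing density `δ_{L*}(K)`: the supremum of the densities of all packings
`{K + u : u ∈ Λ} ∪ {(v - K) + u : u ∈ Λ}`, `Λ` a lattice and `v` a vector. -/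
noncomputable def deltaLstar (K : Set E3) : ℝ≥0∞ :=
  ⨆ (Λ : Submodule ℤ E3) (_ : DiscreteTopology Λ) (_ : IsZLattice ℝ Λ) (v : E3)
    (_ : IsPackingFam (dlFamily K v Λ)), famDensity (dlFamily K v Λ)

/-- The minimum (infimum) `m_{L*}` of `δ_{L*}(K)` over all convex bodies `K`. -/
noncomputable def mLstar : ℝ≥0∞ := ⨅ (K : Set E3) (_ : IsConvexBody K), deltaLstar K

end Pool.Agent.Helper84.Dbl
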