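import Pool.Agent.Helper84.Dbl.Defs
import Pool.Agent.Helper84.Tet.Dens
set_option autoImplicit false
namespace Pool.Agent.Helper84.Dbl
open MeasureTheory Filter Topology
open scoped Pointwise ENNReal
open Pool.Agent.Helper84.Tet (E3 IsConvexBody vol_closedBall_eq count_bound)

theorem tsum_prod_bool {α : Type} (f : α × Bool → ℝ≥0∞) :
    (∑' i, f i) = ∑' a, (f (a, true) + f (a, false)) := by
  rw [ENNReal.tsum_prod']
  refine tsum_congr (fun a => ?_)
  rw [tsum_bool, add_comm]

/-- The balls are asymptotically invariant. -/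
theorem ratio_tendsto (c : ℝ) : Tendsto (fun r : ℝ => ENNReal.ofReal (((r + c) / r) ^ 3)) atTop
    (𝓝 1) := by
  have h0 : (1 : ℝ≥0∞) = ENNReal.ofReal (1 ^ 3) := by simp
  rw [h0]
  apply ENNReal.tendsto_ofReal
  apply Tendsto.pow
  have h1 : Tendsto (fun r : ℝ => 1 + c / r) atTop (𝓝 (1 + 0)) :=
    tendsto_const_nhds.add (tendsto_const_nhds.div_atTop tendsto_id)
  rw [add_zero] at h1
  refine h1.congr' ?_
  filter_upwards [eventually_gt_atTop (0 : ℝ)] with r hr
  field_simp

theorem fam_density_le (Λ : Submodule ℤ E3) [DiscreteTopology Λ] [IsZLattice ℝ Λ]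
    (P : Λ × Bool → Set E3) {R : ℝ} {V : ℝ≥0∞}
    (hR : ∀ (u : Λ) (b : Bool), P (u, b) ⊆ Metric.closedBall (u : E3) R)
    (hV : ∀ (u : Λ) (b : Bool), volume (P (u, b)) ≤ V) :
    famDensity P ≤ 2 * V / ENNReal.ofReal (ZLattice.covolume Λ) := by
  let B := Module.Free.chooseBasis ℤ Λ
  have fund := ZLattice.isAddFundamentalDomain B volume
  set F := ZSpan.fundamentalDomain (B.ofZLatticeBasis ℝ) with hF
  have hFm : MeasurableSet F := ZSpan.fundamentalDomain_measurableSet _
  obtain ⟨ρ, hρ⟩ := (ZSpan.fundamentalDomain_isBounded (B.ofZLatticeBasis ℝ)).subset_closedBall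
    (0 : E3)
  have hcov : ZLattice.covolume Λ = volume.real F :=
    ZLattice.covolume_eq_measure_fundamentalDomain Λ volume fund
  have hcovpos : 0 < ZLattice.covolume Λ := ZLattice.covolume_pos Λ volume
  have hfin : volume F ≠ ⊤ := by
    intro h
    rw [hcov, Measure.real, h] at hcovpos
    simp at hcovpos
  have hvF : volume F = ENNReal.ofReal (ZLattice.covolume Λ) := by
    rw [hcov, Measure.real, ENNReal.ofReal_toReal hfin]
  rw [← hvF]
  have hF0 : volume F ≠ 0 := by
    rw [hvF]; exact (ENNReal.ofReal_pos.2 hcovpos).ne'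
  have hB1 : volume (Metric.closedBall (0 : E3) 1) ≠ 0 :=
    (Metric.measure_closedBall_pos volume _ one_pos).ne'
  have hB1' : volume (Metric.closedBall (0 : E3) 1) ≠ ⊤ := measure_closedBall_lt_top.ne
  have hterm : ∀ (r : ℝ) (u : Λ) (b : Bool), volume (P (u, b) ∩ Metric.closedBall (0 : E3) r) ≤
      (if ‖(u : E3)‖ ≤ r + R then (1 : ℝ≥0∞) else 0) * V := by
    intro r u b
    by_cases h : ‖(u : E3)‖ ≤ r + R
    · rw [if_pos h, one_mul]
      exact (measure_mono Set.inter_subset_left).trans (hV u b)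
    · rw [if_neg h, zero_mul]
      have : P (u, b) ∩ Metric.closedBall (0 : E3) r = ∅ := by
        rw [Set.eq_empty_iff_forall_notMem]
        rintro x ⟨hx1, hx2⟩
        apply h
        have hx1' := hR u b hx1
        rw [mem_closedBall_iff_norm] at hx1'
        rw [mem_closedBall_zero_iff] at hx2
        have : (u : E3) = x - (x - (u : E3)) := by abel
        rw [this]
        calc ‖x - (x - (u : E3))‖ ≤ ‖x‖ + ‖x - (u : E3)‖ := norm_sub_le _ _
          _ ≤ r + R := add_le_add hx2 hx1'
      rw [this, measure_empty]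
  have hsum : ∀ r : ℝ, (∑' i, volume (P i ∩ Metric.closedBall (0 : E3) r)) ≤
      volume (Metric.closedBall (0 : E3) (r + R + ρ)) / volume F * (2 * V) := by
    intro r
    rw [tsum_prod_bool]
    have h1 : (∑' u : Λ, (volume (P (u, true) ∩ Metric.closedBall (0 : E3) r) +
        volume (P (u, false) ∩ Metric.closedBall (0 : E3) r))) ≤
        (∑' u : Λ, (if ‖(u : E3)‖ ≤ r + R then (1 : ℝ≥0∞) else 0)) * (2 * V) := by
      rw [← ENNReal.tsum_mul_right]
      refine ENNReal.tsum_le_tsum (fun u => ?_)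
      calc _ ≤ (if ‖(u : E3)‖ ≤ r + R then (1 : ℝ≥0∞) else 0) * V +
          (if ‖(u : E3)‖ ≤ r + R then (1 : ℝ≥0∞) else 0) * V :=
            add_le_add (hterm r u true) (hterm r u false)
        _ = _ := by ring
    refine le_trans h1 ?_
    gcongr
    rw [ENNReal.le_div_iff_mul_le (Or.inl hF0) (Or.inl hfin)]
    exact count_bound Λ F fund hFm hρ
  have hle : ∀ᶠ r : ℝ in atTop, (∑' i, volume (P i ∩ Metric.closedBall (0 : E3) r)) /
      volume (Metric.closedBall (0 : E3) r) ≤
      ENNReal.ofReal (((r + (R + ρ)) / r) ^ 3) * (2 * V / volume F) := by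
    filter_upwards [eventually_gt_atTop (0 : ℝ), eventually_gt_atTop (-(R + ρ))] with r hr0 hr1
    have hr2 : 0 ≤ r + R + ρ := by linarith
    calc _ ≤ volume (Metric.closedBall (0 : E3) (r + R + ρ)) / volume F * (2 * V) /
          volume (Metric.closedBall (0 : E3) r) := by gcongr; exact hsum r
      _ = _ := by
        rw [vol_closedBall_eq hr2, vol_closedBall_eq hr0.le]
        have hr3 : ENNReal.ofReal (r ^ 3) ≠ 0 := (ENNReal.ofReal_pos.2 (by positivity)).ne'
        rw [div_pow, ENNReal.ofReal_div_of_pos (by positivity), ← add_assoc]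
        simp only [div_eq_mul_inv]
        rw [ENNReal.mul_inv (Or.inl hr3) (Or.inl ENNReal.ofReal_ne_top)]
        calc ENNReal.ofReal ((r + R + ρ) ^ 3) * volume (Metric.closedBall (0 : E3) 1) *
              (volume F)⁻¹ * (2 * V) *
              ((ENNReal.ofReal (r ^ 3))⁻¹ * (volume (Metric.closedBall (0 : E3) 1))⁻¹)
            = (volume (Metric.closedBall (0 : E3) 1) * (volume (Metric.closedBall (0 : E3) 1))⁻¹) *
              (ENNReal.ofReal ((r + R + ρ) ^ 3) * (ENNReal.ofReal (r ^ 3))⁻¹ *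
              (2 * V * (volume F)⁻¹)) := by ring
          _ = _ := by rw [ENNReal.mul_inv_cancel hB1 hB1', one_mul]
  have hlim : Tendsto (fun r : ℝ => ENNReal.ofReal (((r + (R + ρ)) / r) ^ 3) *
      (2 * V / volume F)) atTop (𝓝 (1 * (2 * V / volume F))) :=
    ENNReal.Tendsto.mul_const (ratio_tendsto _) (Or.inl one_ne_zero)
  rw [one_mul] at hlim
  calc famDensity P ≤ limsup (fun r : ℝ => ENNReal.ofReal (((r + (R + ρ)) / r) ^ 3) *
      (2 * V / volume F)) atTop := limsup_le_limsup hle
    _ = 2 * V / volume F := hlim.limsup_eq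

end Pool.Agent.Helper84.Dbl
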