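import Pool.Agent.Helper84.Dbl.Fam
set_option autoImplicit false
namespace Pool.Agent.Helper84.Dbl
open MeasureTheory Filter Topology
open scoped Pointwise ENNReal
open Pool.Agent.Helper84.Tet (E3 IsConvexBody vol_closedBall_eq count_bound)

theorem count_lower (Λ : Submodule ℤ E3) [DiscreteTopology Λ] [IsZLattice ℝ Λ] {ρ s : ℝ}
    (F : Set E3) (hF : IsAddFundamentalDomain Λ F volume)
    (hFρ : F ⊆ Metric.closedBall 0 ρ) :
    volume (Metric.closedBall (0 : E3) s) ≤
      (∑' u : Λ, (if ‖(u : E3)‖ ≤ s + ρ then (1 : ℝ≥0∞) else 0)) * volume F := by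
  have : Countable Λ := inferInstance
  rw [← ENNReal.tsum_mul_right]
  let G : Λ → Set E3 := fun u => if ‖(u : E3)‖ ≤ s + ρ then u +ᵥ F else ∅
  have hG : ∀ u : Λ, (if ‖(u : E3)‖ ≤ s + ρ then (1 : ℝ≥0∞) else 0) * volume F =
      volume (G u) := by
    intro u
    by_cases h : ‖(u : E3)‖ ≤ s + ρ
    · simp only [G, if_pos h, one_mul]
      exact (measure_vadd volume (u : E3) F).symm
    · simp only [G, if_neg h, zero_mul, measure_empty]
  simp only [hG]
  refine le_trans ?_ (measure_iUnion_le G)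
  apply measure_mono_ae
  filter_upwards [hF.ae_covers] with x hx
  intro hxs
  obtain ⟨g, hg⟩ := hx
  have hxs' : x ∈ Metric.closedBall (0 : E3) s := hxs
  have hg' : (g : E3) + x ∈ F := hg
  have h1 := hFρ hg'
  rw [mem_closedBall_zero_iff] at h1 hxs'
  show x ∈ ⋃ u, G u
  rw [Set.mem_iUnion]
  refine ⟨-g, ?_⟩
  have h2 : ‖((-g : Λ) : E3)‖ ≤ s + ρ := by
    have : ((-g : Λ) : E3) = x - ((g : E3) + x) := by
      rw [Submodule.coe_neg]; abel
    rw [this]
    exact (norm_sub_le _ _).trans (add_le_add hxs' h1)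
  simp only [G, if_pos h2]
  refine ⟨(g : E3) + x, hg', ?_⟩
  show ((-g : Λ) : E3) + ((g : E3) + x) = x
  rw [Submodule.coe_neg]; abel

theorem le_fam_density (Λ : Submodule ℤ E3) [DiscreteTopology Λ] [IsZLattice ℝ Λ]
    (P : Λ × Bool → Set E3) {R : ℝ} {V : ℝ≥0∞}
    (hR : ∀ (u : Λ) (b : Bool), P (u, b) ⊆ Metric.closedBall (u : E3) R)
    (hV : ∀ (u : Λ) (b : Bool), V ≤ volume (P (u, b))) :
    2 * V / ENNReal.ofReal (ZLattice.covolume Λ) ≤ famDensity P := by
  let B := Module.Free.chooseBasis ℤ Λ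
  have fund := ZLattice.isAddFundamentalDomain B volume
  set F := ZSpan.fundamentalDomain (B.ofZLatticeBasis ℝ) with hF
  obtain ⟨ρ, hρ⟩ := (ZSpan.fundamentalDomain_isBounded (B.ofZLatticeBasis ℝ)).subset_closedBall
    (0 : E3)
  have hcov : ZLattice.covolume Λ = volume.real F :=
    ZLattice.covolume_eq_measure_fundamentalDomain Λ volume fund
  have hcovpos : 0 < ZLattice.covolume Λ := ZLattice.covolume_pos Λ volume
  have hfin : volume F ≠ ⊤ := by
    intro h
    rw [hcov, Measure.real, h] at hcovpos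
    simp at hcovpos
  have hvF : volume F = ENNReal.ofReal (ZLattice.covolume Λ) := by
    rw [hcov, Measure.real, ENNReal.ofReal_toReal hfin]
  rw [← hvF]
  have hF0 : volume F ≠ 0 := by
    rw [hvF]; exact (ENNReal.ofReal_pos.2 hcovpos).ne'
  have hB1 : volume (Metric.closedBall (0 : E3) 1) ≠ 0 :=
    (Metric.measure_closedBall_pos volume _ one_pos).ne'
  have hB1' : volume (Metric.closedBall (0 : E3) 1) ≠ ⊤ := measure_closedBall_lt_top.ne
  have hterm : ∀ (r : ℝ) (u : Λ) (b : Bool),
      (if ‖(u : E3)‖ ≤ r - R then (1 : ℝ≥0∞) else 0) * V ≤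
      volume (P (u, b) ∩ Metric.closedBall (0 : E3) r) := by
    intro r u b
    by_cases h : ‖(u : E3)‖ ≤ r - R
    · rw [if_pos h, one_mul]
      have : P (u, b) ∩ Metric.closedBall (0 : E3) r = P (u, b) := by
        rw [Set.inter_eq_left]
        intro x hx
        have hx1 := hR u b hx
        rw [mem_closedBall_iff_norm] at hx1
        rw [mem_closedBall_zero_iff]
        have : x = (x - (u : E3)) + (u : E3) := by abel
        rw [this]
        exact (norm_add_le _ _).trans (by linarith)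
      rw [this]
      exact hV u b
    · rw [if_neg h, zero_mul]
      exact zero_le
  have hsum : ∀ r : ℝ, volume (Metric.closedBall (0 : E3) (r - R - ρ)) / volume F * (2 * V) ≤
      (∑' i, volume (P i ∩ Metric.closedBall (0 : E3) r)) := by
    intro r
    rw [tsum_prod_bool]
    have h1 : (∑' u : Λ, (if ‖(u : E3)‖ ≤ r - R then (1 : ℝ≥0∞) else 0)) * (2 * V) ≤
        (∑' u : Λ, (volume (P (u, true) ∩ Metric.closedBall (0 : E3) r) +
        volume (P (u, false) ∩ Metric.closedBall (0 : E3) r))) := by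
      rw [← ENNReal.tsum_mul_right]
      refine ENNReal.tsum_le_tsum (fun u => ?_)
      calc _ = (if ‖(u : E3)‖ ≤ r - R then (1 : ℝ≥0∞) else 0) * V +
          (if ‖(u : E3)‖ ≤ r - R then (1 : ℝ≥0∞) else 0) * V := by ring
        _ ≤ _ := add_le_add (hterm r u true) (hterm r u false)
    refine le_trans ?_ h1
    gcongr
    rw [ENNReal.div_le_iff_le_mul (Or.inl hF0) (Or.inl hfin)]
    have h2 := count_lower Λ (ρ := ρ) (s := r - R - ρ) F fund hρ
    rw [sub_add_cancel] at h2
    exact h2
  have hle : ∀ᶠ r : ℝ in atTop,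
      ENNReal.ofReal (((r + (-R - ρ)) / r) ^ 3) * (2 * V / volume F) ≤
      (∑' i, volume (P i ∩ Metric.closedBall (0 : E3) r)) /
      volume (Metric.closedBall (0 : E3) r) := by
    filter_upwards [eventually_gt_atTop (0 : ℝ), eventually_gt_atTop (R + ρ)] with r hr0 hr1
    have hr2 : 0 ≤ r - R - ρ := by linarith
    calc ENNReal.ofReal (((r + (-R - ρ)) / r) ^ 3) * (2 * V / volume F)
        = volume (Metric.closedBall (0 : E3) (r - R - ρ)) / volume F * (2 * V) /
          volume (Metric.closedBall (0 : E3) r) := by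
          rw [vol_closedBall_eq hr2, vol_closedBall_eq hr0.le]
          have hr3 : ENNReal.ofReal (r ^ 3) ≠ 0 := (ENNReal.ofReal_pos.2 (by positivity)).ne'
          have e1 : r + (-R - ρ) = r - R - ρ := by ring
          rw [e1, div_pow, ENNReal.ofReal_div_of_pos (by positivity)]
          simp only [div_eq_mul_inv]
          rw [ENNReal.mul_inv (Or.inl hr3) (Or.inl ENNReal.ofReal_ne_top)]
          symm
          calc ENNReal.ofReal ((r - R - ρ) ^ 3) * volume (Metric.closedBall (0 : E3) 1) *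
                (volume F)⁻¹ * (2 * V) *
                ((ENNReal.ofReal (r ^ 3))⁻¹ * (volume (Metric.closedBall (0 : E3) 1))⁻¹)
              = (volume (Metric.closedBall (0 : E3) 1) *
                (volume (Metric.closedBall (0 : E3) 1))⁻¹) *
                (ENNReal.ofReal ((r - R - ρ) ^ 3) * (ENNReal.ofReal (r ^ 3))⁻¹ *
                (2 * V * (volume F)⁻¹)) := by ring
            _ = _ := by rw [ENNReal.mul_inv_cancel hB1 hB1', one_mul]
      _ ≤ _ := by gcongr; exact hsum r
  have hlim : Tendsto (fun r : ℝ => ENNReal.ofReal (((r + (-R - ρ)) / r) ^ 3) *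
      (2 * V / volume F)) atTop (𝓝 (1 * (2 * V / volume F))) :=
    ENNReal.Tendsto.mul_const (ratio_tendsto _) (Or.inl one_ne_zero)
  rw [one_mul] at hlim
  calc 2 * V / volume F = limsup (fun r : ℝ => ENNReal.ofReal (((r + (-R - ρ)) / r) ^ 3) *
      (2 * V / volume F)) atTop := hlim.limsup_eq.symm
    _ ≤ famDensity P := limsup_le_limsup hle

end Pool.Agent.Helper84.Dbl
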