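import Pool.Agent.Helper84.Tet.Defs
import Pool.Agent.Helper84.Dbl.LeafA_0
import Pool.Agent.Helper84.Dbl.LeafA_1
import Pool.Agent.Helper84.Dbl.LeafA_2
import Pool.Agent.Helper84.Dbl.LeafA_3
import Pool.Agent.Helper84.Dbl.LeafA_4
import Pool.Agent.Helper84.Dbl.LeafA_5
import Pool.Agent.Helper84.Dbl.LeafA_6
import Pool.Agent.Helper84.Dbl.LeafA_7
set_option autoImplicit false
set_option maxRecDepth 100000
set_option linter.unusedVariables false
namespace Pool.Agent.Helper84.Dbl
open Pool.Agent.Helper84.Tet (OutD Adm)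

private theorem h99_class_A_1 (a b c x u y v z w : ℝ)
    (ha : 0 ≤ a) (hb : 0 ≤ b) (hc : 0 ≤ c) (hx : 0 ≤ x) (hu : 0 ≤ u) (hy : 0 ≤ y) (hv : 0 ≤ v) (hz : 0 ≤ z) (hw : 0 ≤ w)
    (r1 : 0 ≤ -a - x - z + 2) (r2 : 0 ≤ -b - u - y + 2) (r3 : 0 ≤ -c - v - w + 2) (k1 : 0 ≤ -a + (13/25)) (k2 : 0 ≤ -b + (13/25)) (k3 : 0 ≤ -c + (13/25))
    (hadm : Adm OutD (2 + a) (-x) (-z) (-u) (2 + b) (-y) (-w) (-v) (2 + c)) :
    0 ≤ a - u - w ∨ 0 ≤ b - x - v ∨ 0 ≤ c - y - z ∨ 0 ≤ a + b + c - x - u - y - v - z - w + 2 ∨ 0 ≤ -a + b + c - x + u - y - v - z + w - 2 ∨ 0 ≤ a - b + c + x - u - y + v - z - w - 2 ∨ 0 ≤ a + b - c - x - u + y - v + z - w - 2 := by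
  rcases hadm.o111.alts with h | h | h | h | h | h | h | h | h | h | h | h | h | h
  · exact Or.inl (by linarith only [h])
  · exact Or.inr (Or.inr (Or.inr (Or.inr (Or.inl (by linarith only [ha, hb, hc, r1, r2, r3, h])))))
  · exact Or.inr (Or.inl (by linarith only [h]))
  · exact Or.inr (Or.inr (Or.inr (Or.inr (Or.inr (Or.inl (by linarith only [ha, hb, hc, r1, r2, r3, h]))))))
  · exact Or.inr (Or.inr (Or.inl (by linarith only [h])))
  · exact Or.inr (Or.inr (Or.inr (Or.inr (Or.inr (Or.inr (by linarith only [ha, hb, hc, r1, r2, r3, h]))))))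
  · exact Or.inr (Or.inr (Or.inr (Or.inl (by linarith only [h]))))
  · exact Or.inr (Or.inr (Or.inr (Or.inr (Or.inl (by linarith only [h])))))
  · exact Or.inr (Or.inr (Or.inr (Or.inr (Or.inr (Or.inl (by linarith only [h]))))))
  · exact Or.inr (Or.inr (Or.inl (by linarith only [ha, hb, hc, r1, r2, r3, h])))
  · exact Or.inr (Or.inr (Or.inr (Or.inr (Or.inr (Or.inr (by linarith only [h]))))))
  · exact Or.inr (Or.inl (by linarith only [ha, hb, hc, r1, r2, r3, h]))
  · exact Or.inl (by linarith only [ha, hb, hc, r1, r2, r3, h])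
  · exfalso; linarith only [ha, hb, hc, r1, r2, r3, h]

private theorem h99_class_A_2 (a b c x u y v z w : ℝ)
    (ha : 0 ≤ a) (hb : 0 ≤ b) (hc : 0 ≤ c) (hx : 0 ≤ x) (hu : 0 ≤ u) (hy : 0 ≤ y) (hv : 0 ≤ v) (hz : 0 ≤ z) (hw : 0 ≤ w)
    (r1 : 0 ≤ -a - x - z + 2) (r2 : 0 ≤ -b - u - y + 2) (r3 : 0 ≤ -c - v - w + 2) (k1 : 0 ≤ -a + (13/25)) (k2 : 0 ≤ -b + (13/25)) (k3 : 0 ≤ -c + (13/25))
    (hadm : Adm OutD (2 + a) (-x) (-z) (-u) (2 + b) (-y) (-w) (-v) (2 + c)) (d1 : 0 ≤ a - u - w) :
    0 ≤ b - v ∨ 0 ≤ c - y ∨ 0 ≤ b + c + u - y - v + w := by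
  rcases hadm.o011.alts with h | h | h | h | h | h | h | h | h | h | h | h | h | h
  · exfalso; linarith only [hu, hw, h]
  · exfalso; linarith only [k1, d1, h]
  · exact Or.inl (by linarith only [h])
  · exfalso; linarith only [hb, hc, hw, r3, h]
  · exact Or.inr (Or.inl (by linarith only [h]))
  · exfalso; linarith only [hb, hc, hu, r2, h]
  · exact Or.inr (Or.inr (by linarith only [hu, hw, h]))
  · exact Or.inr (Or.inr (by linarith only [h]))
  · exfalso; linarith only [hb, hu, hy, hw, r3, h]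
  · exfalso; linarith only [hb, hy, hw, r3, k1, d1, h]
  · exfalso; linarith only [hc, hu, hv, hw, r2, h]
  · exfalso; linarith only [hc, hu, hv, r2, k1, d1, h]
  · exfalso; linarith only [hb, hc, hu, hw, r2, r3, h]
  · exfalso; linarith only [hb, hc, r2, r3, h]

private theorem h99_class_A_3 (a b c x u y v z w : ℝ)
    (ha : 0 ≤ a) (hb : 0 ≤ b) (hc : 0 ≤ c) (hx : 0 ≤ x) (hu : 0 ≤ u) (hy : 0 ≤ y) (hv : 0 ≤ v) (hz : 0 ≤ z) (hw : 0 ≤ w)
    (r1 : 0 ≤ -a - x - z + 2) (r2 : 0 ≤ -b - u - y + 2) (r3 : 0 ≤ -c - v - w + 2) (k1 : 0 ≤ -a + (13/25)) (k2 : 0 ≤ -b + (13/25)) (k3 : 0 ≤ -c + (13/25))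
    (hadm : Adm OutD (2 + a) (-x) (-z) (-u) (2 + b) (-y) (-w) (-v) (2 + c)) (d1 : 0 ≤ b - x - v) :
    0 ≤ a - w ∨ 0 ≤ c - z ∨ 0 ≤ a + c + x + v - z - w := by
  rcases hadm.o101.alts with h | h | h | h | h | h | h | h | h | h | h | h | h | h
  · exact Or.inl (by linarith only [h])
  · exfalso; linarith only [ha, hc, hv, r3, h]
  · exfalso; linarith only [hx, hv, h]
  · exfalso; linarith only [k2, d1, h]
  · exact Or.inr (Or.inl (by linarith only [h]))
  · exfalso; linarith only [ha, hc, hx, r1, h]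
  · exact Or.inr (Or.inr (by linarith only [hx, hv, h]))
  · exfalso; linarith only [ha, hx, hv, hz, r3, h]
  · exact Or.inr (Or.inr (by linarith only [h]))
  · exfalso; linarith only [ha, hv, hz, r3, k2, d1, h]
  · exfalso; linarith only [hc, hx, hv, hw, r1, h]
  · exfalso; linarith only [ha, hc, hx, hv, r1, r3, h]
  · exfalso; linarith only [hc, hx, hw, r1, k2, d1, h]
  · exfalso; linarith only [ha, hc, r1, r3, h]

private theorem h99_class_A_4 (a b c x u y v z w : ℝ)
    (ha : 0 ≤ a) (hb : 0 ≤ b) (hc : 0 ≤ c) (hx : 0 ≤ x) (hu : 0 ≤ u) (hy : 0 ≤ y) (hv : 0 ≤ v) (hz : 0 ≤ z) (hw : 0 ≤ w)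
    (r1 : 0 ≤ -a - x - z + 2) (r2 : 0 ≤ -b - u - y + 2) (r3 : 0 ≤ -c - v - w + 2) (k1 : 0 ≤ -a + (13/25)) (k2 : 0 ≤ -b + (13/25)) (k3 : 0 ≤ -c + (13/25))
    (hadm : Adm OutD (2 + a) (-x) (-z) (-u) (2 + b) (-y) (-w) (-v) (2 + c)) (d1 : 0 ≤ c - y - z) :
    0 ≤ a - u ∨ 0 ≤ b - x ∨ 0 ≤ a + b - x - u + y + z := by
  rcases hadm.o110.alts with h | h | h | h | h | h | h | h | h | h | h | h | h | h
  · exact Or.inl (by linarith only [h])
  · exfalso; linarith only [ha, hb, hy, r2, h]
  · exact Or.inr (Or.inl (by linarith only [h]))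
  · exfalso; linarith only [ha, hb, hz, r1, h]
  · exfalso; linarith only [hy, hz, h]
  · exfalso; linarith only [k3, d1, h]
  · exact Or.inr (Or.inr (by linarith only [hy, hz, h]))
  · exfalso; linarith only [ha, hx, hy, hz, r2, h]
  · exfalso; linarith only [hb, hu, hy, hz, r1, h]
  · exfalso; linarith only [ha, hb, hy, hz, r1, r2, h]
  · exact Or.inr (Or.inr (by linarith only [h]))
  · exfalso; linarith only [ha, hx, hy, r2, k3, d1, h]
  · exfalso; linarith only [hb, hu, hz, r1, k3, d1, h]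
  · exfalso; linarith only [ha, hb, r1, r2, h]

private theorem h99_class_A_5 (a b c x u y v z w : ℝ)
    (ha : 0 ≤ a) (hb : 0 ≤ b) (hc : 0 ≤ c) (hx : 0 ≤ x) (hu : 0 ≤ u) (hy : 0 ≤ y) (hv : 0 ≤ v) (hz : 0 ≤ z) (hw : 0 ≤ w)
    (r1 : 0 ≤ -a - x - z + 2) (r2 : 0 ≤ -b - u - y + 2) (r3 : 0 ≤ -c - v - w + 2) (k1 : 0 ≤ -a + (13/25)) (k2 : 0 ≤ -b + (13/25)) (k3 : 0 ≤ -c + (13/25))
    (hadm : Adm OutD (2 + a) (-x) (-z) (-u) (2 + b) (-y) (-w) (-v) (2 + c)) (d1 : 0 ≤ a + b + c - x - u - y - v - z - w + 2) :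
    0 ≤ a - w ∨ 0 ≤ c - z ∨ 0 ≤ a + c + x + v - z - w := by
  rcases hadm.o101.alts with h | h | h | h | h | h | h | h | h | h | h | h | h | h
  · exact Or.inl (by linarith only [h])
  · exfalso; linarith only [ha, hc, hv, r3, h]
  · exfalso; linarith only [hx, hv, h]
  · exact Or.inr (Or.inr (by linarith only [ha, hc, r1, r3, h]))
  · exact Or.inr (Or.inl (by linarith only [h]))
  · exfalso; linarith only [ha, hc, hx, r1, h]
  · exact Or.inr (Or.inr (by linarith only [hx, hv, h]))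
  · exfalso; linarith only [ha, hx, hv, hz, r3, h]
  · exact Or.inr (Or.inr (by linarith only [h]))
  · exfalso; linarith only [hu, hy, hz, k2, k3, d1, h]
  · exfalso; linarith only [hc, hx, hv, hw, r1, h]
  · exfalso; linarith only [ha, hc, hx, hv, r1, r3, h]
  · exfalso; linarith only [hu, hy, hw, k1, k2, d1, h]
  · exfalso; linarith only [ha, hc, r1, r3, h]

private theorem h99_class_A_6 (a b c x u y v z w : ℝ)
    (ha : 0 ≤ a) (hb : 0 ≤ b) (hc : 0 ≤ c) (hx : 0 ≤ x) (hu : 0 ≤ u) (hy : 0 ≤ y) (hv : 0 ≤ v) (hz : 0 ≤ z) (hw : 0 ≤ w)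
    (r1 : 0 ≤ -a - x - z + 2) (r2 : 0 ≤ -b - u - y + 2) (r3 : 0 ≤ -c - v - w + 2) (k1 : 0 ≤ -a + (13/25)) (k2 : 0 ≤ -b + (13/25)) (k3 : 0 ≤ -c + (13/25))
    (hadm : Adm OutD (2 + a) (-x) (-z) (-u) (2 + b) (-y) (-w) (-v) (2 + c)) (d1 : 0 ≤ a + b + c - x - u - y - v - z - w + 2) (d2 : 0 ≤ a - w) :
    0 ≤ b - v ∨ 0 ≤ c - y ∨ 0 ≤ b + c + u - y - v + w := by
  rcases hadm.o011.alts with h | h | h | h | h | h | h | h | h | h | h | h | h | h
  · exfalso; linarith only [hu, hw, h]
  · exact Or.inr (Or.inr (by linarith only [hb, hc, r2, r3, h]))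
  · exact Or.inl (by linarith only [h])
  · exfalso; linarith only [hb, hc, hw, r3, h]
  · exact Or.inr (Or.inl (by linarith only [h]))
  · exfalso; linarith only [hb, hc, hu, r2, h]
  · exact Or.inr (Or.inr (by linarith only [hu, hw, h]))
  · exact Or.inr (Or.inr (by linarith only [h]))
  · exfalso; linarith only [hb, hu, hy, hw, r3, h]
  · exfalso; linarith only [hx, hy, hz, k1, k3, d1, h]
  · exfalso; linarith only [hc, hu, hv, hw, r2, h]
  · exfalso; linarith only [hc, hv, r2, k1, d2, h]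
  · exfalso; linarith only [hb, hc, hu, hw, r2, r3, h]
  · exfalso; linarith only [hb, hc, r2, r3, h]

private theorem h99_class_A_7 (a b c x u y v z w : ℝ)
    (ha : 0 ≤ a) (hb : 0 ≤ b) (hc : 0 ≤ c) (hx : 0 ≤ x) (hu : 0 ≤ u) (hy : 0 ≤ y) (hv : 0 ≤ v) (hz : 0 ≤ z) (hw : 0 ≤ w)
    (r1 : 0 ≤ -a - x - z + 2) (r2 : 0 ≤ -b - u - y + 2) (r3 : 0 ≤ -c - v - w + 2) (k1 : 0 ≤ -a + (13/25)) (k2 : 0 ≤ -b + (13/25)) (k3 : 0 ≤ -c + (13/25))
    (hadm : Adm OutD (2 + a) (-x) (-z) (-u) (2 + b) (-y) (-w) (-v) (2 + c)) (d1 : 0 ≤ a + b + c - x - u - y - v - z - w + 2) :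
    0 ≤ a - u ∨ 0 ≤ b - x ∨ 0 ≤ a + b - x - u + y + z := by
  rcases hadm.o110.alts with h | h | h | h | h | h | h | h | h | h | h | h | h | h
  · exact Or.inl (by linarith only [h])
  · exfalso; linarith only [ha, hb, hy, r2, h]
  · exact Or.inr (Or.inl (by linarith only [h]))
  · exfalso; linarith only [ha, hb, hz, r1, h]
  · exfalso; linarith only [hy, hz, h]
  · exact Or.inr (Or.inr (by linarith only [ha, hb, r1, r2, h]))
  · exact Or.inr (Or.inr (by linarith only [hy, hz, h]))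
  · exfalso; linarith only [ha, hx, hy, hz, r2, h]
  · exfalso; linarith only [hb, hu, hy, hz, r1, h]
  · exfalso; linarith only [ha, hb, hy, hz, r1, r2, h]
  · exact Or.inr (Or.inr (by linarith only [h]))
  · exfalso; linarith only [hx, hv, hw, k2, k3, d1, h]
  · exfalso; linarith only [hu, hv, hw, k1, k3, d1, h]
  · exfalso; linarith only [ha, hb, r1, r2, h]

private theorem h99_class_A_8 (a b c x u y v z w : ℝ)
    (ha : 0 ≤ a) (hb : 0 ≤ b) (hc : 0 ≤ c) (hx : 0 ≤ x) (hu : 0 ≤ u) (hy : 0 ≤ y) (hv : 0 ≤ v) (hz : 0 ≤ z) (hw : 0 ≤ w)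
    (r1 : 0 ≤ -a - x - z + 2) (r2 : 0 ≤ -b - u - y + 2) (r3 : 0 ≤ -c - v - w + 2) (k1 : 0 ≤ -a + (13/25)) (k2 : 0 ≤ -b + (13/25)) (k3 : 0 ≤ -c + (13/25))
    (hadm : Adm OutD (2 + a) (-x) (-z) (-u) (2 + b) (-y) (-w) (-v) (2 + c)) (d1 : 0 ≤ a + b + c - x - u - y - v - z - w + 2) (d3 : 0 ≤ c - y) :
    0 ≤ a - u ∨ 0 ≤ b - x ∨ 0 ≤ a + b - x - u + y + z := by
  rcases hadm.o110.alts with h | h | h | h | h | h | h | h | h | h | h | h | h | h
  · exact Or.inl (by linarith only [h])
  · exfalso; linarith only [ha, hb, hy, r2, h]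
  · exact Or.inr (Or.inl (by linarith only [h]))
  · exfalso; linarith only [ha, hb, hz, r1, h]
  · exfalso; linarith only [hy, hz, h]
  · exact Or.inr (Or.inr (by linarith only [ha, hb, r1, r2, h]))
  · exact Or.inr (Or.inr (by linarith only [hy, hz, h]))
  · exfalso; linarith only [ha, hx, hy, hz, r2, h]
  · exfalso; linarith only [hb, hu, hy, hz, r1, h]
  · exfalso; linarith only [ha, hb, hy, hz, r1, r2, h]
  · exact Or.inr (Or.inr (by linarith only [h]))
  · exfalso; linarith only [hx, hv, hw, k2, k3, d1, h]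
  · exfalso; linarith only [hb, hu, r1, k3, d3, h]
  · exfalso; linarith only [ha, hb, r1, r2, h]

private theorem h99_class_A_9 (a b c x u y v z w : ℝ)
    (ha : 0 ≤ a) (hb : 0 ≤ b) (hc : 0 ≤ c) (hx : 0 ≤ x) (hu : 0 ≤ u) (hy : 0 ≤ y) (hv : 0 ≤ v) (hz : 0 ≤ z) (hw : 0 ≤ w)
    (r1 : 0 ≤ -a - x - z + 2) (r2 : 0 ≤ -b - u - y + 2) (r3 : 0 ≤ -c - v - w + 2) (k1 : 0 ≤ -a + (13/25)) (k2 : 0 ≤ -b + (13/25)) (k3 : 0 ≤ -c + (13/25))
    (hadm : Adm OutD (2 + a) (-x) (-z) (-u) (2 + b) (-y) (-w) (-v) (2 + c)) (d1 : 0 ≤ a + b + c - x - u - y - v - z - w + 2) (d3 : 0 ≤ b + c + u - y - v + w) :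
    0 ≤ a - u ∨ 0 ≤ b - x ∨ 0 ≤ a + b - x - u + y + z := by
  rcases hadm.o110.alts with h | h | h | h | h | h | h | h | h | h | h | h | h | h
  · exact Or.inl (by linarith only [h])
  · exfalso; linarith only [ha, hb, hy, r2, h]
  · exact Or.inr (Or.inl (by linarith only [h]))
  · exfalso; linarith only [ha, hb, hz, r1, h]
  · exfalso; linarith only [hy, hz, h]
  · exact Or.inr (Or.inr (by linarith only [ha, hb, r1, r2, h]))
  · exact Or.inr (Or.inr (by linarith only [hy, hz, h]))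
  · exfalso; linarith only [ha, hx, hy, hz, r2, h]
  · exfalso; linarith only [hb, hu, hy, hz, r1, h]
  · exfalso; linarith only [ha, hb, hy, hz, r1, r2, h]
  · exact Or.inr (Or.inr (by linarith only [h]))
  · exfalso; linarith only [hx, hv, hw, k2, k3, d1, h]
  · exfalso; linarith only [hu, hv, r1, k1, k3, d1, d3, h]
  · exfalso; linarith only [ha, hb, r1, r2, h]

private theorem h99_class_A_10 (a b c x u y v z w : ℝ)
    (ha : 0 ≤ a) (hb : 0 ≤ b) (hc : 0 ≤ c) (hx : 0 ≤ x) (hu : 0 ≤ u) (hy : 0 ≤ y) (hv : 0 ≤ v) (hz : 0 ≤ z) (hw : 0 ≤ w)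
    (r1 : 0 ≤ -a - x - z + 2) (r2 : 0 ≤ -b - u - y + 2) (r3 : 0 ≤ -c - v - w + 2) (k1 : 0 ≤ -a + (13/25)) (k2 : 0 ≤ -b + (13/25)) (k3 : 0 ≤ -c + (13/25))
    (hadm : Adm OutD (2 + a) (-x) (-z) (-u) (2 + b) (-y) (-w) (-v) (2 + c)) (d1 : 0 ≤ a + b + c - x - u - y - v - z - w + 2) :
    0 ≤ b - v ∨ 0 ≤ c - y ∨ 0 ≤ b + c + u - y - v + w := by
  rcases hadm.o011.alts with h | h | h | h | h | h | h | h | h | h | h | h | h | h
  · exfalso; linarith only [hu, hw, h]
  · exact Or.inr (Or.inr (by linarith only [hb, hc, r2, r3, h]))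
  · exact Or.inl (by linarith only [h])
  · exfalso; linarith only [hb, hc, hw, r3, h]
  · exact Or.inr (Or.inl (by linarith only [h]))
  · exfalso; linarith only [hb, hc, hu, r2, h]
  · exact Or.inr (Or.inr (by linarith only [hu, hw, h]))
  · exact Or.inr (Or.inr (by linarith only [h]))
  · exfalso; linarith only [hb, hu, hy, hw, r3, h]
  · exfalso; linarith only [hx, hy, hz, k1, k3, d1, h]
  · exfalso; linarith only [hc, hu, hv, hw, r2, h]
  · exfalso; linarith only [hx, hv, hz, k1, k2, d1, h]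
  · exfalso; linarith only [hb, hc, hu, hw, r2, r3, h]
  · exfalso; linarith only [hb, hc, r2, r3, h]

private theorem h99_class_A_11 (a b c x u y v z w : ℝ)
    (ha : 0 ≤ a) (hb : 0 ≤ b) (hc : 0 ≤ c) (hx : 0 ≤ x) (hu : 0 ≤ u) (hy : 0 ≤ y) (hv : 0 ≤ v) (hz : 0 ≤ z) (hw : 0 ≤ w)
    (r1 : 0 ≤ -a - x - z + 2) (r2 : 0 ≤ -b - u - y + 2) (r3 : 0 ≤ -c - v - w + 2) (k1 : 0 ≤ -a + (13/25)) (k2 : 0 ≤ -b + (13/25)) (k3 : 0 ≤ -c + (13/25))
    (hadm : Adm OutD (2 + a) (-x) (-z) (-u) (2 + b) (-y) (-w) (-v) (2 + c)) (d1 : 0 ≤ a + b + c - x - u - y - v - z - w + 2) (d2 : 0 ≤ c - z) :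
    0 ≤ a - u ∨ 0 ≤ b - x ∨ 0 ≤ a + b - x - u + y + z := by
  rcases hadm.o110.alts with h | h | h | h | h | h | h | h | h | h | h | h | h | h
  · exact Or.inl (by linarith only [h])
  · exfalso; linarith only [ha, hb, hy, r2, h]
  · exact Or.inr (Or.inl (by linarith only [h]))
  · exfalso; linarith only [ha, hb, hz, r1, h]
  · exfalso; linarith only [hy, hz, h]
  · exact Or.inr (Or.inr (by linarith only [ha, hb, r1, r2, h]))
  · exact Or.inr (Or.inr (by linarith only [hy, hz, h]))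
  · exfalso; linarith only [ha, hx, hy, hz, r2, h]
  · exfalso; linarith only [hb, hu, hy, hz, r1, h]
  · exfalso; linarith only [ha, hb, hy, hz, r1, r2, h]
  · exact Or.inr (Or.inr (by linarith only [h]))
  · exfalso; linarith only [ha, hx, r2, k3, d2, h]
  · exfalso; linarith only [hu, hv, hw, k1, k3, d1, h]
  · exfalso; linarith only [ha, hb, r1, r2, h]

private theorem h99_class_A_12 (a b c x u y v z w : ℝ)
    (ha : 0 ≤ a) (hb : 0 ≤ b) (hc : 0 ≤ c) (hx : 0 ≤ x) (hu : 0 ≤ u) (hy : 0 ≤ y) (hv : 0 ≤ v) (hz : 0 ≤ z) (hw : 0 ≤ w)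
    (r1 : 0 ≤ -a - x - z + 2) (r2 : 0 ≤ -b - u - y + 2) (r3 : 0 ≤ -c - v - w + 2) (k1 : 0 ≤ -a + (13/25)) (k2 : 0 ≤ -b + (13/25)) (k3 : 0 ≤ -c + (13/25))
    (hadm : Adm OutD (2 + a) (-x) (-z) (-u) (2 + b) (-y) (-w) (-v) (2 + c)) (d2 : 0 ≤ c - z) (d3 : 0 ≤ c - y) :
    0 ≤ a - u ∨ 0 ≤ b - x ∨ 0 ≤ a + b - x - u + y + z := by
  rcases hadm.o110.alts with h | h | h | h | h | h | h | h | h | h | h | h | h | h
  · exact Or.inl (by linarith only [h])
  · exfalso; linarith only [ha, hb, hy, r2, h]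
  · exact Or.inr (Or.inl (by linarith only [h]))
  · exfalso; linarith only [ha, hb, hz, r1, h]
  · exfalso; linarith only [hy, hz, h]
  · exfalso; linarith only [k3, d2, d3, h]
  · exact Or.inr (Or.inr (by linarith only [hy, hz, h]))
  · exfalso; linarith only [ha, hx, hy, hz, r2, h]
  · exfalso; linarith only [hb, hu, hy, hz, r1, h]
  · exfalso; linarith only [ha, hb, hy, hz, r1, r2, h]
  · exact Or.inr (Or.inr (by linarith only [h]))
  · exfalso; linarith only [ha, hx, r2, k3, d2, h]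
  · exfalso; linarith only [hb, hu, r1, k3, d3, h]
  · exfalso; linarith only [ha, hb, r1, r2, h]

private theorem h99_class_A_13 (a b c x u y v z w : ℝ)
    (ha : 0 ≤ a) (hb : 0 ≤ b) (hc : 0 ≤ c) (hx : 0 ≤ x) (hu : 0 ≤ u) (hy : 0 ≤ y) (hv : 0 ≤ v) (hz : 0 ≤ z) (hw : 0 ≤ w)
    (r1 : 0 ≤ -a - x - z + 2) (r2 : 0 ≤ -b - u - y + 2) (r3 : 0 ≤ -c - v - w + 2) (k1 : 0 ≤ -a + (13/25)) (k2 : 0 ≤ -b + (13/25)) (k3 : 0 ≤ -c + (13/25))
    (hadm : Adm OutD (2 + a) (-x) (-z) (-u) (2 + b) (-y) (-w) (-v) (2 + c)) (d1 : 0 ≤ a + b + c - x - u - y - v - z - w + 2) (d2 : 0 ≤ c - z) (d3 : 0 ≤ b + c + u - y - v + w) :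
    0 ≤ a - u ∨ 0 ≤ b - x ∨ 0 ≤ a + b - x - u + y + z := by
  rcases hadm.o110.alts with h | h | h | h | h | h | h | h | h | h | h | h | h | h
  · exact Or.inl (by linarith only [h])
  · exfalso; linarith only [ha, hb, hy, r2, h]
  · exact Or.inr (Or.inl (by linarith only [h]))
  · exfalso; linarith only [ha, hb, hz, r1, h]
  · exfalso; linarith only [hy, hz, h]
  · exact Or.inr (Or.inr (by linarith only [ha, hb, r1, r2, h]))
  · exact Or.inr (Or.inr (by linarith only [hy, hz, h]))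
  · exfalso; linarith only [ha, hx, hy, hz, r2, h]
  · exfalso; linarith only [hb, hu, hy, hz, r1, h]
  · exfalso; linarith only [ha, hb, hy, hz, r1, r2, h]
  · exact Or.inr (Or.inr (by linarith only [h]))
  · exfalso; linarith only [ha, hx, r2, k3, d2, h]
  · exfalso; linarith only [hu, hv, r1, k1, k3, d1, d3, h]
  · exfalso; linarith only [ha, hb, r1, r2, h]

private theorem h99_class_A_14 (a b c x u y v z w : ℝ)
    (ha : 0 ≤ a) (hb : 0 ≤ b) (hc : 0 ≤ c) (hx : 0 ≤ x) (hu : 0 ≤ u) (hy : 0 ≤ y) (hv : 0 ≤ v) (hz : 0 ≤ z) (hw : 0 ≤ w)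
    (r1 : 0 ≤ -a - x - z + 2) (r2 : 0 ≤ -b - u - y + 2) (r3 : 0 ≤ -c - v - w + 2) (k1 : 0 ≤ -a + (13/25)) (k2 : 0 ≤ -b + (13/25)) (k3 : 0 ≤ -c + (13/25))
    (hadm : Adm OutD (2 + a) (-x) (-z) (-u) (2 + b) (-y) (-w) (-v) (2 + c)) (d1 : 0 ≤ a + b + c - x - u - y - v - z - w + 2) (d2 : 0 ≤ a + c + x + v - z - w) :
    0 ≤ a - u ∨ 0 ≤ b - x ∨ 0 ≤ a + b - x - u + y + z := by
  rcases hadm.o110.alts with h | h | h | h | h | h | h | h | h | h | h | h | h | h
  · exact Or.inl (by linarith only [h])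
  · exfalso; linarith only [ha, hb, hy, r2, h]
  · exact Or.inr (Or.inl (by linarith only [h]))
  · exfalso; linarith only [ha, hb, hz, r1, h]
  · exfalso; linarith only [hy, hz, h]
  · exact Or.inr (Or.inr (by linarith only [ha, hb, r1, r2, h]))
  · exact Or.inr (Or.inr (by linarith only [hy, hz, h]))
  · exfalso; linarith only [ha, hx, hy, hz, r2, h]
  · exfalso; linarith only [hb, hu, hy, hz, r1, h]
  · exfalso; linarith only [ha, hb, hy, hz, r1, r2, h]
  · exact Or.inr (Or.inr (by linarith only [h]))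
  · exfalso; linarith only [hx, hw, r2, k2, k3, d1, d2, h]
  · exfalso; linarith only [hu, hv, hw, k1, k3, d1, h]
  · exfalso; linarith only [ha, hb, r1, r2, h]

private theorem h99_class_A_15 (a b c x u y v z w : ℝ)
    (ha : 0 ≤ a) (hb : 0 ≤ b) (hc : 0 ≤ c) (hx : 0 ≤ x) (hu : 0 ≤ u) (hy : 0 ≤ y) (hv : 0 ≤ v) (hz : 0 ≤ z) (hw : 0 ≤ w)
    (r1 : 0 ≤ -a - x - z + 2) (r2 : 0 ≤ -b - u - y + 2) (r3 : 0 ≤ -c - v - w + 2) (k1 : 0 ≤ -a + (13/25)) (k2 : 0 ≤ -b + (13/25)) (k3 : 0 ≤ -c + (13/25))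
    (hadm : Adm OutD (2 + a) (-x) (-z) (-u) (2 + b) (-y) (-w) (-v) (2 + c)) (d1 : 0 ≤ a + b + c - x - u - y - v - z - w + 2) (d2 : 0 ≤ a + c + x + v - z - w) (d3 : 0 ≤ a - u) :
    0 ≤ b - v ∨ 0 ≤ c - y ∨ 0 ≤ b + c + u - y - v + w := by
  rcases hadm.o011.alts with h | h | h | h | h | h | h | h | h | h | h | h | h | h
  · exfalso; linarith only [hu, hw, h]
  · exact Or.inr (Or.inr (by linarith only [hb, hc, r2, r3, h]))
  · exact Or.inl (by linarith only [h])
  · exfalso; linarith only [hb, hc, hw, r3, h]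
  · exact Or.inr (Or.inl (by linarith only [h]))
  · exfalso; linarith only [hb, hc, hu, r2, h]
  · exact Or.inr (Or.inr (by linarith only [hu, hw, h]))
  · exact Or.inr (Or.inr (by linarith only [h]))
  · exfalso; linarith only [hb, hu, hy, hw, r3, h]
  · exfalso; linarith only [hb, hy, r3, k1, d3, h]
  · exfalso; linarith only [hc, hu, hv, hw, r2, h]
  · exfalso; linarith only [hv, hz, r2, k1, k2, d1, d2, h]
  · exfalso; linarith only [hb, hc, hu, hw, r2, r3, h]
  · exfalso; linarith only [hb, hc, r2, r3, h]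

private theorem h99_class_A_16 (a b c x u y v z w : ℝ)
    (ha : 0 ≤ a) (hb : 0 ≤ b) (hc : 0 ≤ c) (hx : 0 ≤ x) (hu : 0 ≤ u) (hy : 0 ≤ y) (hv : 0 ≤ v) (hz : 0 ≤ z) (hw : 0 ≤ w)
    (r1 : 0 ≤ -a - x - z + 2) (r2 : 0 ≤ -b - u - y + 2) (r3 : 0 ≤ -c - v - w + 2) (k1 : 0 ≤ -a + (13/25)) (k2 : 0 ≤ -b + (13/25)) (k3 : 0 ≤ -c + (13/25))
    (hadm : Adm OutD (2 + a) (-x) (-z) (-u) (2 + b) (-y) (-w) (-v) (2 + c)) (d1 : 0 ≤ a + b + c - x - u - y - v - z - w + 2) (d2 : 0 ≤ a + c + x + v - z - w) :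
    0 ≤ b - v ∨ 0 ≤ c - y ∨ 0 ≤ b + c + u - y - v + w := by
  rcases hadm.o011.alts with h | h | h | h | h | h | h | h | h | h | h | h | h | h
  · exfalso; linarith only [hu, hw, h]
  · exact Or.inr (Or.inr (by linarith only [hb, hc, r2, r3, h]))
  · exact Or.inl (by linarith only [h])
  · exfalso; linarith only [hb, hc, hw, r3, h]
  · exact Or.inr (Or.inl (by linarith only [h]))
  · exfalso; linarith only [hb, hc, hu, r2, h]
  · exact Or.inr (Or.inr (by linarith only [hu, hw, h]))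
  · exact Or.inr (Or.inr (by linarith only [h]))
  · exfalso; linarith only [hb, hu, hy, hw, r3, h]
  · exfalso; linarith only [hx, hy, hz, k1, k3, d1, h]
  · exfalso; linarith only [hc, hu, hv, hw, r2, h]
  · exfalso; linarith only [hv, hz, r2, k1, k2, d1, d2, h]
  · exfalso; linarith only [hb, hc, hu, hw, r2, r3, h]
  · exfalso; linarith only [hb, hc, r2, r3, h]

private theorem h99_class_A_17 (a b c x u y v z w : ℝ)
    (ha : 0 ≤ a) (hb : 0 ≤ b) (hc : 0 ≤ c) (hx : 0 ≤ x) (hu : 0 ≤ u) (hy : 0 ≤ y) (hv : 0 ≤ v) (hz : 0 ≤ z) (hw : 0 ≤ w)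
    (r1 : 0 ≤ -a - x - z + 2) (r2 : 0 ≤ -b - u - y + 2) (r3 : 0 ≤ -c - v - w + 2) (k1 : 0 ≤ -a + (13/25)) (k2 : 0 ≤ -b + (13/25)) (k3 : 0 ≤ -c + (13/25))
    (hadm : Adm OutD (2 + a) (-x) (-z) (-u) (2 + b) (-y) (-w) (-v) (2 + c)) (d1 : 0 ≤ a + b + c - x - u - y - v - z - w + 2) (d2 : 0 ≤ a + c + x + v - z - w) (d3 : 0 ≤ a + b - x - u + y + z) :
    0 ≤ b - v ∨ 0 ≤ c - y ∨ 0 ≤ b + c + u - y - v + w := by
  rcases hadm.o011.alts with h | h | h | h | h | h | h | h | h | h | h | h | h | h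
  · exfalso; linarith only [hu, hw, h]
  · exact Or.inr (Or.inr (by linarith only [hb, hc, r2, r3, h]))
  · exact Or.inl (by linarith only [h])
  · exfalso; linarith only [hb, hc, hw, r3, h]
  · exact Or.inr (Or.inl (by linarith only [h]))
  · exfalso; linarith only [hb, hc, hu, r2, h]
  · exact Or.inr (Or.inr (by linarith only [hu, hw, h]))
  · exact Or.inr (Or.inr (by linarith only [h]))
  · exfalso; linarith only [hb, hu, hy, hw, r3, h]
  · exfalso; linarith only [hx, hy, r3, k1, k3, d1, d3, h]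
  · exfalso; linarith only [hc, hu, hv, hw, r2, h]
  · exfalso; linarith only [hv, hz, r2, k1, k2, d1, d2, h]
  · exfalso; linarith only [hb, hc, hu, hw, r2, r3, h]
  · exfalso; linarith only [hb, hc, r2, r3, h]

private theorem h99_class_A_18 (a b c x u y v z w : ℝ)
    (ha : 0 ≤ a) (hb : 0 ≤ b) (hc : 0 ≤ c) (hx : 0 ≤ x) (hu : 0 ≤ u) (hy : 0 ≤ y) (hv : 0 ≤ v) (hz : 0 ≤ z) (hw : 0 ≤ w)
    (r1 : 0 ≤ -a - x - z + 2) (r2 : 0 ≤ -b - u - y + 2) (r3 : 0 ≤ -c - v - w + 2) (k1 : 0 ≤ -a + (13/25)) (k2 : 0 ≤ -b + (13/25)) (k3 : 0 ≤ -c + (13/25))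
    (hadm : Adm OutD (2 + a) (-x) (-z) (-u) (2 + b) (-y) (-w) (-v) (2 + c)) (d1 : 0 ≤ -a + b + c - x + u - y - v - z + w - 2) :
    0 ≤ b - x := by
  rcases hadm.o110.alts with h | h | h | h | h | h | h | h | h | h | h | h | h | h
  · exact by linarith only [hy, hv, hz, r3, d1, h]
  · exfalso; linarith only [ha, hb, hy, r2, h]
  · exact by linarith only [h]
  · exfalso; linarith only [ha, hb, hz, r1, h]
  · exfalso; linarith only [hy, hz, h]
  · exact by linarith only [ha, hb, hv, r1, r2, r3, d1, h]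
  · exact by linarith only [hy, hv, hz, r3, d1, h]
  · exfalso; linarith only [ha, hx, hy, hz, r2, h]
  · exfalso; linarith only [hb, hu, hy, hz, r1, h]
  · exfalso; linarith only [ha, hb, hy, hz, r1, r2, h]
  · exact by linarith only [hv, r3, d1, h]
  · exact by linarith only [ha, hb, r1, r2, h]
  · exfalso; linarith only [hv, r3, d1, h]
  · exfalso; linarith only [ha, hb, r1, r2, h]

private theorem h99_class_A_19 (a b c x u y v z w : ℝ)
    (ha : 0 ≤ a) (hb : 0 ≤ b) (hc : 0 ≤ c) (hx : 0 ≤ x) (hu : 0 ≤ u) (hy : 0 ≤ y) (hv : 0 ≤ v) (hz : 0 ≤ z) (hw : 0 ≤ w)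
    (r1 : 0 ≤ -a - x - z + 2) (r2 : 0 ≤ -b - u - y + 2) (r3 : 0 ≤ -c - v - w + 2) (k1 : 0 ≤ -a + (13/25)) (k2 : 0 ≤ -b + (13/25)) (k3 : 0 ≤ -c + (13/25))
    (hadm : Adm OutD (2 + a) (-x) (-z) (-u) (2 + b) (-y) (-w) (-v) (2 + c)) (d1 : 0 ≤ -a + b + c - x + u - y - v - z + w - 2) (d2 : 0 ≤ b - x) :
    0 ≤ c - z := by
  rcases hadm.o101.alts with h | h | h | h | h | h | h | h | h | h | h | h | h | h
  · exact by linarith only [hx, hy, hv, r2, d1, h]
  · exfalso; linarith only [ha, hc, hv, r3, h]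
  · exfalso; linarith only [hx, hv, h]
  · exfalso; linarith only [ha, hy, hz, r2, r3, k2, d1, d2, h]
  · exact by linarith only [h]
  · exfalso; linarith only [ha, hc, hx, r1, h]
  · exact by linarith only [hx, hy, hv, r2, d1, h]
  · exfalso; linarith only [ha, hx, hv, hz, r3, h]
  · exact by linarith only [hy, r2, d1, h]
  · exfalso; linarith only [ha, hz, r3, k2, d2, h]
  · exfalso; linarith only [hc, hx, hv, hw, r1, h]
  · exfalso; linarith only [ha, hc, hx, hv, r1, r3, h]
  · exfalso; linarith only [hy, r2, d1, h]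
  · exfalso; linarith only [ha, hc, r1, r3, h]

private theorem h99_class_A_20 (a b c x u y v z w : ℝ)
    (ha : 0 ≤ a) (hb : 0 ≤ b) (hc : 0 ≤ c) (hx : 0 ≤ x) (hu : 0 ≤ u) (hy : 0 ≤ y) (hv : 0 ≤ v) (hz : 0 ≤ z) (hw : 0 ≤ w)
    (r1 : 0 ≤ -a - x - z + 2) (r2 : 0 ≤ -b - u - y + 2) (r3 : 0 ≤ -c - v - w + 2) (k1 : 0 ≤ -a + (13/25)) (k2 : 0 ≤ -b + (13/25)) (k3 : 0 ≤ -c + (13/25))
    (hadm : Adm OutD (2 + a) (-x) (-z) (-u) (2 + b) (-y) (-w) (-v) (2 + c)) (d1 : 0 ≤ a - b + c + x - u - y + v - z - w - 2) :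
    0 ≤ a - u := by
  rcases hadm.o110.alts with h | h | h | h | h | h | h | h | h | h | h | h | h | h
  · exact by linarith only [h]
  · exfalso; linarith only [ha, hb, hy, r2, h]
  · exact by linarith only [hy, hz, hw, r3, d1, h]
  · exfalso; linarith only [ha, hb, hz, r1, h]
  · exfalso; linarith only [hy, hz, h]
  · exact by linarith only [ha, hb, hw, r1, r2, r3, d1, h]
  · exact by linarith only [hy, hz, hw, r3, d1, h]
  · exfalso; linarith only [ha, hx, hy, hz, r2, h]
  · exfalso; linarith only [hb, hu, hy, hz, r1, h]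
  · exfalso; linarith only [ha, hb, hy, hz, r1, r2, h]
  · exact by linarith only [hw, r3, d1, h]
  · exfalso; linarith only [hw, r3, d1, h]
  · exact by linarith only [ha, hb, r1, r2, h]
  · exfalso; linarith only [ha, hb, r1, r2, h]

private theorem h99_class_A_21 (a b c x u y v z w : ℝ)
    (ha : 0 ≤ a) (hb : 0 ≤ b) (hc : 0 ≤ c) (hx : 0 ≤ x) (hu : 0 ≤ u) (hy : 0 ≤ y) (hv : 0 ≤ v) (hz : 0 ≤ z) (hw : 0 ≤ w)
    (r1 : 0 ≤ -a - x - z + 2) (r2 : 0 ≤ -b - u - y + 2) (r3 : 0 ≤ -c - v - w + 2) (k1 : 0 ≤ -a + (13/25)) (k2 : 0 ≤ -b + (13/25)) (k3 : 0 ≤ -c + (13/25))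
    (hadm : Adm OutD (2 + a) (-x) (-z) (-u) (2 + b) (-y) (-w) (-v) (2 + c)) (d1 : 0 ≤ a - b + c + x - u - y + v - z - w - 2) (d2 : 0 ≤ a - u) :
    0 ≤ c - y := by
  rcases hadm.o011.alts with h | h | h | h | h | h | h | h | h | h | h | h | h | h
  · exfalso; linarith only [hu, hw, h]
  · exfalso; linarith only [hb, hy, hz, r1, r3, k1, d1, d2, h]
  · exact by linarith only [hu, hz, hw, r1, d1, h]
  · exfalso; linarith only [hb, hc, hw, r3, h]
  · exact by linarith only [h]
  · exfalso; linarith only [hb, hc, hu, r2, h]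
  · exact by linarith only [hu, hz, hw, r1, d1, h]
  · exact by linarith only [hz, r1, d1, h]
  · exfalso; linarith only [hb, hu, hy, hw, r3, h]
  · exfalso; linarith only [hb, hy, r3, k1, d2, h]
  · exfalso; linarith only [hc, hu, hv, hw, r2, h]
  · exfalso; linarith only [hz, r1, d1, h]
  · exfalso; linarith only [hb, hc, hu, hw, r2, r3, h]
  · exfalso; linarith only [hb, hc, r2, r3, h]

private theorem h99_class_A_22 (a b c x u y v z w : ℝ)
    (ha : 0 ≤ a) (hb : 0 ≤ b) (hc : 0 ≤ c) (hx : 0 ≤ x) (hu : 0 ≤ u) (hy : 0 ≤ y) (hv : 0 ≤ v) (hz : 0 ≤ z) (hw : 0 ≤ w)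
    (r1 : 0 ≤ -a - x - z + 2) (r2 : 0 ≤ -b - u - y + 2) (r3 : 0 ≤ -c - v - w + 2) (k1 : 0 ≤ -a + (13/25)) (k2 : 0 ≤ -b + (13/25)) (k3 : 0 ≤ -c + (13/25))
    (hadm : Adm OutD (2 + a) (-x) (-z) (-u) (2 + b) (-y) (-w) (-v) (2 + c)) (d1 : 0 ≤ a + b - c - x - u + y - v + z - w - 2) :
    0 ≤ a - w := by
  rcases hadm.o101.alts with h | h | h | h | h | h | h | h | h | h | h | h | h | h
  · exact by linarith only [h]
  · exfalso; linarith only [ha, hc, hv, r3, h]
  · exfalso; linarith only [hx, hv, h]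
  · exact by linarith only [ha, hc, hu, r1, r2, r3, d1, h]
  · exact by linarith only [hx, hu, hv, r2, d1, h]
  · exfalso; linarith only [ha, hc, hx, r1, h]
  · exact by linarith only [hx, hu, hv, r2, d1, h]
  · exfalso; linarith only [ha, hx, hv, hz, r3, h]
  · exact by linarith only [hu, r2, d1, h]
  · exfalso; linarith only [hu, r2, d1, h]
  · exfalso; linarith only [hc, hx, hv, hw, r1, h]
  · exfalso; linarith only [ha, hc, hx, hv, r1, r3, h]
  · exact by linarith only [ha, hc, r1, r3, h]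
  · exfalso; linarith only [ha, hc, r1, r3, h]

private theorem h99_class_A_23 (a b c x u y v z w : ℝ)
    (ha : 0 ≤ a) (hb : 0 ≤ b) (hc : 0 ≤ c) (hx : 0 ≤ x) (hu : 0 ≤ u) (hy : 0 ≤ y) (hv : 0 ≤ v) (hz : 0 ≤ z) (hw : 0 ≤ w)
    (r1 : 0 ≤ -a - x - z + 2) (r2 : 0 ≤ -b - u - y + 2) (r3 : 0 ≤ -c - v - w + 2) (k1 : 0 ≤ -a + (13/25)) (k2 : 0 ≤ -b + (13/25)) (k3 : 0 ≤ -c + (13/25))
    (hadm : Adm OutD (2 + a) (-x) (-z) (-u) (2 + b) (-y) (-w) (-v) (2 + c)) (d1 : 0 ≤ a + b - c - x - u + y - v + z - w - 2) (d2 : 0 ≤ a - w) :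
    0 ≤ b - v := by
  rcases hadm.o011.alts with h | h | h | h | h | h | h | h | h | h | h | h | h | h
  · exfalso; linarith only [hu, hw, h]
  · exfalso; linarith only [hc, hx, hv, r1, r2, k1, d1, d2, h]
  · exact by linarith only [h]
  · exfalso; linarith only [hb, hc, hw, r3, h]
  · exact by linarith only [hx, hu, hw, r1, d1, h]
  · exfalso; linarith only [hb, hc, hu, r2, h]
  · exact by linarith only [hx, hu, hw, r1, d1, h]
  · exact by linarith only [hx, r1, d1, h]
  · exfalso; linarith only [hb, hu, hy, hw, r3, h]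
  · exfalso; linarith only [hx, r1, d1, h]
  · exfalso; linarith only [hc, hu, hv, hw, r2, h]
  · exfalso; linarith only [hc, hv, r2, k1, d2, h]
  · exfalso; linarith only [hb, hc, hu, hw, r2, r3, h]
  · exfalso; linarith only [hb, hc, r2, r3, h]

theorem class_A (a b c x u y v z w : ℝ)
    (ha : 0 ≤ a) (hb : 0 ≤ b) (hc : 0 ≤ c) (hx : 0 ≤ x) (hu : 0 ≤ u) (hy : 0 ≤ y) (hv : 0 ≤ v) (hz : 0 ≤ z) (hw : 0 ≤ w)
    (r1 : 0 ≤ -a - x - z + 2) (r2 : 0 ≤ -b - u - y + 2) (r3 : 0 ≤ -c - v - w + 2) (k1 : 0 ≤ -a + (13/25)) (k2 : 0 ≤ -b + (13/25)) (k3 : 0 ≤ -c + (13/25))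
    (hadm : Adm OutD (2 + a) (-x) (-z) (-u) (2 + b) (-y) (-w) (-v) (2 + c)) :
    (d2 ≤ (2+a)*(2+b)*(2+c) - x*y*w - z*u*v - (2+a)*(y*v) - (2+b)*(z*w) - (2+c)*(x*u)) ∨
    (0 ≤ a + b - x - u + y + z ∧ 0 ≤ a + c + x + v - z - w ∧ 0 ≤ b + c + u - y - v + w ∧
     0 ≤ a + b + c - x - u - y - v - z - w + 2) := by
  have n0 := h99_class_A_1 a b c x u y v z w ha hb hc hx hu hy hv hz hw r1 r2 r3 k1 k2 k3 hadm
  rcases n0 with d1 | d1 | d1 | d1 | d1 | d1 | d1
  ·
    have n1 := h99_class_A_2 a b c x u y v z w ha hb hc hx hu hy hv hz hw r1 r2 r3 k1 k2 k3 hadm d1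
    rcases n1 with d2 | d2 | d2
    · exact Or.inl (le_trans d2_le (leaf_A_0 a b c x u y v z w ha hb hc hx hu hy hv hz hw r1 r2 k1 k2 k3 d1 d2))
    · have t := leaf_A_0 a c b z w v y x u ha hc hb hz hw hv hy hx hu (by linarith only [r1]) (by linarith only [r3]) (by linarith only [k1]) (by linarith only [k3]) (by linarith only [k2]) (by linarith only [d1]) (by linarith only [d2])
      exact Or.inl (le_trans d2_le (by linarith only [t]))
    · exact Or.inl (le_trans d2_le (leaf_A_2 a b c x u y v z w ha hb hc hx hu hy hv hz hw r1 r2 r3 k1 k2 k3 d1 d2))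
  ·
    have n2 := h99_class_A_3 a b c x u y v z w ha hb hc hx hu hy hv hz hw r1 r2 r3 k1 k2 k3 hadm d1
    rcases n2 with d2 | d2 | d2
    · have t := leaf_A_0 b a c u x z w y v hb ha hc hu hx hz hw hy hv (by linarith only [r2]) (by linarith only [r1]) (by linarith only [k2]) (by linarith only [k1]) (by linarith only [k3]) (by linarith only [d1]) (by linarith only [d2])
      exact Or.inl (le_trans d2_le (by linarith only [t]))
    · have t := leaf_A_0 b c a y v w z u x hb hc ha hy hv hw hz hu hx (by linarith only [r2]) (by linarith only [r3]) (by linarith only [k2]) (by linarith only [k3]) (by linarith only [k1]) (by linarith only [d1]) (by linarith only [d2])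
      exact Or.inl (le_trans d2_le (by linarith only [t]))
    · have t := leaf_A_2 b a c u x z w y v hb ha hc hu hx hz hw hy hv (by linarith only [r2]) (by linarith only [r1]) (by linarith only [r3]) (by linarith only [k2]) (by linarith only [k1]) (by linarith only [k3]) (by linarith only [d1]) (by linarith only [d2])
      exact Or.inl (le_trans d2_le (by linarith only [t]))
  ·
    have n3 := h99_class_A_4 a b c x u y v z w ha hb hc hx hu hy hv hz hw r1 r2 r3 k1 k2 k3 hadm d1
    rcases n3 with d2 | d2 | d2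
    · have t := leaf_A_0 c a b w z x u v y hc ha hb hw hz hx hu hv hy (by linarith only [r3]) (by linarith only [r1]) (by linarith only [k3]) (by linarith only [k1]) (by linarith only [k2]) (by linarith only [d1]) (by linarith only [d2])
      exact Or.inl (le_trans d2_le (by linarith only [t]))
    · have t := leaf_A_0 c b a v y u x w z hc hb ha hv hy hu hx hw hz (by linarith only [r3]) (by linarith only [r2]) (by linarith only [k3]) (by linarith only [k2]) (by linarith only [k1]) (by linarith only [d1]) (by linarith only [d2])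
      exact Or.inl (le_trans d2_le (by linarith only [t]))
    · have t := leaf_A_2 c a b w z x u v y hc ha hb hw hz hx hu hv hy (by linarith only [r3]) (by linarith only [r1]) (by linarith only [r2]) (by linarith only [k3]) (by linarith only [k1]) (by linarith only [k2]) (by linarith only [d1]) (by linarith only [d2])
      exact Or.inl (le_trans d2_le (by linarith only [t]))
  ·
    have n4 := h99_class_A_5 a b c x u y v z w ha hb hc hx hu hy hv hz hw r1 r2 r3 k1 k2 k3 hadm d1
    rcases n4 with d2 | d2 | d2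
    ·
      have n5 := h99_class_A_6 a b c x u y v z w ha hb hc hx hu hy hv hz hw r1 r2 r3 k1 k2 k3 hadm d1 d2
      rcases n5 with d3 | d3 | d3
      ·
        have n6 := h99_class_A_7 a b c x u y v z w ha hb hc hx hu hy hv hz hw r1 r2 r3 k1 k2 k3 hadm d1
        rcases n6 with d4 | d4 | d4
        · exact Or.inl (le_trans d2_le (leaf_A_9 a b c x u y v z w ha hb hc hx hu hy hv hz hw r1 r2 k1 k2 k3 d1 d2 d3 d4))
        · have t := leaf_A_9 b a c u x z w y v hb ha hc hu hx hz hw hy hv (by linarith only [r2]) (by linarith only [r1]) (by linarith only [k2]) (by linarith only [k1]) (by linarith only [k3]) (by linarith only [d1]) (by linarith only [d3]) (by linarith only [d2]) (by linarith only [d4])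
          exact Or.inl (le_trans d2_le (by linarith only [t]))
        · exact Or.inl (le_trans d2_le (leaf_A_11 a b c x u y v z w ha hb hc hx hu hy hv hz hw r1 r2 k1 k2 k3 d1 d2 d3 d4))
      ·
        have n7 := h99_class_A_8 a b c x u y v z w ha hb hc hx hu hy hv hz hw r1 r2 r3 k1 k2 k3 hadm d1 d3
        rcases n7 with d4 | d4 | d4
        · have t := leaf_A_9 a c b z w v y x u ha hc hb hz hw hv hy hx hu (by linarith only [r1]) (by linarith only [r3]) (by linarith only [k1]) (by linarith only [k3]) (by linarith only [k2]) (by linarith only [d1]) (by linarith only [d4]) (by linarith only [d3]) (by linarith only [d2])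
          exact Or.inl (le_trans d2_le (by linarith only [t]))
        · exact Or.inl (le_trans d2_le (leaf_A_13 a b c x u y v z w ha hb hc hx hu hy hv hz hw r1 r2 r3 k1 k2 k3 d1 d2 d3 d4))
        · exact Or.inl (le_trans d2_le (leaf_A_14 a b c x u y v z w ha hb hc hx hu hy hv hz hw r1 r2 r3 k1 k2 k3 d1 d2 d3 d4))
      ·
        have n8 := h99_class_A_9 a b c x u y v z w ha hb hc hx hu hy hv hz hw r1 r2 r3 k1 k2 k3 hadm d1 d3
        rcases n8 with d4 | d4 | d4
        · exact Or.inl (le_trans d2_le (leaf_A_15 a b c x u y v z w ha hb hc hx hu hy hv hz hw r1 r2 r3 k1 k2 k3 d1 d2 d3 d4))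
        · have t := leaf_A_14 b c a y v w z u x hb hc ha hy hv hw hz hu hx (by linarith only [r2]) (by linarith only [r3]) (by linarith only [r1]) (by linarith only [k2]) (by linarith only [k3]) (by linarith only [k1]) (by linarith only [d1]) (by linarith only [d4]) (by linarith only [d2]) (by linarith only [d3])
          exact Or.inl (le_trans d2_le (by linarith only [t]))
        · exact Or.inl (leaf_A_17 a b c x u y v z w ha hb hc hx hu hy hv hz hw r1 r2 r3 k1 k2 k3 d1 d2 d3 d4)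
    ·
      have n9 := h99_class_A_10 a b c x u y v z w ha hb hc hx hu hy hv hz hw r1 r2 r3 k1 k2 k3 hadm d1
      rcases n9 with d3 | d3 | d3
      ·
        have n10 := h99_class_A_11 a b c x u y v z w ha hb hc hx hu hy hv hz hw r1 r2 r3 k1 k2 k3 hadm d1 d2
        rcases n10 with d4 | d4 | d4
        · have t := leaf_A_13 a c b z w v y x u ha hc hb hz hw hv hy hx hu (by linarith only [r1]) (by linarith only [r3]) (by linarith only [r2]) (by linarith only [k1]) (by linarith only [k3]) (by linarith only [k2]) (by linarith only [d1]) (by linarith only [d4]) (by linarith only [d3]) (by linarith only [d2])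
          exact Or.inl (le_trans d2_le (by linarith only [t]))
        · have t := leaf_A_9 b c a y v w z u x hb hc ha hy hv hw hz hu hx (by linarith only [r2]) (by linarith only [r3]) (by linarith only [k2]) (by linarith only [k3]) (by linarith only [k1]) (by linarith only [d1]) (by linarith only [d4]) (by linarith only [d2]) (by linarith only [d3])
          exact Or.inl (le_trans d2_le (by linarith only [t]))
        · have t := leaf_A_14 b a c u x z w y v hb ha hc hu hx hz hw hy hv (by linarith only [r2]) (by linarith only [r1]) (by linarith only [r3]) (by linarith only [k2]) (by linarith only [k1]) (by linarith only [k3]) (by linarith only [d1]) (by linarith only [d3]) (by linarith only [d2]) (by linarith only [d4])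
          exact Or.inl (le_trans d2_le (by linarith only [t]))
      ·
        have n11 := h99_class_A_12 a b c x u y v z w ha hb hc hx hu hy hv hz hw r1 r2 r3 k1 k2 k3 hadm d2 d3
        rcases n11 with d4 | d4 | d4
        · have t := leaf_A_9 c a b w z x u v y hc ha hb hw hz hx hu hv hy (by linarith only [r3]) (by linarith only [r1]) (by linarith only [k3]) (by linarith only [k1]) (by linarith only [k2]) (by linarith only [d1]) (by linarith only [d3]) (by linarith only [d4]) (by linarith only [d2])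
          exact Or.inl (le_trans d2_le (by linarith only [t]))
        · have t := leaf_A_9 c b a v y u x w z hc hb ha hv hy hu hx hw hz (by linarith only [r3]) (by linarith only [r2]) (by linarith only [k3]) (by linarith only [k2]) (by linarith only [k1]) (by linarith only [d1]) (by linarith only [d2]) (by linarith only [d4]) (by linarith only [d3])
          exact Or.inl (le_trans d2_le (by linarith only [t]))
        · have t := leaf_A_15 c a b w z x u v y hc ha hb hw hz hx hu hv hy (by linarith only [r3]) (by linarith only [r1]) (by linarith only [r2]) (by linarith only [k3]) (by linarith only [k1]) (by linarith only [k2]) (by linarith only [d1]) (by linarith only [d3]) (by linarith only [d4]) (by linarith only [d2])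
          exact Or.inl (le_trans d2_le (by linarith only [t]))
      ·
        have n12 := h99_class_A_13 a b c x u y v z w ha hb hc hx hu hy hv hz hw r1 r2 r3 k1 k2 k3 hadm d1 d2 d3
        rcases n12 with d4 | d4 | d4
        · have t := leaf_A_14 c b a v y u x w z hc hb ha hv hy hu hx hw hz (by linarith only [r3]) (by linarith only [r2]) (by linarith only [r1]) (by linarith only [k3]) (by linarith only [k2]) (by linarith only [k1]) (by linarith only [d1]) (by linarith only [d2]) (by linarith only [d4]) (by linarith only [d3])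
          exact Or.inl (le_trans d2_le (by linarith only [t]))
        · have t := leaf_A_11 b c a y v w z u x hb hc ha hy hv hw hz hu hx (by linarith only [r2]) (by linarith only [r3]) (by linarith only [k2]) (by linarith only [k3]) (by linarith only [k1]) (by linarith only [d1]) (by linarith only [d4]) (by linarith only [d2]) (by linarith only [d3])
          exact Or.inl (le_trans d2_le (by linarith only [t]))
        · have t := leaf_A_17 c b a v y u x w z hc hb ha hv hy hu hx hw hz (by linarith only [r3]) (by linarith only [r2]) (by linarith only [r1]) (by linarith only [k3]) (by linarith only [k2]) (by linarith only [k1]) (by linarith only [d1]) (by linarith only [d2]) (by linarith only [d4]) (by linarith only [d3])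
          exact Or.inl (by linarith only [t])
    ·
      have n13 := h99_class_A_14 a b c x u y v z w ha hb hc hx hu hy hv hz hw r1 r2 r3 k1 k2 k3 hadm d1 d2
      rcases n13 with d3 | d3 | d3
      ·
        have n14 := h99_class_A_15 a b c x u y v z w ha hb hc hx hu hy hv hz hw r1 r2 r3 k1 k2 k3 hadm d1 d2 d3
        rcases n14 with d4 | d4 | d4
        · have t := leaf_A_14 a c b z w v y x u ha hc hb hz hw hv hy hx hu (by linarith only [r1]) (by linarith only [r3]) (by linarith only [r2]) (by linarith only [k1]) (by linarith only [k3]) (by linarith only [k2]) (by linarith only [d1]) (by linarith only [d3]) (by linarith only [d4]) (by linarith only [d2])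
          exact Or.inl (le_trans d2_le (by linarith only [t]))
        · have t := leaf_A_11 a c b z w v y x u ha hc hb hz hw hv hy hx hu (by linarith only [r1]) (by linarith only [r3]) (by linarith only [k1]) (by linarith only [k3]) (by linarith only [k2]) (by linarith only [d1]) (by linarith only [d3]) (by linarith only [d4]) (by linarith only [d2])
          exact Or.inl (le_trans d2_le (by linarith only [t]))
        · have t := leaf_A_17 a c b z w v y x u ha hc hb hz hw hv hy hx hu (by linarith only [r1]) (by linarith only [r3]) (by linarith only [r2]) (by linarith only [k1]) (by linarith only [k3]) (by linarith only [k2]) (by linarith only [d1]) (by linarith only [d3]) (by linarith only [d4]) (by linarith only [d2])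
          exact Or.inl (by linarith only [t])
      ·
        have n15 := h99_class_A_16 a b c x u y v z w ha hb hc hx hu hy hv hz hw r1 r2 r3 k1 k2 k3 hadm d1 d2
        rcases n15 with d4 | d4 | d4
        · have t := leaf_A_15 b a c u x z w y v hb ha hc hu hx hz hw hy hv (by linarith only [r2]) (by linarith only [r1]) (by linarith only [r3]) (by linarith only [k2]) (by linarith only [k1]) (by linarith only [k3]) (by linarith only [d1]) (by linarith only [d4]) (by linarith only [d2]) (by linarith only [d3])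
          exact Or.inl (le_trans d2_le (by linarith only [t]))
        · have t := leaf_A_14 c a b w z x u v y hc ha hb hw hz hx hu hv hy (by linarith only [r3]) (by linarith only [r1]) (by linarith only [r2]) (by linarith only [k3]) (by linarith only [k1]) (by linarith only [k2]) (by linarith only [d1]) (by linarith only [d4]) (by linarith only [d3]) (by linarith only [d2])
          exact Or.inl (le_trans d2_le (by linarith only [t]))
        · have t := leaf_A_17 b c a y v w z u x hb hc ha hy hv hw hz hu hx (by linarith only [r2]) (by linarith only [r3]) (by linarith only [r1]) (by linarith only [k2]) (by linarith only [k3]) (by linarith only [k1]) (by linarith only [d1]) (by linarith only [d3]) (by linarith only [d2]) (by linarith only [d4])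
          exact Or.inl (by linarith only [t])
      ·
        have n16 := h99_class_A_17 a b c x u y v z w ha hb hc hx hu hy hv hz hw r1 r2 r3 k1 k2 k3 hadm d1 d2 d3
        rcases n16 with d4 | d4 | d4
        · have t := leaf_A_17 b a c u x z w y v hb ha hc hu hx hz hw hy hv (by linarith only [r2]) (by linarith only [r1]) (by linarith only [r3]) (by linarith only [k2]) (by linarith only [k1]) (by linarith only [k3]) (by linarith only [d1]) (by linarith only [d4]) (by linarith only [d2]) (by linarith only [d3])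
          exact Or.inl (by linarith only [t])
        · have t := leaf_A_17 c a b w z x u v y hc ha hb hw hz hx hu hv hy (by linarith only [r3]) (by linarith only [r1]) (by linarith only [r2]) (by linarith only [k3]) (by linarith only [k1]) (by linarith only [k2]) (by linarith only [d1]) (by linarith only [d4]) (by linarith only [d3]) (by linarith only [d2])
          exact Or.inl (by linarith only [t])
        · exact Or.inr ⟨by linarith, by linarith, by linarith, by linarith⟩
  ·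
    have n17 := h99_class_A_18 a b c x u y v z w ha hb hc hx hu hy hv hz hw r1 r2 r3 k1 k2 k3 hadm d1
    have d2 := n17
    have n18 := h99_class_A_19 a b c x u y v z w ha hb hc hx hu hy hv hz hw r1 r2 r3 k1 k2 k3 hadm d1 d2
    have d3 := n18
    exact Or.inl (le_trans d2_le (leaf_A_35 a b c x u y v z w ha hb hc hx hu hy hv hz hw r2 r3 k1 k2 k3 d1 d2 d3))
  ·
    have n19 := h99_class_A_20 a b c x u y v z w ha hb hc hx hu hy hv hz hw r1 r2 r3 k1 k2 k3 hadm d1
    have d2 := n19
    have n20 := h99_class_A_21 a b c x u y v z w ha hb hc hx hu hy hv hz hw r1 r2 r3 k1 k2 k3 hadm d1 d2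
    have d3 := n20
    have t := leaf_A_35 b a c u x z w y v hb ha hc hu hx hz hw hy hv (by linarith only [r1]) (by linarith only [r3]) (by linarith only [k2]) (by linarith only [k1]) (by linarith only [k3]) (by linarith only [d1]) (by linarith only [d2]) (by linarith only [d3])
    exact Or.inl (le_trans d2_le (by linarith only [t]))
  ·
    have n21 := h99_class_A_22 a b c x u y v z w ha hb hc hx hu hy hv hz hw r1 r2 r3 k1 k2 k3 hadm d1
    have d2 := n21
    have n22 := h99_class_A_23 a b c x u y v z w ha hb hc hx hu hy hv hz hw r1 r2 r3 k1 k2 k3 hadm d1 d2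
    have d3 := n22
    have t := leaf_A_35 c a b w z x u v y hc ha hb hw hz hx hu hv hy (by linarith only [r1]) (by linarith only [r2]) (by linarith only [k3]) (by linarith only [k1]) (by linarith only [k2]) (by linarith only [d1]) (by linarith only [d2]) (by linarith only [d3])
    exact Or.inl (le_trans d2_le (by linarith only [t]))

end Pool.Agent.Helper84.Dbl
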